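import Mathlib

set_option linter.all false

open Set Metric Topology Filter

namespace H56Mini

/-- Model data: a compact metric space `M` with a circle action `R` (a 1-periodic flow), one
equivariant torus chart `Psi : ℝ × ℝ × E → M` (covering its image, 1-periodic in the first two
variables) and finitely many equivariant charts `Phi j : ℝ × F → M`. -/
structure Model (M : Type) [MetricSpace M] [CompactSpace M]
    (E : Type) [NormedAddCommGroup E] [NormedSpace ℝ E] [ProperSpace E]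
    (F : Type) [NormedAddCommGroup F] [NormedSpace ℝ F] [ProperSpace F]
    (ι : Type) where
  R : ℝ → M → M
  R_cont : Continuous (fun p : ℝ × M => R p.1 p.2)
  R_zero : ∀ w, R 0 w = w
  R_add : ∀ a b w, R (a + b) w = R a (R b w)
  R_one : ∀ w, R 1 w = w
  Psi : ℝ × ℝ × E → M
  Psi_cont : Continuous Psi
  Psi_open : IsOpenMap Psi
  Psi_eq : ∀ s t r s' t' r', Psi (s, t, r) = Psi (s', t', r') ↔
    (∃ a : ℤ, s' = s + a) ∧ (∃ b : ℤ, t' = t + b) ∧ r' = r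
  Psi_R : ∀ u s t r, R u (Psi (s, t, r)) = Psi (s, t + u, r)
  Phi : ι → ℝ × F → M
  Phi_cont : ∀ j, Continuous (Phi j)
  Phi_open : ∀ j, IsOpenMap (Phi j)
  Phi_eq : ∀ j t x t' x', Phi j (t, x) = Phi j (t', x') ↔ (∃ a : ℤ, t' = t + a) ∧ x' = x
  Phi_R : ∀ j u t x, R u (Phi j (t, x)) = Phi j (t + u, x)
  Phi_disj : ∀ j t x s t', Phi j (t, x) ≠ Psi (s, t', 0)
  Phi_near : ∀ j, ∀ δ : ℝ, 0 < δ → ∃ r0 : E, ‖r0‖ < δ ∧ ∀ s t, ∃ y, Phi j y = Psi (s, t, r0)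
  cover : ∀ w, (∃ s t, w = Psi (s, t, 0)) ∨ ∃ j y, w = Phi j y

section
variable {M : Type} [MetricSpace M] [CompactSpace M]
  {E : Type} [NormedAddCommGroup E] [NormedSpace ℝ E] [ProperSpace E]
  {F : Type} [NormedAddCommGroup F] [NormedSpace ℝ F] [ProperSpace F]
  {ι : Type}

/-- the base point -/
def Model.pt (S : Model M E F ι) : M := S.Psi (0, 0, 0)

/-- coordinates adapted to the slope `p / q`: the rotation by `p/q` is `x ↦ x + 1`. -/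
noncomputable def Model.V (S : Model M E F ι) (p : ℤ) (q : ℕ) (x τ : ℝ) (r : E) : M :=
  S.Psi (x, (p * x + τ) / q, r)

/-- the box `|x| < c, |τ| < η, ‖r‖ < η` in the coordinates `V`. -/
def Model.box (S : Model M E F ι) (p : ℤ) (q : ℕ) (c η : ℝ) : Set M :=
  {w | ∃ x τ r, |x| < c ∧ |τ| < η ∧ ‖r‖ < η ∧ w = S.V p q x τ r}

/-- the closed box. -/
def Model.cbox (S : Model M E F ι) (p : ℤ) (q : ℕ) (c η : ℝ) : Set M :=
  {w | ∃ x τ r, |x| ≤ c ∧ |τ| ≤ η ∧ ‖r‖ ≤ η ∧ w = S.V p q x τ r}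

/-- the conjugated rotation `H R_a H⁻¹`. -/
def Model.conj (S : Model M E F ι) (H : M ≃ₜ M) (a : ℝ) (w : M) : M := H (S.R a (H.symm w))

/-- the arc of slope `a` through the base point is mapped into the ball of radius `ρ`. -/
def Model.arcs (S : Model M E F ι) (H : M ≃ₜ M) (a ρ : ℝ) : Prop :=
  ∀ x : ℝ, |x| ≤ 4 → dist (H (S.Psi (x, a * x, 0))) S.pt < ρ

/-- every circle through `K` is mapped by `H` to a set meeting `U`. -/
def Model.Cov (S : Model M E F ι) (H : M ≃ₜ M) (U K : Set M) : Prop :=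
  ∀ w ∈ K, ∃ t : ℝ, H (S.R t w) ∈ U

/-- `K` is invariant under the circle action. -/
def Model.Inv (S : Model M E F ι) (K : Set M) : Prop := ∀ t : ℝ, ∀ w ∈ K, S.R t w ∈ K

/-- movers -/
def Model.Mov (S : Model M E F ι) (K L : Set M) : Prop :=
  ∀ (p : ℤ) (q : ℕ), 0 < q → IsCoprime p (q : ℤ) →
    ∃ h : M ≃ₜ M, (∀ w, h (S.R (1 / q) w) = S.R (1 / q) (h w)) ∧
      (∀ s : ℝ, h (S.Psi (s, (p / q : ℝ) * s, 0)) = S.Psi (s, (p / q : ℝ) * s, 0)) ∧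
      ∀ w ∈ K ∪ L, ∃ u : ℝ, h (S.R u w) ∈ K

/-- a state: rational slope, base point fixed, arc in the ball of radius `ρ`. -/
def Model.State (S : Model M E F ι) (H : M ≃ₜ M) (p : ℤ) (q : ℕ) (ρ : ℝ) : Prop :=
  IsCoprime p (q : ℤ) ∧ 8 ≤ q ∧ H S.pt = S.pt ∧ 0 < ρ ∧ S.arcs H (p / q : ℝ) ρ

/-- closeness of two conjugated rotations and of their inverses. -/
def Model.Close (S : Model M E F ι) (H : M ≃ₜ M) (a : ℝ) (H' : M ≃ₜ M) (a' ε : ℝ) : Prop :=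
  (∀ w, dist (S.conj H' a' w) (S.conj H a w) < ε) ∧
    ∀ w, dist (S.conj H' (-a') w) (S.conj H (-a) w) < ε

/-- every orbit of `H R_{p/q} H⁻¹` visits `U` at six different times in `[0,q)`. -/
def Model.RV (S : Model M E F ι) (H : M ≃ₜ M) (p : ℤ) (q : ℕ) (U : Set M) : Prop :=
  ∀ w, ∃ s : Finset ℤ, 6 ≤ s.card ∧ ∀ k ∈ s, 0 ≤ k ∧ k < q ∧ H (S.R (k * (p / q : ℝ)) w) ∈ U

/-- `g` is the shear by `a` along the direction `(1, p/q)`. -/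
def Model.IsShear (S : Model M E F ι) (p : ℤ) (q : ℕ) (a : ℝ → E → ℝ) (g : M ≃ₜ M) : Prop :=
  (∀ s t r, g (S.Psi (s, t, r)) =
      S.Psi (s + a (q * t - p * s) r, t + (p / q : ℝ) * a (q * t - p * s) r, r)) ∧
    ∀ w, (∀ s t r, w ≠ S.Psi (s, t, r)) → g w = w

/-- `g` is the map `x ↦ x + θ (Z x - x)` in the strip `|τ| < 1/2` of the coordinates `V`. -/
def Model.IsCollapse (S : Model M E F ι) (p : ℤ) (q : ℕ) (θ : ℝ → E → ℝ) (Z : ℝ → ℝ)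
    (g : M ≃ₜ M) : Prop :=
  (∀ x τ r, |τ| < 1 / 2 → g (S.V p q x τ r) = S.V p q (x + θ τ r * (Z x - x)) τ r) ∧
    ∀ w, (∀ x τ r, |τ| < 1 / 2 → θ τ r ≠ 0 → w ≠ S.V p q x τ r) → g w = w

/-- `T` is the rotation by `p/q` followed by the shear by `ω - 1`. -/
def Model.IsTwist (S : Model M E F ι) (p : ℤ) (q : ℕ) (ω : ℝ → E → ℝ) (T : M ≃ₜ M) : Prop :=
  (∀ s t r, T (S.Psi (s, t, r)) = S.Psi (s + (ω (q * t - p * s) r - 1),
      t + (p / q : ℝ) + (p / q : ℝ) * (ω (q * t - p * s) r - 1), r)) ∧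
    ∀ w, (∀ s t r, w ≠ S.Psi (s, t, r)) → T w = S.R (p / q : ℝ) w

/-- the monotone degree one map used for the slow down: constant on `[1, q-1]`, slope `q/2` on
`[-1,1]`. -/
def IsZ (q : ℕ) (Z : ℝ → ℝ) : Prop :=
  Continuous Z ∧ Monotone Z ∧ (∀ x, Z (x + q) = Z x + q) ∧
    (∀ x, 1 ≤ x → x ≤ q - 1 → Z x = q / 2) ∧ ∀ x, |x| ≤ 1 → Z x = q / 2 * x

/-- the data of the slow down with parameters `η, ω0`. -/
def IsData {E : Type} [NormedAddCommGroup E] (η ω0 : ℝ) (ω ψ : ℝ → E → ℝ) : Prop :=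
  Continuous (fun y : ℝ × E => ω y.1 y.2) ∧ Continuous (fun y : ℝ × E => ψ y.1 y.2) ∧
  (∀ τ r, ω (τ + 1) r = ω τ r) ∧ (∀ τ r, ψ (τ + 1) r = ψ τ r) ∧
  (∀ τ r, ω0 ≤ ω τ r) ∧ (∀ τ r, ω τ r ≤ 1 + 4 * η) ∧
  (∀ (τ : ℝ) (r : E), η ≤ |τ - round τ| → 1 ≤ ω τ r) ∧
  (∀ τ r, η ≤ ‖r‖ → ω τ r = 1 ∧ ψ τ r = 0) ∧
  ω 0 0 = ω0 ∧ ψ 0 0 = 0 ∧
  (∀ ε : ℝ, 0 < ε → ∃ N0 : ℕ, ∀ N : ℕ, N0 ≤ N → 0 < N → ∀ τ r,
    |N * (ψ (τ + 1 / N) r - ψ τ r) - (ω τ r - 1)| < ε) ∧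
  (∀ ε : ℝ, 0 < ε → ∃ δ : ℝ, 0 < δ ∧ ∀ τ, |τ| < δ → |ψ τ 0 - (ω0 - 1) * τ| ≤ ε * |τ|)

/-- distance to the integers -/
noncomputable def dZ (x : ℝ) : ℝ := |x - round x|

/-- radial factor: `radf c L ρ * ρ` is `c ρ` for `ρ ≤ L` and `ρ` for `ρ ≥ 2 L`. -/
noncomputable def radf (c L ρ : ℝ) : ℝ :=
  min (max c (2 - c - 2 * (1 - c) * L / max ρ (L / 2))) 1

end

end H56Mini
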