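import Pool.Agent.Helper56.Mini.Defs

set_option linter.all false

open Set Metric Topology Filter

namespace H56Mini



theorem R_homeo {M : Type} [MetricSpace M] [CompactSpace M]
    {E : Type} [NormedAddCommGroup E] [NormedSpace ℝ E] [ProperSpace E]
    {F : Type} [NormedAddCommGroup F] [NormedSpace ℝ F] [ProperSpace F]
    {ι : Type} (S : Model M E F ι) (u : ℝ) :
    ∃ g : M ≃ₜ M, (∀ w, g w = S.R u w) ∧ ∀ w, g.symm w = S.R (-u) w := by
  have hl : ∀ (u : ℝ) (w : M), S.R (-u) (S.R u w) = w := by
    intro u w
    have h := S.R_add (-u) u w
    rw [neg_add_cancel, S.R_zero] at h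
    exact h.symm
  have hc : ∀ u : ℝ, Continuous (fun w => S.R u w) := by
    intro u
    have h := S.R_cont
    exact h.comp (continuous_const.prodMk continuous_id)
  refine ⟨{ toFun := fun w => S.R u w
            invFun := fun w => S.R (-u) w
            left_inv := fun w => hl u w
            right_inv := fun w => by
              have := hl (-u) w
              rwa [neg_neg] at this
            continuous_toFun := hc u
            continuous_invFun := hc (-u) }, fun w => rfl, fun w => rfl⟩

end H56Mini
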