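import Pool.Agent.Helper56.Mini.Defs

set_option linter.all false

open Set Metric Topology Filter

namespace H56Mini



theorem R_uc {M : Type} [MetricSpace M] [CompactSpace M]
    {E : Type} [NormedAddCommGroup E] [NormedSpace ℝ E] [ProperSpace E]
    {F : Type} [NormedAddCommGroup F] [NormedSpace ℝ F] [ProperSpace F]
    {ι : Type} (S : Model M E F ι) (ε : ℝ) (hε : 0 < ε) :
    ∃ δ : ℝ, 0 < δ ∧ ∀ u u' w w', |u' - u| < δ → dist w' w < δ →
      dist (S.R u' w') (S.R u w) < ε := by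
  have hnat : ∀ (n : ℕ) (w : M), S.R (n : ℝ) w = w := by
    intro n
    induction n with
    | zero => intro w; simpa using S.R_zero w
    | succ n ih =>
      intro w
      rw [Nat.cast_succ, S.R_add, S.R_one, ih]
  have hneg : ∀ (n : ℕ) (w : M), S.R (-(n : ℝ)) w = w := by
    intro n w
    have h1 := S.R_add (-(n : ℝ)) (n : ℝ) w
    rw [neg_add_cancel, S.R_zero, hnat] at h1
    exact h1.symm
  have hint : ∀ (n : ℤ) (w : M), S.R (n : ℝ) w = w := by
    intro n w
    obtain ⟨m, rfl | rfl⟩ := n.eq_nat_or_neg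
    · exact_mod_cast hnat m w
    · have := hneg m w
      push_cast
      exact this
  have hsh : ∀ (u : ℝ) (n : ℤ) (w : M), S.R u w = S.R (u - n) w := by
    intro u n w
    have h1 := S.R_add (u - n) (n : ℝ) w
    rw [sub_add_cancel, hint] at h1
    exact h1
  have hK : IsCompact (Icc (-1 : ℝ) 2 ×ˢ (univ : Set M)) := isCompact_Icc.prod isCompact_univ
  have huc := hK.uniformContinuousOn_of_continuous S.R_cont.continuousOn
  rw [Metric.uniformContinuousOn_iff] at huc
  obtain ⟨δ, hδ, h⟩ := huc ε hε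
  refine ⟨min δ 1, lt_min hδ one_pos, ?_⟩
  intro u u' w w' hu hw
  have hu1 : |u' - u| < 1 := lt_of_lt_of_le hu (min_le_right _ _)
  have hu2 : |u' - u| < δ := lt_of_lt_of_le hu (min_le_left _ _)
  have hw2 : dist w' w < δ := lt_of_lt_of_le hw (min_le_left _ _)
  rw [hsh u ⌊u⌋ w, hsh u' ⌊u⌋ w']
  have f1 := Int.floor_le u
  have f2 := Int.lt_floor_add_one u
  rw [abs_lt] at hu1
  refine h (u' - ⌊u⌋, w') ⟨⟨by linarith, by linarith⟩, mem_univ _⟩ (u - ⌊u⌋, w)
    ⟨⟨by linarith, by linarith⟩, mem_univ _⟩ ?_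
  rw [Prod.dist_eq]
  refine max_lt ?_ hw2
  simp only
  rw [Real.dist_eq]
  have : u' - ⌊u⌋ - (u - ⌊u⌋) = u' - u := by ring
  rw [this]
  exact hu2

end H56Mini
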