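import Pool.Agent.Helper56.Mini.Defs

set_option linter.all false

open Set Metric Topology Filter

namespace H56Mini



theorem V_add {M : Type} [MetricSpace M] [CompactSpace M]
    {E : Type} [NormedAddCommGroup E] [NormedSpace ℝ E] [ProperSpace E]
    {F : Type} [NormedAddCommGroup F] [NormedSpace ℝ F] [ProperSpace F]
    {ι : Type} (S : Model M E F ι) (p : ℤ) (q : ℕ) (hq : 0 < q) (x τ : ℝ) (r : E) (n : ℤ) :
    S.V p q (x + q * n) τ r = S.V p q x τ r ∧
    S.R (n * (p / q : ℝ)) (S.V p q x τ r) = S.V p q (x + n) τ r := by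
  have hq' : (q : ℝ) ≠ 0 := by
    have : (0 : ℝ) < q := by exact_mod_cast hq
    exact this.ne'
  unfold Model.V
  constructor
  · rw [S.Psi_eq]
    refine ⟨⟨-(q * n), ?_⟩, ⟨-(p * n), ?_⟩, rfl⟩
    · push_cast
      ring
    · push_cast
      field_simp
      ring
  · rw [S.Psi_R, S.Psi_eq]
    refine ⟨⟨n, rfl⟩, ⟨0, ?_⟩, rfl⟩
    push_cast
    field_simp
    ring

end H56Mini
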