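import Pool.Agent.Helper56.Mini.Defs

set_option linter.all false

open Set Metric Topology Filter

namespace H56Mini



theorem V_eq {M : Type} [MetricSpace M] [CompactSpace M]
    {E : Type} [NormedAddCommGroup E] [NormedSpace ℝ E] [ProperSpace E]
    {F : Type} [NormedAddCommGroup F] [NormedSpace ℝ F] [ProperSpace F]
    {ι : Type} (S : Model M E F ι) (p : ℤ) (q : ℕ) (hq : 0 < q) (hpq : IsCoprime p (q : ℤ))
    (x τ : ℝ) (r : E) (x' τ' : ℝ) (r' : E) (h : |τ| < 1 / 2) (h' : |τ'| < 1 / 2) :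
    S.V p q x τ r = S.V p q x' τ' r' ↔ (∃ n : ℤ, x' = x + q * n) ∧ τ' = τ ∧ r' = r := by
  have hq' : (0 : ℝ) < q := Nat.cast_pos.mpr hq
  unfold Model.V
  rw [S.Psi_eq]
  constructor
  · rintro ⟨⟨a, ha⟩, ⟨b, hb⟩, hr⟩
    have h1 : (p : ℝ) * x' + τ' = p * x + τ + q * b := by
      field_simp at hb
      linarith
    have h2 : τ' - τ = ((q * b - p * a : ℤ) : ℝ) := by
      push_cast
      rw [ha] at h1
      linarith
    have h3 : |((q * b - p * a : ℤ) : ℝ)| < 1 := by
      rw [← h2, abs_lt]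
      rw [abs_lt] at h h'
      constructor <;> linarith [h.1, h.2, h'.1, h'.2]
    have h4 : (q * b - p * a : ℤ) = 0 := by
      rw [← Int.abs_lt_one_iff]
      exact_mod_cast h3
    have h5 : τ' = τ := by
      rw [h4] at h2
      simp only [Int.cast_zero] at h2
      linarith
    have h6 : (q : ℤ) ∣ p * a := ⟨b, by linarith⟩
    obtain ⟨n, hn⟩ := hpq.symm.dvd_of_dvd_mul_left h6
    refine ⟨⟨n, ?_⟩, h5, hr⟩
    rw [ha, hn]
    push_cast
    ring
  · rintro ⟨⟨n, hn⟩, hτ, hr⟩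
    refine ⟨⟨q * n, ?_⟩, ⟨p * n, ?_⟩, hr⟩
    · rw [hn]
      push_cast
      ring
    · rw [hn, hτ]
      push_cast
      field_simp
      ring

end H56Mini
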