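import Pool.Agent.Helper56.Mini.Defs

set_option linter.all false

open Set Metric Topology Filter

namespace H56Mini



theorem V_open {M : Type} [MetricSpace M] [CompactSpace M]
    {E : Type} [NormedAddCommGroup E] [NormedSpace ℝ E] [ProperSpace E]
    {F : Type} [NormedAddCommGroup F] [NormedSpace ℝ F] [ProperSpace F]
    {ι : Type} (S : Model M E F ι) (p : ℤ) (q : ℕ) (hq : 0 < q) :
    IsOpenMap (fun y : ℝ × ℝ × E => S.V p q y.1 y.2.1 y.2.2) ∧
    Continuous (fun y : ℝ × ℝ × E => S.V p q y.1 y.2.1 y.2.2) := by
  have hq0 : (q : ℝ) ≠ 0 := by exact_mod_cast hq.ne'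
  let e : (ℝ × ℝ × E) ≃ₜ (ℝ × ℝ × E) :=
    { toFun := fun y => (y.1, (p * y.1 + y.2.1) / q, y.2.2)
      invFun := fun z => (z.1, q * z.2.1 - p * z.1, z.2.2)
      left_inv := by
        rintro ⟨x, t, r⟩
        simp only [Prod.mk.injEq, true_and, and_true]
        field_simp
        ring
      right_inv := by
        rintro ⟨x, t, r⟩
        simp only [Prod.mk.injEq, true_and, and_true]
        field_simp
        ring
      continuous_toFun := by
        refine Continuous.prodMk continuous_fst (Continuous.prodMk ?_ (continuous_snd.comp continuous_snd))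
        exact ((continuous_const.mul continuous_fst).add (continuous_fst.comp continuous_snd)).div_const _
      continuous_invFun := by
        refine Continuous.prodMk continuous_fst (Continuous.prodMk ?_ (continuous_snd.comp continuous_snd))
        exact (continuous_const.mul (continuous_fst.comp continuous_snd)).sub
          (continuous_const.mul continuous_fst) }
  exact ⟨S.Psi_open.comp e.isOpenMap, S.Psi_cont.comp e.continuous⟩

end H56Mini
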