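import Pool.Agent.Helper56.Mini.Defs

set_option linter.all false

open Set Metric Topology Filter

namespace H56Mini



theorem close_trans {M : Type} [MetricSpace M] [CompactSpace M]
    {E : Type} [NormedAddCommGroup E] [NormedSpace ℝ E] [ProperSpace E]
    {F : Type} [NormedAddCommGroup F] [NormedSpace ℝ F] [ProperSpace F]
    {ι : Type} (S : Model M E F ι) (H H' H'' : M ≃ₜ M) (a a' a'' ε ε' : ℝ)
    (h1 : S.Close H a H' a' ε) (h2 : S.Close H' a' H'' a'' ε') :
    S.Close H a H'' a'' (ε + ε') := by
  constructor
  · intro w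
    have t1 := h1.1 w
    have t2 := h2.1 w
    have t3 := dist_triangle (S.conj H'' a'' w) (S.conj H' a' w) (S.conj H a w)
    linarith
  · intro w
    have t1 := h1.2 w
    have t2 := h2.2 w
    have t3 := dist_triangle (S.conj H'' (-a'') w) (S.conj H' (-a') w) (S.conj H (-a) w)
    linarith

end H56Mini
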