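import Pool.Agent.Helper56.Mini.Defs

set_option linter.all false

open Set Metric Topology Filter

namespace H56Mini



theorem ext_homeo {X M : Type} [TopologicalSpace X] [TopologicalSpace M] [CompactSpace M]
    [T2Space M] (e : X → M) (he : Continuous e) (ho : IsOpenMap e) (h : X → X)
    (hc : Continuous h) (hs : Function.Surjective h)
    (hrel : ∀ x y, e x = e y ↔ e (h x) = e (h y)) (K : Set M) (hK : IsClosed K)
    (hKe : K ⊆ range e) (hid : ∀ x, e x ∉ K → e (h x) = e x) :
    ∃ g : M ≃ₜ M, (∀ x, g (e x) = e (h x)) ∧ ∀ w, w ∉ K → g w = w := by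
  classical
  let g : M → M := fun w => if hw : w ∈ range e then e (h hw.choose) else w
  have hg : ∀ x, g (e x) = e (h x) := by
    intro x
    have hx : e x ∈ range e := mem_range_self x
    show (if hw : e x ∈ range e then e (h hw.choose) else e x) = _
    rw [dif_pos hx]
    exact (hrel _ _).1 hx.choose_spec
  have hgn : ∀ w, w ∉ range e → g w = w := by
    intro w hw
    show (if hw : w ∈ range e then e (h hw.choose) else w) = _
    rw [dif_neg hw]
  have hgK : ∀ w, w ∉ K → g w = w := by
    intro w hw
    by_cases hwe : w ∈ range e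
    · obtain ⟨x, rfl⟩ := hwe
      rw [hg, hid x hw]
    · exact hgn w hwe
  have hcont : Continuous g := by
    rw [continuous_iff_continuousAt]
    intro w
    by_cases hwe : w ∈ range e
    · obtain ⟨x, rfl⟩ := hwe
      have h1 : Tendsto (g ∘ e) (𝓝 x) (𝓝 (g (e x))) := by
        have h2 : g ∘ e = e ∘ h := funext hg
        rw [h2, hg]
        exact ((he.comp hc).tendsto x)
      exact (tendsto_map'_iff.2 h1).mono_left (ho.nhds_le x)
    · have hwK : w ∉ K := fun h' => hwe (hKe h')
      have h3 : g =ᶠ[𝓝 w] id := by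
        filter_upwards [hK.isOpen_compl.mem_nhds hwK] with v hv
        exact hgK v hv
      exact continuousAt_id.congr h3.symm
  have hinj : Function.Injective g := by
    intro w w' hww
    by_cases hw : w ∈ range e
    · obtain ⟨x, rfl⟩ := hw
      by_cases hw' : w' ∈ range e
      · obtain ⟨y, rfl⟩ := hw'
        rw [hg, hg] at hww
        exact (hrel x y).2 hww
      · rw [hg, hgn w' hw'] at hww
        exact absurd ⟨h x, hww⟩ hw'
    · by_cases hw' : w' ∈ range e
      · obtain ⟨y, rfl⟩ := hw'
        rw [hg, hgn w hw] at hww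
        exact absurd ⟨h y, hww.symm⟩ hw
      · rw [hgn w hw, hgn w' hw'] at hww
        exact hww
  have hsurj : Function.Surjective g := by
    intro w
    by_cases hw : w ∈ range e
    · obtain ⟨x, rfl⟩ := hw
      obtain ⟨y, rfl⟩ := hs x
      exact ⟨e y, hg y⟩
    · exact ⟨w, hgn w hw⟩
  have hcont' : Continuous (Equiv.ofBijective g ⟨hinj, hsurj⟩) := hcont
  exact ⟨hcont'.homeoOfEquivCompactToT2, hg, hgK⟩

end H56Mini
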