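import Pool.Agent.Helper56.Mini.Defs
import Pool.Agent.Helper56.Mini.P_ext_homeo
import Pool.Agent.Helper56.Mini.P_V_eq
import Pool.Agent.Helper56.Mini.P_V_add
import Pool.Agent.Helper56.Mini.P_V_open

set_option linter.all false

open Set Metric Topology Filter

namespace H56Mini



theorem collapse {M : Type} [MetricSpace M] [CompactSpace M]
    {E : Type} [NormedAddCommGroup E] [NormedSpace ℝ E] [ProperSpace E]
    {F : Type} [NormedAddCommGroup F] [NormedSpace ℝ F] [ProperSpace F]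
    {ι : Type} (S : Model M E F ι) (p : ℤ) (q : ℕ) (hq : 8 ≤ q) (hpq : IsCoprime p (q : ℤ))
    (θ : ℝ → E → ℝ) (hθ : Continuous (fun y : ℝ × E => θ y.1 y.2)) (h0 : ∀ τ r, 0 ≤ θ τ r)
    (h1 : ∀ τ r, θ τ r < 1) (η : ℝ) (hη : 0 < η) (hη2 : η < 1 / 4)
    (hsupp : ∀ τ r, |τ| < 1 / 2 → (η ≤ |τ| ∨ η ≤ ‖r‖) → θ τ r = 0) (Z : ℝ → ℝ) (hZ : IsZ q Z) :
    ∃ g : M ≃ₜ M, S.IsCollapse p q θ Z g := by
  obtain ⟨hZc, hZm, hZq, hZ1, hZ2⟩ := hZ
  have hq0 : 0 < q := by omega
  have hqR : (0 : ℝ) < (q : ℝ) := by exact_mod_cast hq0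
  have hZ0 : Z 0 = 0 := by
    have := hZ2 0 (by simp)
    simpa using this
  -- integer translations
  have hZn : ∀ (n : ℤ) (x : ℝ), Z (x + q * n) = Z x + q * n := by
    intro n
    induction n using Int.induction_on with
    | zero => intro x; simp
    | succ i ih =>
      intro x
      have : x + (q : ℝ) * (((i : ℤ) + 1 : ℤ) : ℝ) = (x + q * ((i : ℤ) : ℝ)) + q := by
        push_cast; ring
      rw [this, hZq, ih]
      push_cast; ring
    | pred i ih =>
      intro x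
      have h3 := hZq (x + (q : ℝ) * ((-(i : ℤ) - 1 : ℤ) : ℝ))
      have : x + (q : ℝ) * ((-(i : ℤ) - 1 : ℤ) : ℝ) + q = x + q * ((-(i : ℤ) : ℤ) : ℝ) := by
        push_cast; ring
      rw [this, ih] at h3
      have h4 : Z (x + (q : ℝ) * ((-(i : ℤ) - 1 : ℤ) : ℝ)) = Z x + q * ((-(i : ℤ) : ℤ) : ℝ) - q := by
        linarith
      rw [h4]; push_cast; ring
  have hF_mono : ∀ c : ℝ, 0 ≤ c → c < 1 → StrictMono (fun x : ℝ => x + c * (Z x - x)) := by
    intro c hc0 hc1 x y hxy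
    have h3 := hZm hxy.le
    have h4 : c * Z x ≤ c * Z y := mul_le_mul_of_nonneg_left h3 hc0
    have h5 : (1 - c) * x < (1 - c) * y := mul_lt_mul_of_pos_left hxy (by linarith)
    show x + c * (Z x - x) < y + c * (Z y - y)
    nlinarith
  have hF_surj : ∀ c : ℝ, 0 ≤ c → c < 1 → ∀ y : ℝ, ∃ x : ℝ, x + c * (Z x - x) = y := by
    intro c hc0 hc1 y
    have hcont : Continuous (fun x : ℝ => x + c * (Z x - x)) := by fun_prop
    have hpos : 0 < 1 - c := by linarith
    have hb0 : 0 ≤ |y| / (1 - c) := by positivity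
    have hmul : (1 - c) * (|y| / (1 - c)) = |y| := by field_simp
    have h3 : y ∈ range (fun x : ℝ => x + c * (Z x - x)) := by
      apply mem_range_of_exists_le_of_exists_ge hcont
      · refine ⟨-(|y| / (1 - c)), ?_⟩
        have h4 : Z (-(|y| / (1 - c))) ≤ 0 := by
          rw [← hZ0]; exact hZm (by linarith)
        have h5 : c * Z (-(|y| / (1 - c))) ≤ 0 := mul_nonpos_of_nonneg_of_nonpos hc0 h4
        have h6 := neg_abs_le y
        show -(|y| / (1 - c)) + c * (Z (-(|y| / (1 - c))) - -(|y| / (1 - c))) ≤ y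
        nlinarith
      · refine ⟨|y| / (1 - c), ?_⟩
        have h4 : 0 ≤ Z (|y| / (1 - c)) := by
          rw [← hZ0]; exact hZm hb0
        have h5 : 0 ≤ c * Z (|y| / (1 - c)) := mul_nonneg hc0 h4
        have h6 := le_abs_self y
        show y ≤ |y| / (1 - c) + c * (Z (|y| / (1 - c)) - |y| / (1 - c))
        nlinarith
    exact h3
  obtain ⟨hVo, hVc⟩ := V_open S p q hq0
  let X : Type _ := {y : ℝ × ℝ × E // |y.2.1| < 1 / 2}
  let e : X → M := fun y => S.V p q y.1.1 y.1.2.1 y.1.2.2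
  let h : X → X := fun y =>
    ⟨(y.1.1 + θ y.1.2.1 y.1.2.2 * (Z y.1.1 - y.1.1), y.1.2.1, y.1.2.2), y.2⟩
  have he : Continuous e := hVc.comp continuous_subtype_val
  have hXo : IsOpen {y : ℝ × ℝ × E | |y.2.1| < 1 / 2} := by
    apply isOpen_lt _ continuous_const
    fun_prop
  have ho : IsOpenMap e := hVo.comp hXo.isOpenMap_subtype_val
  have hc : Continuous h := by
    apply Continuous.subtype_mk
    have hx : Continuous (fun y : X => y.1.1) := continuous_fst.comp continuous_subtype_val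
    have hτr : Continuous (fun y : X => y.1.2) := continuous_snd.comp continuous_subtype_val
    have hth : Continuous (fun y : X => θ y.1.2.1 y.1.2.2) := hθ.comp hτr
    have hz : Continuous (fun y : X => Z y.1.1) := hZc.comp hx
    exact ((hx.add (hth.mul (hz.sub hx)))).prodMk hτr
  have hs : Function.Surjective h := by
    rintro ⟨⟨x', τ, r⟩, hy⟩
    obtain ⟨x, hx⟩ := hF_surj (θ τ r) (h0 τ r) (h1 τ r) x'
    refine ⟨⟨(x, τ, r), hy⟩, ?_⟩
    apply Subtype.ext
    show (x + θ τ r * (Z x - x), τ, r) = (x', τ, r)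
    rw [hx]
  have hrel : ∀ x y : X, e x = e y ↔ e (h x) = e (h y) := by
    rintro ⟨⟨x, τ, r⟩, hx⟩ ⟨⟨y, τ', r'⟩, hy⟩
    have hx' : |τ| < 1 / 2 := hx
    have hy' : |τ'| < 1 / 2 := hy
    show S.V p q x τ r = S.V p q y τ' r' ↔
      S.V p q (x + θ τ r * (Z x - x)) τ r = S.V p q (y + θ τ' r' * (Z y - y)) τ' r'
    rw [V_eq S p q hq0 hpq x τ r y τ' r' hx' hy',
      V_eq S p q hq0 hpq (x + θ τ r * (Z x - x)) τ r (y + θ τ' r' * (Z y - y)) τ' r' hx' hy']
    constructor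
    · rintro ⟨⟨n, hn⟩, h3, h4⟩
      subst h3; subst h4
      refine ⟨⟨n, ?_⟩, rfl, rfl⟩
      rw [hn, hZn]
      ring
    · rintro ⟨⟨n, hn⟩, h3, h4⟩
      subst h3; subst h4
      refine ⟨⟨n, ?_⟩, rfl, rfl⟩
      apply (hF_mono (θ τ' r') (h0 τ' r') (h1 τ' r')).injective
      show y + θ τ' r' * (Z y - y) = (x + q * n) + θ τ' r' * (Z (x + q * n) - (x + q * n))
      rw [hn, hZn]
      ring
  let K : Set M := (fun y : ℝ × ℝ × E => S.V p q y.1 y.2.1 y.2.2) ''
    (Icc 0 (q : ℝ) ×ˢ (Icc (-η) η ×ˢ closedBall (0 : E) η))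
  have hKc : IsCompact K :=
    (isCompact_Icc.prod (isCompact_Icc.prod (isCompact_closedBall (0 : E) η))).image hVc
  have hKe : K ⊆ range e := by
    rintro w ⟨⟨x, τ, r⟩, ⟨_, hτ, _⟩, rfl⟩
    have hτ' : |τ| < 1 / 2 := by
      have := abs_le.mpr hτ
      linarith
    exact ⟨⟨(x, τ, r), hτ'⟩, rfl⟩
  have hid : ∀ x : X, e x ∉ K → e (h x) = e x := by
    rintro ⟨⟨x, τ, r⟩, hx⟩ hnot
    have hx' : |τ| < 1 / 2 := hx
    show S.V p q (x + θ τ r * (Z x - x)) τ r = S.V p q x τ r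
    have hθ0 : θ τ r = 0 := by
      apply hsupp τ r hx'
      by_contra hcon
      push Not at hcon
      apply hnot
      obtain ⟨n, hn1, hn2⟩ : ∃ n : ℤ, 0 ≤ x + q * n ∧ x + q * n ≤ q := by
        refine ⟨-⌊x / q⌋, ?_, ?_⟩
        · have := Int.floor_le (x / q)
          push_cast
          have h3 : (⌊x / q⌋ : ℝ) * q ≤ x := by
            rwa [le_div_iff₀ hqR] at this
          linarith
        · have := (Int.lt_floor_add_one (x / q)).le
          push_cast
          rw [div_le_iff₀ hqR] at this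
          linarith
      refine ⟨(x + q * n, τ, r), ⟨⟨hn1, hn2⟩, abs_le.mp hcon.1.le, ?_⟩, ?_⟩
      · simpa using hcon.2.le
      · exact (V_add S p q hq0 x τ r n).1
    rw [hθ0]; simp
  obtain ⟨g, hg1, hg2⟩ := ext_homeo e he ho h hc hs hrel K hKc.isClosed hKe hid
  refine ⟨g, ?_, ?_⟩
  · intro x τ r hτ
    exact hg1 ⟨(x, τ, r), hτ⟩
  · intro w hw
    by_cases hwK : w ∈ K
    · obtain ⟨⟨x, τ, r⟩, ⟨_, hτ, _⟩, rfl⟩ := hwK
      have hτ' : |τ| < 1 / 2 := by
        have := abs_le.mpr hτ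
        linarith
      have hθ0 : θ τ r = 0 := by
        by_contra hne
        exact hw x τ r hτ' hne rfl
      have h3 : g (S.V p q x τ r) = S.V p q (x + θ τ r * (Z x - x)) τ r := hg1 ⟨(x, τ, r), hτ'⟩
      rw [hθ0] at h3
      simpa using h3
    · exact hg2 w hwK

end H56Mini
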