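import Pool.Agent.Helper56.Mini.Defs

set_option linter.all false

open Set Metric Topology Filter

namespace H56Mini



theorem cov_fin {M : Type} [MetricSpace M] [CompactSpace M]
    {E : Type} [NormedAddCommGroup E] [NormedSpace ℝ E] [ProperSpace E]
    {F : Type} [NormedAddCommGroup F] [NormedSpace ℝ F] [ProperSpace F]
    {ι : Type} (S : Model M E F ι) (H : M ≃ₜ M) (U K : Set M) (hU : IsOpen U)
    (hK : IsCompact K) (hcov : S.Cov H U K) :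
    ∃ δ : ℝ, 0 < δ ∧ ∀ w ∈ K, ∃ t0 : ℝ, ∀ t, t0 ≤ t → t ≤ t0 + δ → H (S.R t w) ∈ U := by
  have hopen : IsOpen {p : ℝ × M | H (S.R p.1 p.2) ∈ U} :=
    hU.preimage (H.continuous.comp S.R_cont)
  refine hK.induction_on (p := fun K : Set M => ∃ δ : ℝ, 0 < δ ∧ ∀ w ∈ K, ∃ t0 : ℝ,
    ∀ t, t0 ≤ t → t ≤ t0 + δ → H (S.R t w) ∈ U) ?_ ?_ ?_ ?_
  · exact ⟨1, one_pos, fun w hw => absurd hw (Set.notMem_empty w)⟩
  · rintro s t hst ⟨δ, hδ, h⟩
    exact ⟨δ, hδ, fun w hw => h w (hst hw)⟩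
  · rintro s t ⟨δ, hδ, h⟩ ⟨δ', hδ', h'⟩
    refine ⟨min δ δ', lt_min hδ hδ', ?_⟩
    rintro w (hw | hw)
    · obtain ⟨t0, ht0⟩ := h w hw
      exact ⟨t0, fun t h1 h2 => ht0 t h1 (h2.trans (by linarith [min_le_left δ δ']))⟩
    · obtain ⟨t0, ht0⟩ := h' w hw
      exact ⟨t0, fun t h1 h2 => ht0 t h1 (h2.trans (by linarith [min_le_right δ δ']))⟩
  · intro w hw
    obtain ⟨t0, ht0⟩ := hcov w hw
    have hmem : {p : ℝ × M | H (S.R p.1 p.2) ∈ U} ∈ 𝓝 (t0, w) := hopen.mem_nhds ht0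
    rw [nhds_prod_eq, Filter.mem_prod_iff] at hmem
    obtain ⟨V, hV, N, hN, hVN⟩ := hmem
    obtain ⟨ε, hε, hεV⟩ := Metric.mem_nhds_iff.1 hV
    refine ⟨N, mem_nhdsWithin_of_mem_nhds hN, ε / 2, by positivity, ?_⟩
    intro v hv
    refine ⟨t0, fun t h1 h2 => ?_⟩
    have h3 : t ∈ V := by
      apply hεV
      rw [Metric.mem_ball, Real.dist_eq, abs_lt]
      constructor <;> linarith
    exact hVN (Set.mk_mem_prod h3 hv)

end H56Mini
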