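import Pool.Agent.Helper56.Mini.Defs

set_option linter.all false

open Set Metric Topology Filter

namespace H56Mini



theorem rat_approx (p : ℤ) (q : ℕ) (hq : 0 < q) (ε : ℝ) (hε : 0 < ε) (Q : ℕ) :
    ∃ (p' : ℤ) (q' : ℕ), Q ≤ q' ∧ 0 < q' ∧ IsCoprime p' (q' : ℤ) ∧
      |(p' / q' : ℝ) - (p / q : ℝ)| < ε := by
  obtain ⟨K0, hK0⟩ := exists_nat_gt (1 / ε)
  obtain ⟨K, hK⟩ : ∃ K : ℕ, K = K0 + Q + 1 := ⟨_, rfl⟩
  have hKpos : 0 < K := by omega
  have hq1 : (1:ℝ) ≤ q := by exact_mod_cast hq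
  have hKR : (0:ℝ) < K := by exact_mod_cast hKpos
  have hKgt : 1 / ε < K := by
    rw [hK]; push_cast
    have : (0:ℝ) ≤ Q := Nat.cast_nonneg _
    linarith
  refine ⟨p * (q * K : ℕ) + 1, q * (q * K), ?_, by positivity, ?_, ?_⟩
  · have h1 : K ≤ q * (q * K) := by
      calc K = 1 * (1 * K) := by ring
        _ ≤ q * (q * K) := Nat.mul_le_mul hq (Nat.mul_le_mul hq le_rfl)
    omega
  · push_cast
    apply IsCoprime.mul_right
    · exact ⟨1, -(p * K), by ring⟩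
    · exact ⟨1, -p, by ring⟩
  · have hqR : (0:ℝ) < q := by linarith
    have h2 : (((p * (q * K : ℕ) + 1 : ℤ) : ℝ) / ((q * (q * K) : ℕ) : ℝ)) - (p / q : ℝ)
        = 1 / (q * (q * K)) := by
      push_cast
      field_simp
      ring
    rw [h2, abs_of_pos (by positivity), div_lt_iff₀ (by positivity)]
    have h3 : 1 < ε * K := by
      rw [div_lt_iff₀ hε] at hKgt
      linarith
    have h4 : (K:ℝ) ≤ q * (q * K) := by
      have h5 : (1:ℝ) ≤ q * q := by nlinarith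
      nlinarith
    nlinarith

end H56Mini
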