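import Pool.Agent.Helper56.Mini.Defs
import Pool.Agent.Helper56.Mini.P_R_uc
import Pool.Agent.Helper56.Mini.P_rat_approx

set_option linter.all false

open Set Metric Topology Filter

namespace H56Mini



theorem refine_step {M : Type} [MetricSpace M] [CompactSpace M]
    {E : Type} [NormedAddCommGroup E] [NormedSpace ℝ E] [ProperSpace E]
    {F : Type} [NormedAddCommGroup F] [NormedSpace ℝ F] [ProperSpace F]
    {ι : Type} (S : Model M E F ι) (H : M ≃ₜ M) (p : ℤ) (q : ℕ) (ρ : ℝ)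
    (hS : S.State H p q ρ) (ε : ℝ) (hε : 0 < ε) (Q : ℕ) :
    ∃ (p' : ℤ) (q' : ℕ), Q ≤ q' ∧ q ≤ q' ∧ S.State H p' q' ρ ∧
      S.Close H (p / q : ℝ) H (p' / q' : ℝ) ε := by
  obtain ⟨hcop, hq8, hpt, hρ, harc⟩ := hS
  have hcont : Continuous (fun z : ℝ × ℝ => dist (H (S.Psi (z.2, z.1 * z.2, 0))) S.pt) := by
    have h1 : Continuous (fun z : ℝ × ℝ => ((z.2, z.1 * z.2, (0 : E)) : ℝ × ℝ × E)) := by fun_prop
    exact (H.continuous.comp (S.Psi_cont.comp h1)).dist continuous_const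
  have hev : ∀ᶠ a in 𝓝 (p / q : ℝ), ∀ x ∈ Icc (-4 : ℝ) 4,
      dist (H (S.Psi (x, a * x, 0))) S.pt < ρ := by
    apply IsCompact.eventually_forall_of_forall_eventually isCompact_Icc
    intro x hx
    exact hcont.continuousAt.eventually_lt continuousAt_const (harc x (abs_le.2 ⟨hx.1, hx.2⟩))
  obtain ⟨δ1, hδ1, harc1⟩ := Metric.eventually_nhds_iff.1 hev
  obtain ⟨δ, hδ, huc⟩ := Metric.uniformContinuous_iff.1
    (CompactSpace.uniformContinuous_of_continuous H.continuous) ε hε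
  obtain ⟨δ2, hδ2, hR⟩ := R_uc S δ hδ
  obtain ⟨p', q', hQ, hq', hcop', happ⟩ := rat_approx p q (by omega) (min δ1 δ2)
    (lt_min hδ1 hδ2) (max Q q)
  have hqq : q ≤ q' := le_trans (le_max_right _ _) hQ
  have h1 : |(p' / q' : ℝ) - (p / q : ℝ)| < δ1 := lt_of_lt_of_le happ (min_le_left _ _)
  have h2 : |(p' / q' : ℝ) - (p / q : ℝ)| < δ2 := lt_of_lt_of_le happ (min_le_right _ _)
  refine ⟨p', q', le_trans (le_max_left _ _) hQ, hqq, ⟨hcop', le_trans hq8 hqq, hpt, hρ, ?_⟩, ?_, ?_⟩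
  · intro x hx
    exact harc1 (by rw [Real.dist_eq]; exact h1) x (by rw [Set.mem_Icc]; exact abs_le.1 hx)
  · intro w
    exact huc (hR _ _ _ _ h2 (by rw [dist_self]; exact hδ2))
  · intro w
    refine huc (hR _ _ _ _ ?_ (by rw [dist_self]; exact hδ2))
    have h3 : -(p' / q' : ℝ) - -(p / q : ℝ) = -((p' / q' : ℝ) - (p / q : ℝ)) := by ring
    rw [h3, abs_neg]
    exact h2

end H56Mini
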