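import Pool.Agent.Helper56.Mini.Defs
import Pool.Agent.Helper56.Mini.P_refine_step
import Pool.Agent.Helper56.Mini.P_cov_fin

set_option linter.all false

open Set Metric Topology Filter

namespace H56Mini



theorem cov_step {M : Type} [MetricSpace M] [CompactSpace M]
    {E : Type} [NormedAddCommGroup E] [NormedSpace ℝ E] [ProperSpace E]
    {F : Type} [NormedAddCommGroup F] [NormedSpace ℝ F] [ProperSpace F]
    {ι : Type} (S : Model M E F ι) (H : M ≃ₜ M) (p : ℤ) (q : ℕ) (ρ : ℝ)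
    (hS : S.State H p q ρ) (U K L : Set M) (hU : IsOpen U) (hK : IsCompact K) (hInv : S.Inv K)
    (hcov : S.Cov H U K) (hmov : S.Mov K L) (ε : ℝ) (hε : 0 < ε) :
    ∃ (H' : M ≃ₜ M) (p' : ℤ) (q' : ℕ), q ≤ q' ∧ S.State H' p' q' ρ ∧
      S.Close H (p / q : ℝ) H' (p' / q' : ℝ) ε ∧ S.Cov H' U (K ∪ L) := by
  obtain ⟨δ, hδ, hfin⟩ := cov_fin S H U K hU hK hcov
  obtain ⟨N, hN⟩ := exists_nat_gt (1 / δ)
  obtain ⟨p', q', hNq, hqq, hSt, hCl⟩ := refine_step S H p q ρ hS ε hε N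
  obtain ⟨hcop, h8, hpt, hρ, harc⟩ := hSt
  have hq0 : 0 < q' := by omega
  have hq0R : (0 : ℝ) < q' := by exact_mod_cast hq0
  obtain ⟨h, hcomm, hfix, hmove⟩ := hmov p' q' hq0 hcop
  have hadd : ∀ u v : ℝ, (∀ w, h (S.R u w) = S.R u (h w)) → (∀ w, h (S.R v w) = S.R v (h w)) →
      ∀ w, h (S.R (u + v) w) = S.R (u + v) (h w) := by
    intro u v hu hv w
    rw [S.R_add, hu, hv, ← S.R_add]
  have hneg : ∀ u : ℝ, (∀ w, h (S.R u w) = S.R u (h w)) →
      ∀ w, h (S.R (-u) w) = S.R (-u) (h w) := by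
    intro u hu w
    have h1 : S.R u (S.R (-u) w) = w := by rw [← S.R_add, add_neg_cancel, S.R_zero]
    have h2 : h w = S.R u (h (S.R (-u) w)) := by rw [← hu, h1]
    rw [h2, ← S.R_add, neg_add_cancel, S.R_zero]
  have hint : ∀ k : ℤ, ∀ w, h (S.R ((k : ℝ) / q') w) = S.R ((k : ℝ) / q') (h w) := by
    intro k
    induction k using Int.induction_on with
    | zero =>
      intro w
      rw [Int.cast_zero, zero_div, S.R_zero, S.R_zero]
    | succ i ih =>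
      have e : (((i : ℤ) + 1 : ℤ) : ℝ) / q' = ((i : ℤ) : ℝ) / q' + 1 / q' := by
        push_cast; ring
      rw [e]
      exact hadd _ _ ih hcomm
    | pred i ih =>
      have e : ((-(i : ℤ) - 1 : ℤ) : ℝ) / q' = ((-(i : ℤ) : ℤ) : ℝ) / q' + -(1 / q') := by
        push_cast; ring
      rw [e]
      exact hadd _ _ ih (hneg _ hcomm)
  have hconj : ∀ a : ℝ, (∀ w, h (S.R a w) = S.R a (h w)) → ∀ w,
      S.conj (h.trans H) a w = S.conj H a w := by
    intro a ha w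
    show H (h (S.R a (h.symm (H.symm w)))) = H (S.R a (H.symm w))
    rw [ha, h.apply_symm_apply]
  refine ⟨h.trans H, p', q', hqq, ⟨hcop, h8, ?_, hρ, ?_⟩, ⟨?_, ?_⟩, ?_⟩
  · show H (h S.pt) = S.pt
    have h1 := hfix 0
    rw [mul_zero] at h1
    have h2 : h S.pt = S.pt := h1
    rw [h2, hpt]
  · intro x hx
    show dist (H (h (S.Psi (x, (p' / q' : ℝ) * x, 0)))) S.pt < ρ
    rw [hfix]
    exact harc x hx
  · intro w
    rw [hconj _ (hint p')]
    exact hCl.1 w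
  · intro w
    rw [hconj _ (hneg _ (hint p'))]
    exact hCl.2 w
  · intro w hw
    obtain ⟨u, hu⟩ := hmove w hw
    obtain ⟨t0, ht0⟩ := hfin _ hu
    have h1 : t0 ≤ (⌈t0 * q'⌉ : ℝ) / q' := by
      rw [le_div_iff₀ hq0R]
      exact Int.le_ceil _
    have h2 : (⌈t0 * q'⌉ : ℝ) / q' ≤ t0 + δ := by
      rw [div_le_iff₀ hq0R]
      have h3 := (Int.ceil_lt_add_one (t0 * q')).le
      have h4 : 1 / δ < q' := hN.trans_le (by exact_mod_cast hNq)
      rw [div_lt_iff₀ hδ] at h4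
      nlinarith
    have h3 := ht0 _ h1 h2
    refine ⟨(⌈t0 * q'⌉ : ℝ) / q' + u, ?_⟩
    show H (h (S.R ((⌈t0 * q'⌉ : ℝ) / q' + u) w)) ∈ U
    rw [S.R_add, hint]
    exact h3

end H56Mini
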