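import Pool.Agent.Helper56.Mini.Defs

set_option linter.all false

open Set Metric Topology Filter

namespace H56Mini



theorem phi_compact {M : Type} [MetricSpace M] [CompactSpace M]
    {E : Type} [NormedAddCommGroup E] [NormedSpace ℝ E] [ProperSpace E]
    {F : Type} [NormedAddCommGroup F] [NormedSpace ℝ F] [ProperSpace F]
    {ι : Type} (S : Model M E F ι) (j : ι) (x0 : F) (L : ℝ) :
    IsCompact {w : M | ∃ t x, ‖x - x0‖ ≤ L ∧ w = S.Phi j (t, x)} := by
  have e : {w : M | ∃ t x, ‖x - x0‖ ≤ L ∧ w = S.Phi j (t, x)} =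
      S.Phi j '' (Icc (0 : ℝ) 1 ×ˢ closedBall x0 L) := by
    ext w
    constructor
    · rintro ⟨t, x, hx, rfl⟩
      refine ⟨(Int.fract t, x), ⟨⟨Int.fract_nonneg t, (Int.fract_lt_one t).le⟩, ?_⟩, ?_⟩
      · rw [mem_closedBall, dist_eq_norm]; exact hx
      · rw [S.Phi_eq]
        exact ⟨⟨⌊t⌋, (Int.fract_add_floor t).symm⟩, rfl⟩
    · rintro ⟨⟨t, x⟩, ⟨-, hx⟩, rfl⟩
      refine ⟨t, x, ?_, rfl⟩
      have hx' : x ∈ closedBall x0 L := hx
      rwa [mem_closedBall, dist_eq_norm] at hx'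
  rw [e]
  exact (isCompact_Icc.prod (isCompact_closedBall x0 L)).image (S.Phi_cont j)

end H56Mini
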