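import Pool.Agent.Helper56.Mini.Defs

set_option linter.all false

open Set Metric Topology Filter

namespace H56Mini



theorem radf_ge833 {c L ρ : ℝ} (hc1 : c ≤ 1) : c ≤ radf c L ρ := by
  unfold radf
  exact le_min (le_max_left _ _) hc1

theorem radf_mono833 {c L ρ ρ' : ℝ} (hL : 0 < L) (hc1 : c ≤ 1) (h : ρ ≤ ρ') :
    radf c L ρ ≤ radf c L ρ' := by
  unfold radf
  apply min_le_min _ le_rfl
  apply max_le_max le_rfl
  have h0 : 0 < max ρ (L / 2) := lt_max_of_lt_right (by linarith)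
  have h1 : max ρ (L / 2) ≤ max ρ' (L / 2) := max_le_max h le_rfl
  have h2 : 2 * (1 - c) * L / max ρ' (L / 2) ≤ 2 * (1 - c) * L / max ρ (L / 2) := by
    apply div_le_div_of_nonneg_left _ h0 h1
    have : 0 ≤ 1 - c := by linarith
    positivity
  linarith

theorem radf_small833 {c L ρ : ℝ} (hL : 0 < L) (hc1 : c ≤ 1) (h : ρ ≤ L) : radf c L ρ = c := by
  unfold radf
  have h0 : 0 < max ρ (L / 2) := lt_max_of_lt_right (by linarith)
  have h1 : max ρ (L / 2) ≤ L := max_le h (by linarith)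
  have h2 : 2 * (1 - c) ≤ 2 * (1 - c) * L / max ρ (L / 2) := by
    rw [le_div_iff₀ h0]
    apply mul_le_mul_of_nonneg_left h1
    linarith
  rw [max_eq_left (by linarith), min_eq_left hc1]

theorem radf_large833 {c L ρ : ℝ} (hL : 0 < L) (hc1 : c ≤ 1) (h : 2 * L ≤ ρ) : radf c L ρ = 1 := by
  unfold radf
  have h0 : max ρ (L / 2) = ρ := max_eq_left (by linarith)
  have hρ : 0 < ρ := by linarith
  have h2 : 2 * (1 - c) * L / ρ ≤ 1 - c := by
    rw [div_le_iff₀ hρ]
    have : 0 ≤ 1 - c := by linarith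
    nlinarith
  rw [h0]
  apply min_eq_right
  apply le_max_of_le_right
  linarith

theorem radf_cont833 {α : Type} [TopologicalSpace α] {L : ℝ} (hL : 0 < L) {c ρ : α → ℝ}
    (hc : Continuous c) (hρ : Continuous ρ) : Continuous (fun a => radf (c a) L (ρ a)) := by
  unfold radf
  have h0 : ∀ a, max (ρ a) (L / 2) ≠ 0 := fun a =>
    (lt_max_of_lt_right (by linarith : (0 : ℝ) < L / 2)).ne'
  have h1 : Continuous (fun a => max (ρ a) (L / 2)) := hρ.max continuous_const
  have h2 : Continuous (fun a => 2 * (1 - c a) * L / max (ρ a) (L / 2)) :=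
    ((continuous_const.mul (continuous_const.sub hc)).mul continuous_const).div h1 h0
  exact (hc.max ((continuous_const.sub hc).sub h2)).min continuous_const

theorem radf_props {F : Type} [NormedAddCommGroup F] [NormedSpace ℝ F] (L : ℝ) (hL : 0 < L) :
    Continuous (fun y : ℝ × F => radf y.1 L ‖y.2‖ • y.2) ∧
    (∀ c : ℝ, 0 < c → c ≤ 1 → Function.Bijective (fun x : F => radf c L ‖x‖ • x)) ∧
    (∀ c : ℝ, 0 < c → c ≤ 1 → ∀ x : F, 2 * L ≤ ‖x‖ → radf c L ‖x‖ • x = x) ∧
    (∀ c : ℝ, 0 < c → c ≤ 1 → ∀ x : F, ‖x‖ ≤ L → radf c L ‖x‖ • x = c • x) ∧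
    (∀ x : F, radf 1 L ‖x‖ • x = x) := by
  refine ⟨?_, ?_, ?_, ?_, ?_⟩
  · exact (radf_cont833 hL continuous_fst continuous_snd.norm).smul continuous_snd
  · intro c hc hc1
    have hpos : ∀ ρ, 0 < radf c L ρ := fun ρ => lt_of_lt_of_le hc (radf_ge833 hc1)
    have hg : ∀ ρ ρ' : ℝ, 0 ≤ ρ → ρ < ρ' → radf c L ρ * ρ < radf c L ρ' * ρ' := by
      intro ρ ρ' h0 h
      calc radf c L ρ * ρ ≤ radf c L ρ' * ρ :=
            mul_le_mul_of_nonneg_right (radf_mono833 hL hc1 h.le) h0
        _ < radf c L ρ' * ρ' := mul_lt_mul_of_pos_left h (hpos _)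
    have hnorm : ∀ x : F, ‖radf c L ‖x‖ • x‖ = radf c L ‖x‖ * ‖x‖ := by
      intro x
      rw [norm_smul, Real.norm_eq_abs, abs_of_pos (hpos _)]
    constructor
    · intro x y hxy
      have hxy' : radf c L ‖x‖ • x = radf c L ‖y‖ • y := hxy
      have h1 : radf c L ‖x‖ * ‖x‖ = radf c L ‖y‖ * ‖y‖ := by
        rw [← hnorm, ← hnorm, hxy']
      have h2 : ‖x‖ = ‖y‖ := by
        rcases lt_trichotomy ‖x‖ ‖y‖ with h | h | h
        · exact absurd h1 (hg _ _ (norm_nonneg _) h).ne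
        · exact h
        · exact absurd h1 (hg _ _ (norm_nonneg _) h).ne'
      rw [h2] at hxy'
      exact smul_right_injective F (hpos ‖y‖).ne' hxy'
    · intro z
      by_cases hz : z = 0
      · exact ⟨0, by simp [hz]⟩
      · have hv : 0 < ‖z‖ := norm_pos_iff.2 hz
        have hcont : Continuous (fun ρ : ℝ => radf c L ρ * ρ) :=
          (radf_cont833 hL continuous_const continuous_id).mul continuous_id
        have hb0 : 0 ≤ max (2 * L) ‖z‖ := le_max_of_le_right hv.le
        have hivt := intermediate_value_Icc hb0 hcont.continuousOn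
        have hmem : ‖z‖ ∈ Set.Icc ((fun ρ : ℝ => radf c L ρ * ρ) 0)
            ((fun ρ : ℝ => radf c L ρ * ρ) (max (2 * L) ‖z‖)) := by
          constructor
          · simp [hv.le]
          · show ‖z‖ ≤ radf c L (max (2 * L) ‖z‖) * max (2 * L) ‖z‖
            rw [radf_large833 hL hc1 (le_max_left _ _), one_mul]
            exact le_max_right _ _
        obtain ⟨ρ, hρ, hρv⟩ := hivt hmem
        have hρv' : radf c L ρ * ρ = ‖z‖ := hρv
        refine ⟨(ρ / ‖z‖) • z, ?_⟩
        have h1 : ‖(ρ / ‖z‖) • z‖ = ρ := by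
          rw [norm_smul, Real.norm_eq_abs, abs_of_nonneg (div_nonneg hρ.1 hv.le)]
          field_simp
        show radf c L ‖(ρ / ‖z‖) • z‖ • ((ρ / ‖z‖) • z) = z
        rw [h1, smul_smul, ← mul_div_assoc, hρv', div_self hv.ne', one_smul]
  · intro c hc hc1 x hx
    rw [radf_large833 hL hc1 hx, one_smul]
  · intro c hc hc1 x hx
    rw [radf_small833 hL hc1 hx]
  · intro x
    have h1 : radf 1 L ‖x‖ = 1 := by
      unfold radf
      rw [sub_self, mul_zero, zero_mul, zero_div]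
      norm_num
    rw [h1, one_smul]

end H56Mini
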