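import Pool.Agent.Helper56.Mini.Defs
import Pool.Agent.Helper56.Mini.P_ext_homeo
import Pool.Agent.Helper56.Mini.P_phi_compact
import Pool.Agent.Helper56.Mini.P_radf_props

set_option linter.all false

open Set Metric Topology Filter

namespace H56Mini



theorem rad_Phi {M : Type} [MetricSpace M] [CompactSpace M]
    {E : Type} [NormedAddCommGroup E] [NormedSpace ℝ E] [ProperSpace E]
    {F : Type} [NormedAddCommGroup F] [NormedSpace ℝ F] [ProperSpace F]
    {ι : Type} (S : Model M E F ι) (j : ι) (x0 : F) (L : ℝ) (hL : 0 < L) (c : ℝ → ℝ)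
    (hc : Continuous c) (h0 : ∀ t, 0 < c t) (h1 : ∀ t, c t ≤ 1) (hper : ∀ t, c (t + 1) = c t) :
    ∃ h : M ≃ₜ M, (∀ t x, h (S.Phi j (t, x0 + x)) = S.Phi j (t, x0 + radf (c t) L ‖x‖ • x)) ∧
      ∀ w, (∀ y, w ≠ S.Phi j y) → h w = w := by
  obtain ⟨P1, P2, P3, _, _⟩ := radf_props (F := F) L hL
  have hperZ : ∀ (a : ℤ) (t : ℝ), c (t + a) = c t := by
    intro a t
    have hp : Function.Periodic c 1 := hper
    have := hp.int_mul a t
    simpa using this
  have hcont : Continuous (fun y : ℝ × F => (y.1, x0 + radf (c y.1) L ‖y.2 - x0‖ • (y.2 - x0))) := by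
    have h2 : Continuous (fun y : ℝ × F => ((c y.1, y.2 - x0) : ℝ × F)) :=
      (hc.comp continuous_fst).prodMk (continuous_snd.sub continuous_const)
    have h3 := P1.comp h2
    exact continuous_fst.prodMk (continuous_const.add h3)
  obtain ⟨g, hg1, hg2⟩ := ext_homeo (S.Phi j) (S.Phi_cont j) (S.Phi_open j)
    (fun y : ℝ × F => (y.1, x0 + radf (c y.1) L ‖y.2 - x0‖ • (y.2 - x0))) hcont
    (by
      rintro ⟨t, y⟩
      obtain ⟨z, hz⟩ := (P2 (c t) (h0 t) (h1 t)).2 (y - x0)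
      refine ⟨(t, x0 + z), ?_⟩
      simp only [add_sub_cancel_left]
      have hz' : radf (c t) L ‖z‖ • z = y - x0 := hz
      rw [hz', add_sub_cancel])
    (by
      rintro ⟨t, x⟩ ⟨t', x'⟩
      simp only
      rw [S.Phi_eq, S.Phi_eq]
      constructor
      · rintro ⟨⟨a, ha⟩, hx⟩
        refine ⟨⟨a, ha⟩, ?_⟩
        rw [hx, ha, hperZ]
      · rintro ⟨⟨a, ha⟩, hx⟩
        refine ⟨⟨a, ha⟩, ?_⟩
        rw [ha, hperZ] at hx
        have h5 := add_left_cancel hx
        have h6 := (P2 (c t) (h0 t) (h1 t)).1 h5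
        exact sub_left_injective h6)
    {w : M | ∃ t x, ‖x - x0‖ ≤ 2 * L ∧ w = S.Phi j (t, x)}
    (phi_compact S j x0 (2 * L)).isClosed
    (by
      rintro w ⟨t, x, _, rfl⟩
      exact ⟨(t, x), rfl⟩)
    (by
      rintro ⟨t, x⟩ hx
      have hx' : 2 * L ≤ ‖x - x0‖ := by
        by_contra hcon
        push Not at hcon
        exact hx ⟨t, x, hcon.le, rfl⟩
      simp only
      rw [P3 (c t) (h0 t) (h1 t) (x - x0) hx', add_sub_cancel])
  refine ⟨g, ?_, ?_⟩
  · intro t x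
    rw [hg1 (t, x0 + x)]
    simp only [add_sub_cancel_left]
  · intro w hw
    apply hg2
    rintro ⟨t, x, _, h⟩
    exact hw _ h

end H56Mini
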