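import Pool.Agent.Helper56.Mini.Defs
import Pool.Agent.Helper56.Mini.P_radf_props
import Pool.Agent.Helper56.Mini.P_rad_Phi

set_option linter.all false

open Set Metric Topology Filter

namespace H56Mini



theorem mov_Phi {M : Type} [MetricSpace M] [CompactSpace M]
    {E : Type} [NormedAddCommGroup E] [NormedSpace ℝ E] [ProperSpace E]
    {F : Type} [NormedAddCommGroup F] [NormedSpace ℝ F] [ProperSpace F]
    {ι : Type} (S : Model M E F ι) (j : ι) (x0 : F) (ε L : ℝ) (hε : 0 < ε) (hεL : ε < L)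
    (K : Set M) (hK : S.Inv K) (hsub : ∀ t x, ‖x - x0‖ ≤ ε → S.Phi j (t, x) ∈ K) :
    S.Mov K {w | ∃ t x, ‖x - x0‖ ≤ L ∧ w = S.Phi j (t, x)} := by
  intro p q hq _
  have hL : 0 < L := hε.trans hεL
  have hqR : (0 : ℝ) < q := by exact_mod_cast hq
  have hr1 : ε / L < 1 := (div_lt_one hL).2 hεL
  have hr0 : 0 < ε / L := div_pos hε hL
  set c : ℝ → ℝ := fun t => 1 - (1 - ε / L) * Real.sin (Real.pi * (q * t)) ^ 2 with hc
  have hs1 : ∀ t : ℝ, Real.sin t ^ 2 ≤ 1 := fun t => Real.sin_sq_le_one t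
  have hcc : Continuous c := by
    rw [hc]; fun_prop
  have hc0 : ∀ t, 0 < c t := by
    intro t
    have h1 := hs1 (Real.pi * (q * t))
    have h2 := sq_nonneg (Real.sin (Real.pi * (q * t)))
    simp only [hc]
    nlinarith
  have hc1 : ∀ t, c t ≤ 1 := by
    intro t
    have h2 := sq_nonneg (Real.sin (Real.pi * (q * t)))
    simp only [hc]
    nlinarith
  have hcq : ∀ t, c (t + 1 / q) = c t := by
    intro t
    simp only [hc]
    have e : Real.pi * (q * (t + 1 / q)) = Real.pi * (q * t) + Real.pi := by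
      field_simp
    rw [e, Real.sin_add_pi, neg_sq]
  have hcper : ∀ t, c (t + 1) = c t := by
    intro t
    simp only [hc]
    have e : Real.pi * (q * (t + 1)) = Real.pi * (q * t) + (q : ℕ) * Real.pi := by
      ring
    rw [e, Real.sin_add_nat_mul_pi, mul_pow, ← pow_mul, mul_comm q 2, pow_mul, neg_one_sq,
      one_pow, one_mul]
  obtain ⟨h, hh1, hh2⟩ := rad_Phi S j x0 L hL c hcc hc0 hc1 hcper
  obtain ⟨-, -, -, hr4, hr5⟩ := radf_props (F := F) L hL
  have hh1' : ∀ t y, h (S.Phi j (t, y)) = S.Phi j (t, x0 + radf (c t) L ‖y - x0‖ • (y - x0)) := by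
    intro t y
    have := hh1 t (y - x0)
    rwa [add_sub_cancel] at this
  refine ⟨h, ?_, ?_, ?_⟩
  · intro w
    by_cases hw : ∃ y, w = S.Phi j y
    · obtain ⟨⟨t, y⟩, rfl⟩ := hw
      rw [S.Phi_R, hh1', hh1', S.Phi_R, hcq]
    · have hw' : ∀ y, w ≠ S.Phi j y := fun y hy => hw ⟨y, hy⟩
      rw [hh2 w hw', hh2]
      intro y hy
      apply hw
      refine ⟨(y.1 + -(1 / q), y.2), ?_⟩
      rw [← S.Phi_R j (-(1 / q)) y.1 y.2]
      have : S.Phi j (y.1, y.2) = S.R (1 / q) w := hy.symm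
      rw [this, ← S.R_add, neg_add_cancel, S.R_zero]
  · intro s
    apply hh2
    rintro ⟨t, x⟩ hy
    exact S.Phi_disj j t x _ _ hy.symm
  · intro w hw
    rcases hw with hw | ⟨t, x, hx, rfl⟩
    · by_cases hw2 : ∃ y, w = S.Phi j y
      · obtain ⟨⟨t, y⟩, rfl⟩ := hw2
        refine ⟨-t, ?_⟩
        have h1 := hK (-t) _ hw
        rw [S.Phi_R, add_neg_cancel] at h1 ⊢
        rw [hh1']
        have h2 : c 0 = 1 := by simp [hc]
        rw [h2, hr5, add_sub_cancel]
        exact h1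
      · have hw' : ∀ y, w ≠ S.Phi j y := fun y hy => hw2 ⟨y, hy⟩
        refine ⟨0, ?_⟩
        rw [S.R_zero, hh2 w hw']
        exact hw
    · refine ⟨1 / (2 * q) - t, ?_⟩
      rw [S.Phi_R, hh1', add_sub_cancel]
      have h2 : c (1 / (2 * q)) = ε / L := by
        simp only [hc]
        have e : Real.pi * (q * (1 / (2 * q))) = Real.pi / 2 := by
          field_simp
        rw [e, Real.sin_pi_div_two]
        ring
      rw [h2, hr4 _ hr0 hr1.le _ hx]
      apply hsub
      rw [add_sub_cancel_left, norm_smul, Real.norm_eq_abs, abs_of_pos hr0]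
      calc ε / L * ‖x - x0‖ ≤ ε / L * L := by gcongr
        _ = ε := by field_simp

end H56Mini
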