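import Pool.Agent.Helper56.Mini.Defs
import Pool.Agent.Helper56.Mini.P_phi_compact
import Pool.Agent.Helper56.Mini.P_mov_Phi
import Pool.Agent.Helper56.Mini.P_close_trans
import Pool.Agent.Helper56.Mini.P_cov_step

set_option linter.all false

open Set Metric Topology Filter

namespace H56Mini



theorem cov_list {M : Type} [MetricSpace M] [CompactSpace M]
    {E : Type} [NormedAddCommGroup E] [NormedSpace ℝ E] [ProperSpace E]
    {F : Type} [NormedAddCommGroup F] [NormedSpace ℝ F] [ProperSpace F]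
    {ι : Type} (S : Model M E F ι) (U K : Set M) (hU : IsOpen U) (hK : IsCompact K)
    (hInv : S.Inv K) (x0 : ι → F) (ε0 : ι → ℝ) (hε0 : ∀ j, 0 < ε0 j)
    (hsub : ∀ j t x, ‖x - x0 j‖ ≤ ε0 j → S.Phi j (t, x) ∈ K) (L : ℝ) (A : Finset ι)
    (H : M ≃ₜ M) (p : ℤ) (q : ℕ) (ρ : ℝ) (hS : S.State H p q ρ) (hcov : S.Cov H U K)
    (ε : ℝ) (hε : 0 < ε) :
    ∃ (H' : M ≃ₜ M) (p' : ℤ) (q' : ℕ), q ≤ q' ∧ S.State H' p' q' ρ ∧
      S.Close H (p / q : ℝ) H' (p' / q' : ℝ) ε ∧
      S.Cov H' U (K ∪ {w | ∃ j ∈ A, ∃ t x, ‖x - x0 j‖ ≤ L ∧ w = S.Phi j (t, x)}) := by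
  classical
  induction A using Finset.induction_on generalizing ε with
  | empty =>
    refine ⟨H, p, q, le_refl q, hS, ⟨fun w => ?_, fun w => ?_⟩, ?_⟩
    · rw [dist_self]; exact hε
    · rw [dist_self]; exact hε
    · intro w hw
      rcases hw with hw | ⟨j, hj, _⟩
      · exact hcov w hw
      · exact absurd hj (Finset.notMem_empty j)
  | insert j A hjA ih =>
    obtain ⟨H1, p1, q1, hq1, hS1, hC1, hcov1⟩ := ih (ε / 2) (by linarith)
    set K1 : Set M := K ∪ {w | ∃ j ∈ A, ∃ t x, ‖x - x0 j‖ ≤ L ∧ w = S.Phi j (t, x)} with hK1def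
    have hK1 : IsCompact K1 := by
      refine hK.union ?_
      have h1 : {w | ∃ j ∈ A, ∃ t x, ‖x - x0 j‖ ≤ L ∧ w = S.Phi j (t, x)} =
          ⋃ j ∈ A, {w | ∃ t x, ‖x - x0 j‖ ≤ L ∧ w = S.Phi j (t, x)} := by
        ext w
        simp only [Set.mem_setOf_eq, Set.mem_iUnion, exists_prop]
      rw [h1]
      exact A.isCompact_biUnion fun j _ => phi_compact S j (x0 j) L
    have hInv1 : S.Inv K1 := by
      intro t w hw
      rcases hw with hw | ⟨i, hi, s, x, hx, rfl⟩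
      · exact Or.inl (hInv t w hw)
      · right
        rw [S.Phi_R]
        exact ⟨i, hi, s + t, x, hx, rfl⟩
    have hmov := mov_Phi S j (x0 j) (ε0 j) (max L (ε0 j + 1)) (hε0 j)
      (lt_of_lt_of_le (by linarith) (le_max_right _ _)) K1 hInv1
      (fun t x hx => Or.inl (hsub j t x hx))
    obtain ⟨H2, p2, q2, hq2, hS2, hC2, hcov2⟩ := cov_step S H1 p1 q1 ρ hS1 U K1 _ hU hK1 hInv1 hcov1 hmov
      (ε / 2) (by linarith)
    refine ⟨H2, p2, q2, le_trans hq1 hq2, hS2, ?_, ?_⟩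
    · have h := close_trans S H H1 H2 _ _ _ _ _ hC1 hC2
      rwa [add_halves] at h
    · intro w hw
      apply hcov2 w
      rcases hw with hw | ⟨i, hi, s, x, hx, rfl⟩
      · exact Or.inl (Or.inl hw)
      · rcases Finset.mem_insert.1 hi with h | h
        · right
          subst h
          exact ⟨s, x, le_trans hx (le_max_left _ _), rfl⟩
        · exact Or.inl (Or.inr ⟨i, h, s, x, hx, rfl⟩)

end H56Mini
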