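import Pool.Agent.Helper56.Mini.Defs

set_option linter.all false

open Set Metric Topology Filter

namespace H56Mini



theorem cov_start {M : Type} [MetricSpace M] [CompactSpace M]
    {E : Type} [NormedAddCommGroup E] [NormedSpace ℝ E] [ProperSpace E]
    {F : Type} [NormedAddCommGroup F] [NormedSpace ℝ F] [ProperSpace F]
    {ι : Type} [Nonempty ι] (S : Model M E F ι) (H : M ≃ₜ M) (U : Set M)
    (hU : IsOpen U) (hne : U.Nonempty) :
    ∃ (j : ι) (x0 : F) (ε0 : ℝ), 0 < ε0 ∧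
      ∀ t x, ‖x - x0‖ ≤ ε0 → ∃ u, H (S.R u (S.Phi j (t, x))) ∈ U := by
  have hO : IsOpen (H ⁻¹' U) := hU.preimage H.continuous
  obtain ⟨u0, hu0⟩ := hne
  have hw : H.symm u0 ∈ H ⁻¹' U := by
    show H (H.symm u0) ∈ U
    rw [H.apply_symm_apply]
    exact hu0
  have key : ∃ (j : ι) (t1 : ℝ) (x1 : F), S.Phi j (t1, x1) ∈ H ⁻¹' U := by
    rcases S.cover (H.symm u0) with ⟨s, t, h⟩ | ⟨j, y, h⟩
    · obtain ⟨j⟩ := (inferInstance : Nonempty ι)
      have hc : Continuous (fun r : E => S.Psi (s, t, r)) :=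
        S.Psi_cont.comp (by fun_prop)
      have hO2 : IsOpen ((fun r : E => S.Psi (s, t, r)) ⁻¹' (H ⁻¹' U)) := hO.preimage hc
      have h0 : (0 : E) ∈ (fun r : E => S.Psi (s, t, r)) ⁻¹' (H ⁻¹' U) := by
        show S.Psi (s, t, 0) ∈ H ⁻¹' U
        rw [← h]
        exact hw
      obtain ⟨δ, hδ, hball⟩ := Metric.isOpen_iff.1 hO2 0 h0
      obtain ⟨r0, hr0, hy⟩ := S.Phi_near j δ hδ
      obtain ⟨y, hy⟩ := hy s t
      refine ⟨j, y.1, y.2, ?_⟩
      rw [Prod.mk.eta, hy]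
      exact hball (by rw [mem_ball_zero_iff]; exact hr0)
    · refine ⟨j, y.1, y.2, ?_⟩
      rw [Prod.mk.eta, ← h]
      exact hw
  obtain ⟨j, t1, x1, hx1⟩ := key
  have hc : Continuous (fun x : F => S.Phi j (t1, x)) := (S.Phi_cont j).comp (by fun_prop)
  have hO3 : IsOpen ((fun x : F => S.Phi j (t1, x)) ⁻¹' (H ⁻¹' U)) := hO.preimage hc
  obtain ⟨ε, hε, hball⟩ := Metric.isOpen_iff.1 hO3 x1 hx1
  refine ⟨j, x1, ε / 2, by positivity, ?_⟩
  intro t x hx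
  refine ⟨t1 - t, ?_⟩
  rw [S.Phi_R, add_sub_cancel]
  have : x ∈ ball x1 ε := by
    rw [mem_ball_iff_norm]
    linarith
  exact hball this

end H56Mini
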