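import Pool.Agent.Helper56.Mini.Defs

set_option linter.all false

open Set Metric Topology Filter

namespace H56Mini



theorem geo1 {M : Type} [MetricSpace M] [CompactSpace M]
    {E : Type} [NormedAddCommGroup E] [NormedSpace ℝ E] [ProperSpace E]
    {F : Type} [NormedAddCommGroup F] [NormedSpace ℝ F] [ProperSpace F]
    {ι : Type} (S : Model M E F ι) (j : ι) (x0 : F) :
    ∃ (r0 : E) (ε1 L0 : ℝ), ‖r0‖ < 1 ∧ 0 < ε1 ∧ ε1 < 1 ∧
      ∀ s t r, ‖r - r0‖ ≤ ε1 → ∃ t' x, ‖x - x0‖ ≤ L0 ∧ S.Psi (s, t, r) = S.Phi j (t', x) := by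
  obtain ⟨r0, hr0, hr⟩ := S.Phi_near j 1 one_pos
  let W : ℕ → Set M := fun n => S.Phi j '' (univ ×ˢ ball x0 (n : ℝ))
  have hW : ∀ n, IsOpen (W n) := fun n => S.Phi_open j _ (isOpen_univ.prod isOpen_ball)
  have hmono : Monotone W := fun a b hab =>
    image_mono (prod_mono subset_rfl (ball_subset_ball (by exact_mod_cast hab)))
  let G : (ℝ × ℝ) × E → M := fun p => S.Psi (p.1.1, p.1.2, p.2)
  have hG : Continuous G := S.Psi_cont.comp (by fun_prop)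
  have hK2 : IsCompact ((Icc (0:ℝ) 1) ×ˢ (Icc (0:ℝ) 1)) := isCompact_Icc.prod isCompact_Icc
  have hcov : ((Icc (0:ℝ) 1) ×ˢ (Icc (0:ℝ) 1)) ×ˢ {r0} ⊆ ⋃ n, G ⁻¹' W n := by
    rintro ⟨⟨s, t⟩, r⟩ ⟨_, h2⟩
    have h2' : r = r0 := h2
    subst h2'
    obtain ⟨⟨t', x⟩, hy⟩ := hr s t
    obtain ⟨n, hn⟩ := exists_nat_gt (dist x x0)
    exact mem_iUnion.2 ⟨n, ⟨(t', x), ⟨mem_univ _, mem_ball.2 hn⟩, hy⟩⟩
  obtain ⟨n, hn⟩ := (hK2.prod isCompact_singleton).elim_directed_cover (fun n => G ⁻¹' W n)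
    (fun n => (hW n).preimage hG) hcov
    (Monotone.directed_le fun a b hab => preimage_mono (hmono hab))
  obtain ⟨u, v, hu, hv, huK, hvr, huv⟩ := generalized_tube_lemma hK2 isCompact_singleton
    ((hW n).preimage hG) hn
  obtain ⟨ε, hε, hb⟩ := Metric.isOpen_iff.1 hv r0 (hvr rfl)
  refine ⟨r0, min (ε / 2) (1 / 2), n, hr0, lt_min (by linarith) (by norm_num),
    lt_of_le_of_lt (min_le_right _ _) (by norm_num), ?_⟩
  intro s t r hrr
  have hper : S.Psi (s, t, r) = S.Psi (Int.fract s, Int.fract t, r) := by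
    rw [S.Psi_eq]
    refine ⟨⟨-⌊s⌋, ?_⟩, ⟨-⌊t⌋, ?_⟩, rfl⟩
    · have := Int.fract_add_floor s
      push_cast; linarith
    · have := Int.fract_add_floor t
      push_cast; linarith
  have hm : (((Int.fract s, Int.fract t), r) : (ℝ × ℝ) × E) ∈ u ×ˢ v := by
    refine ⟨huK ⟨⟨Int.fract_nonneg _, (Int.fract_lt_one _).le⟩,
      ⟨Int.fract_nonneg _, (Int.fract_lt_one _).le⟩⟩, hb ?_⟩
    rw [mem_ball_iff_norm]
    have := hrr.trans (min_le_left _ _)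
    linarith
  obtain ⟨⟨t', x⟩, ⟨_, hx⟩, hxe⟩ := huv hm
  exact ⟨t', x, (mem_ball_iff_norm.1 hx).le, by rw [hper]; exact hxe.symm⟩

end H56Mini
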