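import Pool.Agent.Helper56.Mini.Defs

set_option linter.all false

open Set Metric Topology Filter

namespace H56Mini



theorem geo2 {M : Type} [MetricSpace M] [CompactSpace M]
    {E : Type} [NormedAddCommGroup E] [NormedSpace ℝ E] [ProperSpace E]
    {F : Type} [NormedAddCommGroup F] [NormedSpace ℝ F] [ProperSpace F]
    {ι : Type} (S : Model M E F ι) (j : ι) :
    ∃ (x0 : F) (ε0 : ℝ), 0 < ε0 ∧
      ∀ t x, ‖x - x0‖ ≤ ε0 → ∃ s t' r, ‖r‖ ≤ 1 ∧ S.Phi j (t, x) = S.Psi (s, t', r) := by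
  obtain ⟨r0, hr0, hy⟩ := S.Phi_near j 1 one_pos
  obtain ⟨⟨t1, x1⟩, hy⟩ := hy 0 0
  have hO : IsOpen {p : ℝ × ℝ × E | ‖p.2.2‖ < 1} :=
    isOpen_lt (continuous_snd.snd.norm) continuous_const
  have hW := S.Psi_open _ hO
  have hc : Continuous fun x : F => S.Phi j (t1, x) :=
    (S.Phi_cont j).comp (continuous_const.prodMk continuous_id)
  have hmem : (fun x : F => S.Phi j (t1, x)) ⁻¹' (S.Psi '' {p : ℝ × ℝ × E | ‖p.2.2‖ < 1}) ∈ 𝓝 x1 := by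
    refine (hW.preimage hc).mem_nhds ?_
    exact ⟨(0, 0, r0), hr0, hy.symm⟩
  obtain ⟨ε, hε, hball⟩ := Metric.mem_nhds_iff.1 hmem
  refine ⟨x1, ε / 2, by positivity, ?_⟩
  intro t x hx
  have hx' : x ∈ ball x1 ε := by
    rw [mem_ball, dist_eq_norm]; linarith
  obtain ⟨⟨s, t2, r⟩, hr, hp⟩ := hball hx'
  refine ⟨s, t2 + (t - t1), r, le_of_lt hr, ?_⟩
  have hp' : S.Psi (s, t2, r) = S.Phi j (t1, x) := hp
  rw [← S.Psi_R, hp', S.Phi_R]
  congr 2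
  ring

end H56Mini
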