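import Pool.Agent.Helper56.Mini.Defs

set_option linter.all false

open Set Metric Topology Filter

namespace H56Mini



theorem psi_compact {M : Type} [MetricSpace M] [CompactSpace M]
    {E : Type} [NormedAddCommGroup E] [NormedSpace ℝ E] [ProperSpace E]
    {F : Type} [NormedAddCommGroup F] [NormedSpace ℝ F] [ProperSpace F]
    {ι : Type} (S : Model M E F ι) (r0 : E) (L : ℝ) :
    IsCompact {w : M | ∃ s t r, ‖r - r0‖ ≤ L ∧ w = S.Psi (s, t, r)} := by
  have hK : IsCompact ((Icc (0 : ℝ) 1) ×ˢ ((Icc (0 : ℝ) 1) ×ˢ (closedBall r0 L : Set E))) :=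
    isCompact_Icc.prod (isCompact_Icc.prod (isCompact_closedBall r0 L))
  have hI := hK.image S.Psi_cont
  convert hI using 1
  ext w
  constructor
  · rintro ⟨s, t, r, hr, rfl⟩
    refine ⟨(Int.fract s, Int.fract t, r), ⟨⟨Int.fract_nonneg s, (Int.fract_lt_one s).le⟩,
      ⟨Int.fract_nonneg t, (Int.fract_lt_one t).le⟩, ?_⟩, ?_⟩
    · rw [mem_closedBall, dist_eq_norm]; exact hr
    · rw [S.Psi_eq]
      refine ⟨⟨⌊s⌋, ?_⟩, ⟨⌊t⌋, ?_⟩, rfl⟩
      · exact (Int.fract_add_floor s).symm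
      · exact (Int.fract_add_floor t).symm
  · rintro ⟨⟨s, t, r⟩, ⟨-, -, hr⟩, rfl⟩
    refine ⟨s, t, r, ?_, rfl⟩
    rw [← dist_eq_norm]
    exact hr

end H56Mini
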