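import Pool.Agent.Helper56.Mini.Defs
import Pool.Agent.Helper56.Mini.P_ext_homeo
import Pool.Agent.Helper56.Mini.P_psi_compact
import Pool.Agent.Helper56.Mini.P_radf_props

set_option linter.all false

open Set Metric Topology Filter

namespace H56Mini



theorem rad_Psi {M : Type} [MetricSpace M] [CompactSpace M]
    {E : Type} [NormedAddCommGroup E] [NormedSpace ℝ E] [ProperSpace E]
    {F : Type} [NormedAddCommGroup F] [NormedSpace ℝ F] [ProperSpace F]
    {ι : Type} (S : Model M E F ι) (p : ℤ) (q : ℕ) (hq : 0 < q) (r0 : E) (L : ℝ) (hL : 0 < L)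
    (c : ℝ → ℝ) (hc : Continuous c) (h0 : ∀ t, 0 < c t) (h1 : ∀ t, c t ≤ 1)
    (hper : ∀ t, c (t + 1) = c t) :
    ∃ h : M ≃ₜ M, (∀ s t r, h (S.Psi (s, t, r0 + r)) =
        S.Psi (s, t, r0 + radf (c (q * t - p * s)) L ‖r‖ • r)) ∧
      ∀ w, (∀ y, w ≠ S.Psi y) → h w = w := by
  obtain ⟨hcont, hbij, hout, -, -⟩ := radf_props (F := E) L hL
  let K : Set M := {w : M | ∃ s t r, ‖r - r0‖ ≤ 2 * L ∧ w = S.Psi (s, t, r)}
  let h : ℝ × ℝ × E → ℝ × ℝ × E := fun x =>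
    (x.1, x.2.1, r0 + radf (c (q * x.2.1 - p * x.1)) L ‖x.2.2 - r0‖ • (x.2.2 - r0))
  have hper' : ∀ (x : ℝ) (n : ℤ), c (x + n) = c x := by
    intro x n
    have hp : Function.Periodic c 1 := hper
    have := hp.int_mul n x
    simpa using this
  have hcont' : Continuous h := by
    refine Continuous.prodMk continuous_fst (Continuous.prodMk (continuous_fst.comp continuous_snd) ?_)
    refine continuous_const.add ?_
    have h2 : Continuous (fun x : ℝ × ℝ × E => ((c (q * x.2.1 - p * x.1), x.2.2 - r0) : ℝ × E)) := by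
      fun_prop
    exact hcont.comp h2
  have hsurj : Function.Surjective h := by
    rintro ⟨s, t, r⟩
    obtain ⟨x, hx⟩ := (hbij (c (q * t - p * s)) (h0 _) (h1 _)).2 (r - r0)
    refine ⟨(s, t, r0 + x), ?_⟩
    have hx' : radf (c (q * t - p * s)) L ‖x‖ • x = r - r0 := hx
    show ((s, t, r0 + radf (c (q * t - p * s)) L ‖r0 + x - r0‖ • (r0 + x - r0)) : ℝ × ℝ × E) = (s, t, r)
    rw [add_sub_cancel_left, hx', add_sub_cancel]
  have hrel : ∀ x y, S.Psi x = S.Psi y ↔ S.Psi (h x) = S.Psi (h y) := by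
    rintro ⟨s, t, r⟩ ⟨s', t', r'⟩
    show S.Psi (s, t, r) = S.Psi (s', t', r') ↔
      S.Psi (s, t, r0 + radf (c (q * t - p * s)) L ‖r - r0‖ • (r - r0)) =
      S.Psi (s', t', r0 + radf (c (q * t' - p * s')) L ‖r' - r0‖ • (r' - r0))
    rw [S.Psi_eq, S.Psi_eq]
    have hkey : ∀ a b : ℤ, s' = s + a → t' = t + b → c (q * t' - p * s') = c (q * t - p * s) := by
      intro a b ha hb
      have : (q : ℝ) * t' - p * s' = (q * t - p * s) + ((q * b - p * a : ℤ) : ℝ) := by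
        rw [ha, hb]; push_cast; ring
      rw [this, hper']
    constructor
    · rintro ⟨⟨a, ha⟩, ⟨b, hb⟩, hr⟩
      refine ⟨⟨a, ha⟩, ⟨b, hb⟩, ?_⟩
      rw [hkey a b ha hb, hr]
    · rintro ⟨⟨a, ha⟩, ⟨b, hb⟩, hr⟩
      refine ⟨⟨a, ha⟩, ⟨b, hb⟩, ?_⟩
      rw [hkey a b ha hb] at hr
      have h3 := add_left_cancel hr
      have h4 := (hbij (c (q * t - p * s)) (h0 _) (h1 _)).1 h3
      exact sub_left_injective h4
  have hKc : IsClosed K := (psi_compact S r0 (2 * L)).isClosed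
  have hKr : K ⊆ range S.Psi := by
    rintro w ⟨s, t, r, _, rfl⟩
    exact ⟨_, rfl⟩
  have hid : ∀ x, S.Psi x ∉ K → S.Psi (h x) = S.Psi x := by
    rintro ⟨s, t, r⟩ hx
    have h5 : 2 * L ≤ ‖r - r0‖ := by
      by_contra hlt
      exact hx ⟨s, t, r, (not_le.mp hlt).le, rfl⟩
    have h6 := hout (c (q * t - p * s)) (h0 _) (h1 _) (r - r0) h5
    show S.Psi (s, t, r0 + radf (c (q * t - p * s)) L ‖r - r0‖ • (r - r0)) = S.Psi (s, t, r)
    rw [h6, add_sub_cancel]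
  obtain ⟨g, hg1, hg2⟩ := ext_homeo S.Psi S.Psi_cont S.Psi_open h hcont' hsurj hrel K hKc hKr hid
  refine ⟨g, ?_, ?_⟩
  · intro s t r
    have := hg1 (s, t, r0 + r)
    have h7 : h (s, t, r0 + r) = (s, t, r0 + radf (c (q * t - p * s)) L ‖r‖ • r) := by
      show ((s, t, r0 + radf (c (q * t - p * s)) L ‖r0 + r - r0‖ • (r0 + r - r0)) : ℝ × ℝ × E) = _
      rw [add_sub_cancel_left]
    rw [this, h7]
  · intro w hw
    apply hg2
    rintro ⟨s, t, r, _, h8⟩
    exact hw _ h8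

end H56Mini
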