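import Pool.Agent.Helper56.Mini.Defs
import Pool.Agent.Helper56.Mini.P_radf_props
import Pool.Agent.Helper56.Mini.P_rad_Psi

set_option linter.all false

open Set Metric Topology Filter

namespace H56Mini



theorem mov_Psi {M : Type} [MetricSpace M] [CompactSpace M]
    {E : Type} [NormedAddCommGroup E] [NormedSpace ℝ E] [ProperSpace E]
    {F : Type} [NormedAddCommGroup F] [NormedSpace ℝ F] [ProperSpace F]
    {ι : Type} (S : Model M E F ι) (r0 : E) (ε L : ℝ) (hε : 0 < ε) (hεL : ε < L)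
    (K : Set M) (hK : S.Inv K) (hsub : ∀ s t r, ‖r - r0‖ ≤ ε → S.Psi (s, t, r) ∈ K) :
    S.Mov K {w | ∃ s t r, ‖r - r0‖ ≤ L ∧ w = S.Psi (s, t, r)} := by
  intro p q hq _
  have hL : 0 < L := hε.trans hεL
  have hq' : (q : ℝ) ≠ 0 := by
    have : (0 : ℝ) < q := by exact_mod_cast hq
    exact this.ne'
  have hκ0 : 0 < ε / L := div_pos hε hL
  have hκ1 : ε / L < 1 := (div_lt_one hL).mpr hεL
  obtain ⟨c, hc⟩ : ∃ c : ℝ → ℝ, c = fun y => 1 - (1 - ε / L) * Real.sin (Real.pi * y) ^ 2 :=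
    ⟨_, rfl⟩
  have hcc : Continuous c := by
    rw [hc]
    fun_prop
  have hs2 : ∀ y, Real.sin (Real.pi * y) ^ 2 ≤ 1 := fun y => Real.sin_sq_le_one _
  have hc0 : ∀ t, 0 < c t := by
    intro t
    rw [hc]
    have h1 := hs2 t
    show 0 < 1 - (1 - ε / L) * Real.sin (Real.pi * t) ^ 2
    nlinarith
  have hc1 : ∀ t, c t ≤ 1 := by
    intro t
    rw [hc]
    have h1 : 0 ≤ Real.sin (Real.pi * t) ^ 2 := sq_nonneg _
    show 1 - (1 - ε / L) * Real.sin (Real.pi * t) ^ 2 ≤ 1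
    nlinarith
  have hper : ∀ t, c (t + 1) = c t := by
    intro t
    rw [hc]
    show 1 - (1 - ε / L) * Real.sin (Real.pi * (t + 1)) ^ 2 =
      1 - (1 - ε / L) * Real.sin (Real.pi * t) ^ 2
    rw [mul_add, mul_one, Real.sin_add_pi, neg_sq]
  have hcz : c 0 = 1 := by
    rw [hc]
    show 1 - (1 - ε / L) * Real.sin (Real.pi * 0) ^ 2 = 1
    rw [mul_zero, Real.sin_zero]
    ring
  have hch : c (1 / 2) = ε / L := by
    rw [hc]
    show 1 - (1 - ε / L) * Real.sin (Real.pi * (1 / 2)) ^ 2 = ε / L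
    have h1 : Real.pi * (1 / 2) = Real.pi / 2 := by ring
    rw [h1, Real.sin_pi_div_two]
    ring
  obtain ⟨h, hh1, hh2⟩ := rad_Psi S p q hq r0 L hL c hcc hc0 hc1 hper
  obtain ⟨-, -, -, hr4, hr5⟩ := radf_props (F := E) L hL
  have hh1' : ∀ s t r, h (S.Psi (s, t, r)) =
      S.Psi (s, t, r0 + radf (c (q * t - p * s)) L ‖r - r0‖ • (r - r0)) := by
    intro s t r
    have h3 := hh1 s t (r - r0)
    rwa [add_sub_cancel] at h3
  refine ⟨h, ?_, ?_, ?_⟩
  · intro w
    by_cases hw : ∃ y, w = S.Psi y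
    · obtain ⟨⟨s, t, r⟩, rfl⟩ := hw
      rw [S.Psi_R, hh1', hh1', S.Psi_R]
      have h3 : (q : ℝ) * (t + 1 / q) - p * s = (q * t - p * s) + 1 := by
        field_simp
        ring
      rw [h3, hper]
    · have hw2 : ∀ y, w ≠ S.Psi y := fun y hy => hw ⟨y, hy⟩
      have hw3 : ∀ y, S.R (1 / q) w ≠ S.Psi y := by
        rintro ⟨s, t, r⟩ hy
        have h3 : S.R (-(1 / q)) (S.R (1 / q) w) = w := by
          rw [← S.R_add, neg_add_cancel, S.R_zero]
        rw [hy, S.Psi_R] at h3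
        exact hw2 _ h3.symm
      rw [hh2 w hw2, hh2 _ hw3]
  · intro s
    rw [hh1']
    have h3 : (q : ℝ) * ((p / q : ℝ) * s) - p * s = 0 := by
      field_simp
      ring
    rw [h3, hcz, hr5]
    simp
  · intro w hw
    rcases hw with hw | ⟨s, t, r, hr, rfl⟩
    · by_cases hw1 : ∃ y, w = S.Psi y
      · obtain ⟨⟨s, t, r⟩, rfl⟩ := hw1
        refine ⟨p * s / q - t, ?_⟩
        rw [S.Psi_R, hh1']
        have h3 : (q : ℝ) * (t + (p * s / q - t)) - p * s = 0 := by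
          field_simp
          ring
        rw [h3, hcz, hr5]
        have h4 : r0 + (r - r0) = r := by abel
        rw [h4, ← S.Psi_R]
        exact hK _ _ hw
      · have hw2 : ∀ y, w ≠ S.Psi y := fun y hy => hw1 ⟨y, hy⟩
        refine ⟨0, ?_⟩
        rw [S.R_zero, hh2 w hw2]
        exact hw
    · refine ⟨(p * s + 1 / 2) / q - t, ?_⟩
      rw [S.Psi_R, hh1']
      have h3 : (q : ℝ) * (t + ((p * s + 1 / 2) / q - t)) - p * s = 1 / 2 := by
        field_simp
        ring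
      rw [h3, hch, hr4 (ε / L) hκ0 hκ1.le (r - r0) hr]
      apply hsub
      rw [add_sub_cancel_left, norm_smul, Real.norm_eq_abs, abs_of_pos hκ0]
      calc ε / L * ‖r - r0‖ ≤ ε / L * L := mul_le_mul_of_nonneg_left hr hκ0.le
        _ = ε := div_mul_cancel₀ ε hL.ne'

end H56Mini
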