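import Pool.Agent.Helper56.Mini.Defs
import Pool.Agent.Helper56.Mini.P_psi_compact
import Pool.Agent.Helper56.Mini.P_phi_compact
import Pool.Agent.Helper56.Mini.P_mov_Phi
import Pool.Agent.Helper56.Mini.P_mov_Psi
import Pool.Agent.Helper56.Mini.P_close_trans
import Pool.Agent.Helper56.Mini.P_cov_step
import Pool.Agent.Helper56.Mini.P_cov_start
import Pool.Agent.Helper56.Mini.P_geo1
import Pool.Agent.Helper56.Mini.P_geo2
import Pool.Agent.Helper56.Mini.P_geo3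
import Pool.Agent.Helper56.Mini.P_cov_list

set_option linter.all false

open Set Metric Topology Filter

namespace H56Mini



theorem cov_all {M : Type} [MetricSpace M] [CompactSpace M]
    {E : Type} [NormedAddCommGroup E] [NormedSpace ℝ E] [ProperSpace E]
    {F : Type} [NormedAddCommGroup F] [NormedSpace ℝ F] [ProperSpace F]
    {ι : Type} [Finite ι] [Nonempty ι] (S : Model M E F ι) (H : M ≃ₜ M) (p : ℤ) (q : ℕ)
    (ρ : ℝ) (hS : S.State H p q ρ) (U : Set M) (hU : IsOpen U) (hne : U.Nonempty)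
    (ε : ℝ) (hε : 0 < ε) :
    ∃ (H' : M ≃ₜ M) (p' : ℤ) (q' : ℕ), q ≤ q' ∧ S.State H' p' q' ρ ∧
      S.Close H (p / q : ℝ) H' (p' / q' : ℝ) ε ∧ ∀ w, ∃ t, H' (S.R t w) ∈ U := by
  classical
  have hFin : Fintype ι := Fintype.ofFinite ι
  have hInvPhi : ∀ (j : ι) (x0 : F) (L : ℝ),
      S.Inv {w : M | ∃ t x, ‖x - x0‖ ≤ L ∧ w = S.Phi j (t, x)} := by
    rintro j x0 L u w ⟨t, x, hx, rfl⟩
    exact ⟨t + u, x, hx, S.Phi_R j u t x⟩
  have hInvPsi : ∀ (r0 : E) (L : ℝ),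
      S.Inv {w : M | ∃ s t r, ‖r - r0‖ ≤ L ∧ w = S.Psi (s, t, r)} := by
    rintro r0 L u w ⟨s, t, r, hr, rfl⟩
    exact ⟨s, t + u, r, hr, S.Psi_R u s t r⟩
  have hInvUnion : ∀ A B : Set M, S.Inv A → S.Inv B → S.Inv (A ∪ B) := by
    intro A B hA hB u w hw
    rcases hw with hw | hw
    · exact Or.inl (hA u w hw)
    · exact Or.inr (hB u w hw)
  have hε3 : 0 < ε / 3 := by positivity
  -- start
  obtain ⟨j, x0, ε0, hε0, h0⟩ := cov_start S H U hU hne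
  have hK0 := phi_compact S j x0 ε0
  have hI0 := hInvPhi j x0 ε0
  have hC0 : S.Cov H U {w : M | ∃ t x, ‖x - x0‖ ≤ ε0 ∧ w = S.Phi j (t, x)} := by
    rintro w ⟨t, x, hx, rfl⟩
    exact h0 t x hx
  -- step 1
  obtain ⟨r0, ε1, L0, hr0, hε1, hε1', hg1⟩ := geo1 S j x0
  have hL' : ε0 < max L0 (ε0 + 1) := lt_max_of_lt_right (by linarith)
  have hm0 := mov_Phi S j x0 ε0 (max L0 (ε0 + 1)) hε0 hL' _ hI0
    (fun t x hx => ⟨t, x, hx, rfl⟩)
  obtain ⟨H1, p1, q1, hq1, hS1, hcl1, hC1⟩ := cov_step S H p q ρ hS U _ _ hU hK0 hI0 hC0 hm0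
    (ε / 3) hε3
  have hK1 := hK0.union (phi_compact S j x0 (max L0 (ε0 + 1)))
  have hI1 := hInvUnion _ _ hI0 (hInvPhi j x0 (max L0 (ε0 + 1)))
  have hm1 := mov_Psi S r0 ε1 3 hε1 (by linarith) _ hI1
    (by
      intro s t r hr
      obtain ⟨t', x, hx, he⟩ := hg1 s t r hr
      exact Or.inr ⟨t', x, hx.trans (le_max_left _ _), he⟩)
  obtain ⟨H2, p2, q2, hq2, hS2, hcl2, hC2⟩ := cov_step S H1 p1 q1 ρ hS1 U _ _ hU hK1 hI1 hC1 hm1
    (ε / 3) hε3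
  have hK2 := hK1.union (psi_compact S r0 3)
  have hI2 := hInvUnion _ _ hI1 (hInvPsi r0 3)
  have hin : ∀ s t r, ‖r‖ ≤ 1 → S.Psi (s, t, r) ∈
      (({w : M | ∃ t x, ‖x - x0‖ ≤ ε0 ∧ w = S.Phi j (t, x)} ∪
        {w : M | ∃ t x, ‖x - x0‖ ≤ max L0 (ε0 + 1) ∧ w = S.Phi j (t, x)}) ∪
        {w : M | ∃ s t r, ‖r - r0‖ ≤ 3 ∧ w = S.Psi (s, t, r)}) := by
    intro s t r hr
    refine Or.inr ⟨s, t, r, ?_, rfl⟩
    have := norm_sub_le r r0
    linarith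
  -- step 3
  choose x0' ε0' hε0' hg2 using fun j => geo2 S j
  obtain ⟨L, hL⟩ := geo3 S x0'
  obtain ⟨H3, p3, q3, hq3, hS3, hcl3, hC3⟩ := cov_list S U _ hU hK2 hI2 x0' ε0' hε0'
    (by
      intro j t x hx
      obtain ⟨s, t', r, hr, he⟩ := hg2 j t x hx
      rw [he]
      exact hin s t' r hr) L Finset.univ H2 p2 q2 ρ hS2 hC2 (ε / 3) hε3
  refine ⟨H3, p3, q3, hq1.trans (hq2.trans hq3), hS3, ?_, ?_⟩
  · have h1 := close_trans S H H1 H2 _ _ _ _ _ hcl1 hcl2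
    have h2 := close_trans S H H2 H3 _ _ _ _ _ h1 hcl3
    have h3 : ε / 3 + ε / 3 + ε / 3 = ε := by ring
    rwa [h3] at h2
  · intro w
    rcases hL w with ⟨s, t, r, hr, rfl⟩ | ⟨j, t, x, hx, rfl⟩
    · exact hC3 _ (Or.inl (hin s t r hr))
    · exact hC3 _ (Or.inr ⟨j, Finset.mem_univ _, t, x, hx, rfl⟩)

end H56Mini
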