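import Pool.Agent.Helper56.Mini.Defs

set_option linter.all false

open Set Metric Topology Filter

namespace H56Mini



/-- the profile on one period -/
noncomputable def eZg (q : ℝ) (y : ℝ) : ℝ := q / 2 * (min y 1 + max 0 (y - (q - 1)))

theorem eZg_mono (q : ℝ) (hq : 8 ≤ q) : Monotone (eZg q) := by
  intro a b hab
  unfold eZg
  apply mul_le_mul_of_nonneg_left _ (by linarith)
  apply add_le_add
  · exact min_le_min_right _ hab
  · exact max_le_max_left _ (by linarith)

theorem eZg_zero (q : ℝ) (hq : 8 ≤ q) : eZg q 0 = 0 := by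
  unfold eZg
  rw [min_eq_left (by linarith), max_eq_left (by linarith)]
  ring

theorem eZg_q (q : ℝ) (hq : 8 ≤ q) : eZg q q = q := by
  unfold eZg
  rw [min_eq_right (by linarith), max_eq_right (by linarith)]
  ring

theorem eZg_cont (q : ℝ) : Continuous (eZg q) := by
  unfold eZg
  fun_prop

/-- the map -/
noncomputable def eZZ (q : ℝ) (x : ℝ) : ℝ := q * ⌊x / q⌋ + eZg q (q * Int.fract (x / q))

theorem exists_Z (q : ℕ) (hq : 8 ≤ q) : ∃ Z : ℝ → ℝ, IsZ q Z := by
  have hq' : (8 : ℝ) ≤ (q : ℝ) := by exact_mod_cast hq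
  have hq0 : (0 : ℝ) < (q : ℝ) := by linarith
  have hdec : ∀ x : ℝ, x = q * ⌊x / (q : ℝ)⌋ + q * Int.fract (x / q) := by
    intro x
    have h1 := Int.floor_add_fract (x / (q : ℝ))
    have h2 : x = q * (x / q) := by field_simp
    calc x = q * (x / q) := h2
      _ = q * ((⌊x / (q : ℝ)⌋ : ℝ) + Int.fract (x / q)) := by rw [h1]
      _ = _ := by ring
  have hval : ∀ (n : ℤ) (y : ℝ), 0 ≤ y → y < q → eZZ q (q * n + y) = q * n + eZg q y := by
    intro n y h0 h1
    have h2 : (q * n + y) / (q : ℝ) = y / q + (n : ℝ) := by field_simp; ring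
    have h3 : Int.fract (y / (q : ℝ)) = y / q :=
      Int.fract_eq_self.2 ⟨by positivity, (div_lt_one hq0).2 h1⟩
    have h4 : ⌊y / (q : ℝ)⌋ = 0 := Int.floor_eq_zero_iff.2 ⟨by positivity, (div_lt_one hq0).2 h1⟩
    unfold eZZ
    rw [h2, Int.floor_add_intCast, Int.fract_add_intCast, h3, h4]
    rw [show (q : ℝ) * (y / q) = y by field_simp]
    push_cast
    ring
  refine ⟨eZZ q, ?_, ?_, ?_, ?_, ?_⟩
  · have h1 : Continuous ((fun u : ℝ => eZg q (q * u) - q * u) ∘ Int.fract) := by
      apply ContinuousOn.comp_fract''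
      · apply Continuous.continuousOn
        exact ((eZg_cont q).comp (continuous_const.mul continuous_id)).sub
          (continuous_const.mul continuous_id)
      · rw [mul_zero, mul_one, eZg_zero q hq', eZg_q q hq']
        ring
    have h2 : Continuous (fun x : ℝ => x / (q : ℝ)) := continuous_id.div_const _
    have h3 := continuous_id.add (h1.comp h2)
    refine h3.congr ?_
    intro x
    have h4 := hdec x
    simp only [Function.comp, Pi.add_apply, id, eZZ]
    linarith
  · intro x y hxy
    unfold eZZ
    have hx0 := Int.fract_nonneg (x / (q : ℝ))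
    have hx1 := (Int.fract_lt_one (x / (q : ℝ))).le
    have hy0 := Int.fract_nonneg (y / (q : ℝ))
    rcases (Int.floor_mono (div_le_div_of_nonneg_right hxy hq0.le)).eq_or_lt with h | h
    · have h1 : q * Int.fract (x / (q : ℝ)) ≤ q * Int.fract (y / (q : ℝ)) := by
        have hx := hdec x
        have hy := hdec y
        rw [h] at hx
        linarith
      rw [h]
      exact add_le_add_right (eZg_mono q hq' h1) _
    · have h1 : eZg q (q * Int.fract (x / (q : ℝ))) ≤ q := by
        calc eZg q (q * Int.fract (x / (q : ℝ))) ≤ eZg q q := by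
              apply eZg_mono q hq'
              nlinarith
          _ = q := eZg_q q hq'
      have h2 : 0 ≤ eZg q (q * Int.fract (y / (q : ℝ))) := by
        calc 0 = eZg q 0 := (eZg_zero q hq').symm
          _ ≤ _ := by
              apply eZg_mono q hq'
              positivity
      have h3 : ((⌊x / (q : ℝ)⌋ : ℝ)) + 1 ≤ (⌊y / (q : ℝ)⌋ : ℝ) := by exact_mod_cast h
      nlinarith
  · intro x
    have h2 : (x + q) / (q : ℝ) = x / q + 1 := by field_simp
    unfold eZZ
    rw [h2, Int.floor_add_one, Int.fract_add_one]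
    push_cast
    ring
  · intro x h1' h2'
    have h1 : (1 : ℝ) ≤ x := by exact_mod_cast h1'
    have h2 : (x : ℝ) ≤ q - 1 := by
      have h5 : x + 1 ≤ q := by omega
      have h6 : ((x + 1 : ℕ) : ℝ) ≤ (q : ℝ) := by exact_mod_cast h5
      push_cast at h6
      linarith
    have h3 := hval 0 x (by linarith) (by linarith)
    simp only [Int.cast_zero, mul_zero, zero_add] at h3
    rw [h3, eZg, min_eq_right h1, max_eq_left (by linarith)]
    ring
  · intro x hx
    rw [abs_le] at hx
    rcases le_or_gt 0 x with h0 | h0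
    · have h3 := hval 0 x h0 (by linarith)
      simp only [Int.cast_zero, mul_zero, zero_add] at h3
      rw [h3, eZg, min_eq_left hx.2, max_eq_left (by linarith)]
      ring
    · have h3 := hval (-1) (x + q) (by linarith) (by linarith)
      have h4 : (q : ℝ) * ((-1 : ℤ) : ℝ) + (x + q) = x := by push_cast; ring
      rw [h4] at h3
      rw [h3, eZg, min_eq_right (by linarith), max_eq_right (by linarith)]
      push_cast
      ring

end H56Mini
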