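import Pool.Agent.Helper56.Mini.Defs

set_option linter.all false

open Set Metric Topology Filter

namespace H56Mini



theorem exists_hat_cont : Continuous (fun t : ℝ => |t - round t|) := by
  have h : (fun t : ℝ => |t - round t|) = fun t : ℝ => ‖(t : UnitAddCircle)‖ := by
    funext t
    rw [UnitAddCircle.norm_eq]
  rw [h]
  exact continuous_norm.comp (AddCircle.continuous_mk' 1)

theorem exists_hat (η : ℝ) (hη : 0 < η) (hη2 : η < 1 / 8) :
    ∃ B : ℝ → ℝ, Continuous B ∧ (∀ τ, B (τ + 1) = B τ) ∧ (∀ τ, 0 ≤ B τ) ∧ (∀ τ, B τ ≤ 1) ∧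
      B 0 = 1 ∧ (∀ τ : ℝ, η ≤ |τ - round τ| → B τ = 0) ∧ 0 ≤ (∫ x in (0:ℝ)..1, B x) ∧
      (∫ x in (0:ℝ)..1, B x) ≤ 2 * η := by
  have hB0 : ∀ τ : ℝ, η ≤ |τ - round τ| → max 0 (1 - |τ - round τ| / η) = 0 := by
    intro τ h
    apply max_eq_left
    have : 1 ≤ |τ - round τ| / η := (one_le_div hη).2 h
    linarith
  have hBnn : ∀ τ : ℝ, 0 ≤ max 0 (1 - |τ - round τ| / η) := fun τ => le_max_left _ _
  have hB1 : ∀ τ : ℝ, max 0 (1 - |τ - round τ| / η) ≤ 1 := by
    intro τ
    apply max_le zero_le_one
    have : 0 ≤ |τ - round τ| / η := div_nonneg (abs_nonneg _) hη.le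
    linarith
  have hcont : Continuous (fun t : ℝ => max 0 (1 - |t - round t| / η)) :=
    continuous_const.max (continuous_const.sub (exists_hat_cont.div_const η))
  refine ⟨fun t => max 0 (1 - |t - round t| / η), hcont, ?_, hBnn, hB1, ?_, hB0, ?_, ?_⟩
  · intro τ
    have h : |τ + 1 - round (τ + 1)| = |τ - round τ| := by
      rw [round_add_one]
      push_cast
      congr 1
      ring
    simp only [h]
  · simp
  · exact intervalIntegral.integral_nonneg zero_le_one (fun t _ => hBnn t)
  · have hi : ∀ a b : ℝ, IntervalIntegrable (fun t : ℝ => max 0 (1 - |t - round t| / η))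
        MeasureTheory.volume a b := fun a b => hcont.intervalIntegrable a b
    rw [← intervalIntegral.integral_add_adjacent_intervals (hi 0 η) (hi η 1),
      ← intervalIntegral.integral_add_adjacent_intervals (hi η (1 - η)) (hi (1 - η) 1)]
    have h1 : (∫ t in (0:ℝ)..η, max 0 (1 - |t - round t| / η)) ≤ η := by
      calc (∫ t in (0:ℝ)..η, max 0 (1 - |t - round t| / η)) ≤ ∫ _t in (0:ℝ)..η, (1:ℝ) :=
            intervalIntegral.integral_mono_on hη.le (hi _ _)
              (continuous_const.intervalIntegrable _ _) (fun t _ => hB1 t)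
        _ = η := by simp
    have h3 : (∫ t in (1 - η)..1, max 0 (1 - |t - round t| / η)) ≤ η := by
      calc (∫ t in (1 - η)..1, max 0 (1 - |t - round t| / η)) ≤ ∫ _t in (1 - η)..1, (1:ℝ) :=
            intervalIntegral.integral_mono_on (by linarith) (hi _ _)
              (continuous_const.intervalIntegrable _ _) (fun t _ => hB1 t)
        _ = η := by simp
    have h2 : (∫ t in η..(1 - η), max 0 (1 - |t - round t| / η)) = 0 := by
      have h4 : (∫ t in η..(1 - η), max 0 (1 - |t - round t| / η)) =
          ∫ _t in η..(1 - η), (0:ℝ) := by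
        apply intervalIntegral.integral_congr
        intro t ht
        rw [Set.uIcc_of_le (by linarith)] at ht
        apply hB0
        have hf : Int.fract t = t := Int.fract_eq_self.2 ⟨by linarith [ht.1], by linarith [ht.2]⟩
        rw [abs_sub_round_eq_min, hf]
        exact le_min ht.1 (by linarith [ht.2])
      rw [h4]
      simp
    linarith

end H56Mini
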