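import Pool.Agent.Helper56.Mini.Defs

set_option linter.all false

open Set Metric Topology Filter

namespace H56Mini



theorem exists_prim_uc (B : ℝ → ℝ) (hB : Continuous B) (hper : ∀ τ, B (τ + 1) = B τ) (ε : ℝ)
    (hε : 0 < ε) : ∃ δ : ℝ, 0 < δ ∧ ∀ x y, |x - y| < δ → |B x - B y| < ε := by
  have hP : Function.Periodic B 1 := hper
  have hc : UniformContinuousOn B (Icc (-1) 2) :=
    isCompact_Icc.uniformContinuousOn_of_continuous hB.continuousOn
  obtain ⟨δ, hδ, h⟩ := Metric.uniformContinuousOn_iff.1 hc ε hε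
  refine ⟨min δ 1, lt_min hδ one_pos, ?_⟩
  intro x y hxy
  have h1 : |x - y| < δ := lt_of_lt_of_le hxy (min_le_left _ _)
  have h2 : |x - y| < 1 := lt_of_lt_of_le hxy (min_le_right _ _)
  have hx : B x = B (x - ⌊y⌋) := by
    have := (hP.int_mul ⌊y⌋) (x - ⌊y⌋)
    rw [mul_one, sub_add_cancel] at this
    exact this
  have hy : B y = B (y - ⌊y⌋) := by
    have := (hP.int_mul ⌊y⌋) (y - ⌊y⌋)
    rw [mul_one, sub_add_cancel] at this
    exact this
  have h3 := Int.floor_le y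
  have h4 := Int.lt_floor_add_one y
  have h5 := abs_lt.1 h2
  rw [hx, hy, ← Real.dist_eq]
  apply h
  · constructor <;> linarith [h5.1, h5.2]
  · constructor <;> linarith
  · rw [Real.dist_eq]
    have : x - ⌊y⌋ - (y - ⌊y⌋) = x - y := by ring
    rw [this]
    exact h1

theorem exists_prim_est (B : ℝ → ℝ) (hB : Continuous B) (a b c ε : ℝ)
    (h : ∀ x ∈ uIoc a b, |B x - c| ≤ ε) : |(∫ x in a..b, B x) - c * (b - a)| ≤ ε * |b - a| := by
  have h1 : (∫ x in a..b, B x) - c * (b - a) = ∫ x in a..b, (B x - c) := by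
    rw [intervalIntegral.integral_sub (hB.intervalIntegrable _ _) (by simp)]
    simp [mul_comm]
  have h' : ∀ x ∈ uIoc a b, ‖B x - c‖ ≤ ε := h
  rw [h1]
  exact intervalIntegral.norm_integral_le_of_norm_le_const h'

theorem exists_prim (B : ℝ → ℝ) (hB : Continuous B) (hper : ∀ τ, B (τ + 1) = B τ)
    (hmean : ∫ x in (0:ℝ)..1, B x = 0) :
    ∃ P : ℝ → ℝ, Continuous P ∧ (∀ τ, P (τ + 1) = P τ) ∧ P 0 = 0 ∧
      (∀ ε : ℝ, 0 < ε → ∃ N0 : ℕ, ∀ N : ℕ, N0 ≤ N → 0 < N → ∀ τ,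
        |N * (P (τ + 1 / N) - P τ) - B τ| < ε) ∧
      (∀ ε : ℝ, 0 < ε → ∃ δ : ℝ, 0 < δ ∧ ∀ τ, |τ| < δ → |P τ - B 0 * τ| ≤ ε * |τ|) := by
  have hint : ∀ a b : ℝ, IntervalIntegrable B MeasureTheory.volume a b :=
    fun a b => hB.intervalIntegrable a b
  have hsub : ∀ a b : ℝ, (∫ x in (0:ℝ)..b, B x) - ∫ x in (0:ℝ)..a, B x = ∫ x in a..b, B x :=
    fun a b => intervalIntegral.integral_interval_sub_left (hint _ _) (hint _ _)
  refine ⟨fun t => ∫ x in (0:ℝ)..t, B x, intervalIntegral.continuous_primitive hint 0, ?_, ?_, ?_, ?_⟩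
  · intro τ
    have hP : Function.Periodic B 1 := hper
    have h1 := hP.intervalIntegral_add_eq τ 0
    rw [zero_add, hmean] at h1
    have h2 := hsub τ (τ + 1)
    rw [h1] at h2
    beta_reduce
    linarith
  · simp
  · intro ε hε
    obtain ⟨δ, hδ, h⟩ := exists_prim_uc B hB hper (ε / 2) (by linarith)
    obtain ⟨N0, hN0⟩ := exists_nat_gt (1 / δ)
    refine ⟨N0, fun N hN hN1 τ => ?_⟩
    have hNr : (0:ℝ) < (N:ℝ) := by exact_mod_cast hN1
    have hN2 : 1 / (N:ℝ) < δ := by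
      have : (N0:ℝ) ≤ (N:ℝ) := by exact_mod_cast hN
      rw [div_lt_iff₀ hNr]
      rw [div_lt_iff₀ hδ] at hN0
      nlinarith
    have hpos : 0 < 1 / (N:ℝ) := by positivity
    have h2 := exists_prim_est B hB τ (τ + 1 / N) (B τ) (ε / 2) (by
      intro x hx
      rw [uIoc_of_le (by linarith)] at hx
      apply (h x τ _).le
      rw [abs_of_pos (by linarith [hx.1])]
      linarith [hx.2])
    rw [← hsub, add_sub_cancel_left, abs_of_pos hpos] at h2
    beta_reduce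
    have h3 : (N:ℝ) * ((∫ x in (0:ℝ)..(τ + 1 / N), B x) - ∫ x in (0:ℝ)..τ, B x) - B τ =
        N * (((∫ x in (0:ℝ)..(τ + 1 / N), B x) - ∫ x in (0:ℝ)..τ, B x) - B τ * (1 / N)) := by
      field_simp
    rw [h3, abs_mul, abs_of_pos hNr]
    calc (N:ℝ) * |((∫ x in (0:ℝ)..(τ + 1 / N), B x) - ∫ x in (0:ℝ)..τ, B x) - B τ * (1 / N)|
        ≤ N * (ε / 2 * (1 / N)) := mul_le_mul_of_nonneg_left h2 hNr.le
      _ = ε / 2 := by field_simp
      _ < ε := by linarith
  · intro ε hε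
    obtain ⟨δ, hδ, h⟩ := exists_prim_uc B hB hper ε hε
    refine ⟨δ, hδ, fun τ hτ => ?_⟩
    have h2 := exists_prim_est B hB 0 τ (B 0) ε (by
      intro x hx
      apply (h x 0 _).le
      rw [sub_zero]
      have h3 : x ∈ uIcc 0 τ := uIoc_subset_uIcc hx
      have h4 := abs_sub_left_of_mem_uIcc h3
      simp only [sub_zero] at h4
      linarith)
    simpa using h2

end H56Mini
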