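import Pool.Agent.Helper56.Mini.Defs
import Pool.Agent.Helper56.Mini.P_exists_prim
import Pool.Agent.Helper56.Mini.P_exists_hat

set_option linter.all false

open Set Metric Topology Filter

namespace H56Mini



theorem exists_data {E : Type} [NormedAddCommGroup E] [NormedSpace ℝ E] (η ω0 : ℝ) (hη : 0 < η)
    (hη2 : η < 1 / 8) (h0 : 0 < ω0) (h1 : ω0 < 1) :
    ∃ ω ψ : ℝ → E → ℝ, IsData η ω0 ω ψ := by
  obtain ⟨B, hBc, hBp, hB0, hB1, hBzero, hBz, hm0, hm1⟩ := exists_hat η hη hη2
  set m : ℝ := ∫ x in (0:ℝ)..1, B x with hm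
  have hmlt : m < 1 / 4 := by linarith
  have hM : 0 < 1 - m := by linarith
  have hM34 : 3 / 4 < 1 - m := by linarith
  obtain ⟨P, hPc, hPp, hP0, hP1, hP2⟩ := exists_prim (fun τ => B τ - m)
    (hBc.sub continuous_const) (fun τ => by simp only [hBp]) (by
      rw [intervalIntegral.integral_sub (hBc.intervalIntegrable _ _)
        (continuous_const.intervalIntegrable _ _)]
      simp [← hm])
  set b : E → ℝ := fun r => max 0 (1 - ‖r‖ / η) with hb
  have hbc : Continuous b := by
    simp only [hb]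
    exact continuous_const.max (continuous_const.sub (continuous_norm.div_const _))
  have hbn : ∀ r, 0 ≤ b r := fun r => le_max_left _ _
  have hb1 : ∀ r, b r ≤ 1 := fun r => by
    simp only [hb]
    apply max_le zero_le_one
    have : 0 ≤ ‖r‖ / η := by positivity
    linarith
  have hb0 : b 0 = 1 := by simp [hb]
  have hbz : ∀ r : E, η ≤ ‖r‖ → b r = 0 := fun r hr => by
    simp only [hb]
    apply max_eq_left
    have : 1 ≤ ‖r‖ / η := by rw [le_div_iff₀ hη]; linarith
    linarith
  set k : ℝ := (1 - ω0) / (1 - m) with hk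
  have hk0 : 0 < k := div_pos (by linarith) hM
  have hk2 : k ≤ 4 / 3 := by
    rw [hk, div_le_iff₀ hM]; nlinarith
  have hkM : k * (1 - m) = 1 - ω0 := by rw [hk]; field_simp
  have hkb0 : ∀ r, 0 ≤ k * b r := fun r => mul_nonneg hk0.le (hbn r)
  have hkb1 : ∀ r, k * b r ≤ k := fun r => by
    have := mul_le_mul_of_nonneg_left (hb1 r) hk0.le
    linarith
  refine ⟨fun τ r => 1 - k * b r * (B τ - m), fun τ r => -(k * b r * P τ), ?_, ?_, ?_, ?_, ?_,
    ?_, ?_, ?_, ?_, ?_, ?_, ?_⟩
  · have h1 : Continuous fun y : ℝ × E => b y.2 := hbc.comp continuous_snd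
    have h2 : Continuous fun y : ℝ × E => B y.1 := hBc.comp continuous_fst
    exact continuous_const.sub ((continuous_const.mul h1).mul (h2.sub continuous_const))
  · have h1 : Continuous fun y : ℝ × E => b y.2 := hbc.comp continuous_snd
    have h2 : Continuous fun y : ℝ × E => P y.1 := hPc.comp continuous_fst
    exact ((continuous_const.mul h1).mul h2).neg
  · intro τ r; simp only [hBp]
  · intro τ r; simp only [hPp]
  · intro τ r
    have h3 : k * b r * (B τ - m) ≤ 1 - ω0 := by
      rcases le_total 0 (B τ - m) with h | h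
      · calc k * b r * (B τ - m) ≤ k * (B τ - m) := mul_le_mul_of_nonneg_right (hkb1 r) h
          _ ≤ k * (1 - m) := mul_le_mul_of_nonneg_left (by linarith [hB1 τ]) hk0.le
          _ = 1 - ω0 := hkM
      · have := mul_nonpos_of_nonneg_of_nonpos (hkb0 r) h
        linarith
    show ω0 ≤ 1 - k * b r * (B τ - m)
    linarith
  · intro τ r
    have h3 : -(4 * η) ≤ k * b r * (B τ - m) := by
      have h4 : -m ≤ B τ - m := by linarith [hB0 τ]
      have h5 : k * b r * (-m) ≤ k * b r * (B τ - m) := mul_le_mul_of_nonneg_left h4 (hkb0 r)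
      have h6 : k * b r * m ≤ 4 / 3 * (2 * η) :=
        mul_le_mul (le_trans (hkb1 r) hk2) hm1 hm0 (by norm_num)
      nlinarith
    show 1 - k * b r * (B τ - m) ≤ 1 + 4 * η
    linarith
  · intro τ r hτ
    have h3 : B τ = 0 := by
      first
        | exact hBz τ hτ
        | (exfalso
           have h9 : round τ = τ := by simpa using round_intCast (α := ℤ) τ
           rw [h9] at hτ
           simp at hτ
           linarith)
    have h4 : 0 ≤ k * b r * m := mul_nonneg (hkb0 r) hm0
    show 1 ≤ 1 - k * b r * (B τ - m)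
    rw [h3]; linarith
  · intro τ r hr
    simp [hbz r hr]
  · show 1 - k * b 0 * (B 0 - m) = ω0
    rw [hb0, hBzero]; linarith [hkM]
  · show -(k * b 0 * P 0) = 0
    rw [hP0]; ring
  · intro ε hε
    obtain ⟨N0, hN0⟩ := hP1 (ε / 2) (by linarith)
    refine ⟨N0, fun N hN hN1 τ r => ?_⟩
    have h3 := hN0 N hN hN1 τ
    have h4 : (N:ℝ) * (-(k * b r * P (τ + 1 / N)) - -(k * b r * P τ)) -
        (1 - k * b r * (B τ - m) - 1) =
        -(k * b r) * (N * (P (τ + 1 / N) - P τ) - (B τ - m)) := by ring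
    show |(N:ℝ) * (-(k * b r * P (τ + 1 / N)) - -(k * b r * P τ)) -
        (1 - k * b r * (B τ - m) - 1)| < ε
    rw [h4, abs_mul, abs_neg, abs_of_nonneg (hkb0 r)]
    have h5 : k * b r ≤ 4 / 3 := le_trans (hkb1 r) hk2
    have h6 := abs_nonneg ((N:ℝ) * (P (τ + 1 / N) - P τ) - (B τ - m))
    nlinarith
  · intro ε hε
    obtain ⟨δ, hδ, hd⟩ := hP2 (ε / 2) (by linarith)
    refine ⟨δ, hδ, fun τ hτ => ?_⟩
    have h3 := hd τ hτ
    simp only [hBzero] at h3
    have h4 : -(k * b 0 * P τ) - (ω0 - 1) * τ = -k * (P τ - (1 - m) * τ) := by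
      rw [hb0]; have := hkM; linear_combination (-τ) * hkM
    show |-(k * b 0 * P τ) - (ω0 - 1) * τ| ≤ ε * |τ|
    rw [h4, abs_mul, abs_neg, abs_of_pos hk0]
    have h6 := abs_nonneg τ
    have h7 := abs_nonneg (P τ - (1 - m) * τ)
    nlinarith

end H56Mini
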