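import Pool.Agent.Helper56.Mini.Defs

set_option linter.all false

open Set Metric Topology Filter

namespace H56Mini



theorem init_state {M : Type} [MetricSpace M] [CompactSpace M]
    {E : Type} [NormedAddCommGroup E] [NormedSpace ℝ E] [ProperSpace E]
    {F : Type} [NormedAddCommGroup F] [NormedSpace ℝ F] [ProperSpace F]
    {ι : Type} (S : Model M E F ι) :
    ∃ ρ : ℝ, S.State (Homeomorph.refl M) 1 8 ρ := by
  have hb : Bornology.IsBounded (Set.univ : Set M) := isCompact_univ.isBounded
  refine ⟨Metric.diam (Set.univ : Set M) + 1, isCoprime_one_left, le_refl _, rfl, ?_, ?_⟩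
  · have := Metric.diam_nonneg (s := (Set.univ : Set M))
    linarith
  · intro x _
    have := Metric.dist_le_diam_of_mem hb (Set.mem_univ ((Homeomorph.refl M) (S.Psi (x, ((1:ℤ) / (8:ℕ) : ℝ) * x, 0)))) (Set.mem_univ S.pt)
    linarith

end H56Mini
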