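import Pool.Agent.Helper56.Mini.Defs
import Pool.Agent.Helper56.Mini.P_V_eq

set_option linter.all false

open Set Metric Topology Filter

namespace H56Mini



section pathaux
variable {M : Type} [MetricSpace M] [CompactSpace M]
    {E : Type} [NormedAddCommGroup E] [NormedSpace ℝ E] [ProperSpace E]
    {F : Type} [NormedAddCommGroup F] [NormedSpace ℝ F] [ProperSpace F]
    {ι : Type}

theorem pa_R_V (S : Model M E F ι) (p : ℤ) (q : ℕ) (hq : 0 < q) (x τ : ℝ) (r : E) (l : ℤ) :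
    S.R (l * (p / q : ℝ)) (S.V p q x τ r) = S.V p q (x + l) τ r := by
  have hq' : (q : ℝ) ≠ 0 := by exact_mod_cast hq.ne'
  unfold Model.V
  rw [S.Psi_R, S.Psi_eq]
  refine ⟨⟨l, rfl⟩, ⟨0, ?_⟩, rfl⟩
  push_cast
  field_simp
  ring

theorem pa_V_shift (S : Model M E F ι) (p : ℤ) (q : ℕ) (hq : 0 < q) (x τ : ℝ) (r : E) (n : ℤ) :
    S.V p q (x + q * n) τ r = S.V p q x τ r := by
  have hq' : (q : ℝ) ≠ 0 := by exact_mod_cast hq.ne'
  unfold Model.V
  rw [S.Psi_eq]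
  refine ⟨⟨-(q * n), ?_⟩, ⟨-(p * n), ?_⟩, rfl⟩
  · push_cast
    ring
  · push_cast
    field_simp
    ring

theorem pa_R_nat (S : Model M E F ι) (n : ℕ) (w : M) : S.R n w = w := by
  induction n with
  | zero => simp [S.R_zero]
  | succ n ih => push_cast; rw [S.R_add, S.R_one, ih]

theorem pa_R_int (S : Model M E F ι) (n : ℤ) (w : M) : S.R n w = w := by
  cases n with
  | ofNat n => simpa using pa_R_nat S n w
  | negSucc n =>
    have h1 : S.R ((Int.negSucc n : ℤ) : ℝ) (S.R ((n + 1 : ℕ) : ℝ) w) = w := by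
      rw [← S.R_add]
      have : ((Int.negSucc n : ℤ) : ℝ) + ((n + 1 : ℕ) : ℝ) = 0 := by
        rw [Int.cast_negSucc]; ring
      rw [this, S.R_zero]
    rwa [pa_R_nat] at h1

end pathaux

theorem path {M : Type} [MetricSpace M] [CompactSpace M]
    {E : Type} [NormedAddCommGroup E] [NormedSpace ℝ E] [ProperSpace E]
    {F : Type} [NormedAddCommGroup F] [NormedSpace ℝ F] [ProperSpace F]
    {ι : Type} (S : Model M E F ι) (H : M ≃ₜ M) (p : ℤ) (q : ℕ) (hq : 8 ≤ q)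
    (hpq : IsCoprime p (q : ℤ)) (U : Set M) (hrv : S.RV H p q U) (η : ℝ) (hη : 0 < η)
    (hη2 : η < 1 / 8) (w : M) (hw : w ∉ S.box p q (5 / 2) (2 * η)) :
    ∃ k : ℤ, H (S.R (k * (p / q : ℝ)) w) ∈ U ∧
      ∀ l : ℤ, ((0 ≤ l ∧ l ≤ k) ∨ (k ≤ l ∧ l ≤ 0)) →
        S.R (l * (p / q : ℝ)) w ∉ S.cbox p q 2 η := by
  have hq0 : 0 < q := by omega
  have hqR : (8 : ℝ) ≤ q := by exact_mod_cast hq
  obtain ⟨s, hs6, hs⟩ := hrv w
  by_cases hcase : ∀ l : ℤ, S.R (l * (p / q : ℝ)) w ∉ S.cbox p q 2 η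
  · have hne : s.Nonempty := by
      rw [← Finset.card_pos]; omega
    obtain ⟨k, hk⟩ := hne
    exact ⟨k, (hs k hk).2.2, fun l _ => hcase l⟩
  push Not at hcase
  obtain ⟨l0, x0, τ, r, hx0, hτ, hr, hV0⟩ := hcase
  -- `w` in coordinates
  have hw0 : w = S.V p q (x0 - l0) τ r := by
    have h1 : S.R (((-l0 : ℤ) : ℝ) * (p / q : ℝ)) (S.R (l0 * (p / q : ℝ)) w) = w := by
      rw [← S.R_add]
      have : ((-l0 : ℤ) : ℝ) * (p / q : ℝ) + l0 * (p / q : ℝ) = 0 := by push_cast; ring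
      rw [this, S.R_zero]
    rw [hV0, pa_R_V S p q hq0] at h1
    rw [← h1]
    congr 1
    push_cast
    ring
  obtain ⟨x, hx1, hx2, hwx⟩ : ∃ x : ℝ, 0 ≤ x ∧ x < q ∧ w = S.V p q x τ r := by
    have hqp : (0 : ℝ) < q := by linarith
    refine ⟨x0 - l0 + q * ((-⌊(x0 - l0) / q⌋ : ℤ) : ℝ), ?_, ?_, ?_⟩
    · have := Int.floor_le ((x0 - l0) / (q : ℝ))
      rw [le_div_iff₀ hqp] at this
      push_cast
      linarith
    · have := Int.lt_floor_add_one ((x0 - l0) / (q : ℝ))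
      rw [div_lt_iff₀ hqp] at this
      push_cast
      linarith
    · rw [pa_V_shift S p q hq0]
      exact hw0
  have hxlo : 5 / 2 ≤ x := by
    by_contra hcon
    push Not at hcon
    exact hw ⟨x, τ, r, by rw [abs_lt]; constructor <;> linarith, by linarith, by linarith, hwx⟩
  have hxhi : x ≤ q - 5 / 2 := by
    by_contra hcon
    push Not at hcon
    refine hw ⟨x + q * ((-1 : ℤ) : ℝ), τ, r, ?_, by linarith, by linarith, ?_⟩
    · rw [abs_lt]; push_cast; constructor <;> linarith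
    · rw [pa_V_shift S p q hq0]
      exact hwx
  have hbad : ∀ l : ℤ, 2 < x + l → x + l < q - 2 → S.R (l * (p / q : ℝ)) w ∉ S.cbox p q 2 η := by
    rintro l h1 h2 ⟨x', τ', r', hx', hτ', hr', hV'⟩
    rw [hwx, pa_R_V S p q hq0] at hV'
    obtain ⟨⟨n, hn⟩, -, -⟩ := (V_eq S p q hq0 hpq _ _ _ _ _ _ (by linarith) (by linarith)).1 hV'
    rw [hn, abs_le] at hx'
    rcases le_or_gt 0 n with hn0 | hn0
    · have hn0' : (0 : ℝ) ≤ n := by exact_mod_cast hn0
      have : 0 ≤ (q : ℝ) * n := by positivity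
      linarith [hx'.2]
    · have hn0' : (n : ℝ) ≤ -1 := by exact_mod_cast (by omega : n ≤ -1)
      have : (q : ℝ) * n ≤ q * (-1) := by
        apply mul_le_mul_of_nonneg_left hn0' (by linarith)
      linarith [hx'.1]
  -- choose `k`
  obtain ⟨k, hk, hk'⟩ : ∃ k ∈ s, k ∉ Finset.Icc ⌈(q : ℝ) - 2 - x⌉ ⌊(q : ℝ) + 2 - x⌋ := by
    by_contra hcon
    push Not at hcon
    have hsub : s ⊆ Finset.Icc ⌈(q : ℝ) - 2 - x⌉ ⌊(q : ℝ) + 2 - x⌋ := fun k hk => hcon k hk
    have hc := Finset.card_le_card hsub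
    rw [Int.card_Icc] at hc
    have h1 := Int.floor_le ((q : ℝ) + 2 - x)
    have h2 := Int.le_ceil ((q : ℝ) - 2 - x)
    have h3 : ((⌊(q : ℝ) + 2 - x⌋ + 1 - ⌈(q : ℝ) - 2 - x⌉ : ℤ) : ℝ) ≤ ((5 : ℤ) : ℝ) := by
      push_cast
      linarith
    have h4 := Int.cast_le.1 h3
    omega
  obtain ⟨hk0, hkq, hkU⟩ := hs k hk
  rw [Finset.mem_Icc, not_and_or, not_le, not_le] at hk'
  rcases hk' with hk' | hk'
  · rw [Int.lt_ceil] at hk'
    refine ⟨k, hkU, fun l hl => ?_⟩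
    have hl' : 0 ≤ l ∧ l ≤ k := by omega
    have h1 : (0 : ℝ) ≤ l := by exact_mod_cast hl'.1
    have h2 : (l : ℝ) ≤ k := by exact_mod_cast hl'.2
    exact hbad l (by linarith) (by linarith)
  · rw [Int.floor_lt] at hk'
    refine ⟨k - q, ?_, fun l hl => ?_⟩
    · have e : (((k - q : ℤ) : ℝ)) * (p / q : ℝ) = k * (p / q : ℝ) + ((-p : ℤ) : ℝ) := by
        have hq' : (q : ℝ) ≠ 0 := by linarith
        push_cast
        field_simp
        ring
      rw [e, S.R_add, pa_R_int]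
      exact hkU
    · have hl' : k - q ≤ l ∧ l ≤ 0 := by omega
      have h1 : ((k - q : ℤ) : ℝ) ≤ l := by exact_mod_cast hl'.1
      have h2 : (l : ℝ) ≤ 0 := by exact_mod_cast hl'.2
      push_cast at h1
      exact hbad l (by linarith) (by linarith)

end H56Mini
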