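import Pool.Agent.Helper56.Mini.Defs

set_option linter.all false

open Set Metric Topology Filter

namespace H56Mini



theorem shadow_aux {M : Type} [MetricSpace M] (φ : M → M) (hφ : Continuous φ) (A U : Set M)
    (hA : IsClosed A) (hU : IsOpen U) (k : ℕ) : ∀ x : M, φ^[k] x ∈ U →
      (∀ l : ℕ, l ≤ k → φ^[l] x ∉ A) →
      ∃ δ : ℝ, 0 < δ ∧ ∃ N ∈ 𝓝 x, ∀ γ : M → M, (∀ y, y ∉ A → dist (γ y) (φ y) < δ) →
        ∀ y ∈ N, γ^[k] y ∈ U := by
  induction k with
  | zero =>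
    intro x hx _
    exact ⟨1, one_pos, U, hU.mem_nhds hx, fun γ _ y hy => hy⟩
  | succ k ih =>
    intro x hx hl
    obtain ⟨δ', hδ', N', hN', h'⟩ := ih (φ x) (by simpa [Function.iterate_succ_apply] using hx)
      (fun l hlk => by
        have := hl (l + 1) (by omega)
        simpa [Function.iterate_succ_apply] using this)
    obtain ⟨r, hr, hrN⟩ := Metric.mem_nhds_iff.1 hN'
    refine ⟨min δ' (r / 2), lt_min hδ' (by positivity), Aᶜ ∩ φ ⁻¹' (Metric.ball (φ x) (r / 2)),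
      Filter.inter_mem (hA.isOpen_compl.mem_nhds (by simpa using hl 0 (by omega)))
        (hφ.continuousAt.preimage_mem_nhds (Metric.ball_mem_nhds _ (by positivity))), ?_⟩
    intro γ hγ y hy
    have hyA : y ∉ A := hy.1
    have h1 := hγ y hyA
    have h2 : dist (φ y) (φ x) < r / 2 := hy.2
    rw [Function.iterate_succ_apply]
    refine h' γ (fun z hz => lt_of_lt_of_le (hγ z hz) (min_le_left _ _)) _ (hrN ?_)
    rw [Metric.mem_ball]
    have h3 := lt_of_lt_of_le h1 (min_le_right _ _)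
    linarith [dist_triangle (γ y) (φ y) (φ x)]

theorem shadow_zp {M : Type} [MetricSpace M] (g : M ≃ₜ M) (n : ℕ) (x : M) :
    (g ^ (n : ℤ)) x = (fun y => g y)^[n] x := by
  induction n generalizing x with
  | zero => simp
  | succ n ih =>
    rw [Function.iterate_succ_apply, ← ih, zpow_natCast, zpow_natCast, pow_succ]
    rfl

theorem shadow_zn {M : Type} [MetricSpace M] (g : M ≃ₜ M) (n : ℕ) (x : M) :
    (g ^ (-(n : ℤ))) x = (fun y => g.symm y)^[n] x := by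
  induction n generalizing x with
  | zero => simp
  | succ n ih =>
    rw [Function.iterate_succ_apply, ← ih, zpow_neg, zpow_neg, zpow_natCast, zpow_natCast,
      pow_succ', mul_inv_rev]
    rfl

theorem shadow {M : Type} [MetricSpace M] [CompactSpace M] (f : M ≃ₜ M) (A U X : Set M)
    (hA : IsClosed A) (hU : IsOpen U) (hX : IsCompact X)
    (hvis : ∀ x ∈ X, ∃ k : ℤ, (f ^ k) x ∈ U ∧
      ∀ l : ℤ, ((0 ≤ l ∧ l ≤ k) ∨ (k ≤ l ∧ l ≤ 0)) → (f ^ l) x ∉ A) :
    ∃ δ : ℝ, 0 < δ ∧ ∀ g : M ≃ₜ M,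
      (∀ y, y ∉ A → dist (g y) (f y) < δ ∧ dist (g.symm y) (f.symm y) < δ) →
      ∀ x ∈ X, ∃ k : ℤ, (g ^ k) x ∈ U := by
  refine hX.induction_on (p := fun S => ∃ δ : ℝ, 0 < δ ∧ ∀ g : M ≃ₜ M,
      (∀ y, y ∉ A → dist (g y) (f y) < δ ∧ dist (g.symm y) (f.symm y) < δ) →
      ∀ x ∈ S, ∃ k : ℤ, (g ^ k) x ∈ U) ?_ ?_ ?_ ?_
  · exact ⟨1, one_pos, fun g _ x hx => absurd hx (Set.notMem_empty x)⟩
  · rintro s t hst ⟨δ, hδ, h⟩
    exact ⟨δ, hδ, fun g hg x hx => h g hg x (hst hx)⟩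
  · rintro s t ⟨δ, hδ, h⟩ ⟨δ', hδ', h'⟩
    refine ⟨min δ δ', lt_min hδ hδ', fun g hg x hx => ?_⟩
    rcases hx with hx | hx
    · exact h g (fun y hy => ⟨lt_of_lt_of_le (hg y hy).1 (min_le_left _ _),
        lt_of_lt_of_le (hg y hy).2 (min_le_left _ _)⟩) x hx
    · exact h' g (fun y hy => ⟨lt_of_lt_of_le (hg y hy).1 (min_le_right _ _),
        lt_of_lt_of_le (hg y hy).2 (min_le_right _ _)⟩) x hx
  · intro x hx
    obtain ⟨k, hk, hl⟩ := hvis x hx
    obtain ⟨n, rfl | rfl⟩ := k.eq_nat_or_neg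
    · obtain ⟨δ, hδ, N, hN, h⟩ := shadow_aux (fun y => f y) f.continuous A U hA hU n x
        (by rw [← shadow_zp]; exact hk)
        (fun l hln => by
          rw [← shadow_zp]
          exact hl l (Or.inl ⟨by positivity, by exact_mod_cast hln⟩))
      refine ⟨N, mem_nhdsWithin_of_mem_nhds hN, δ, hδ, fun g hg y hy => ⟨(n : ℤ), ?_⟩⟩
      rw [shadow_zp]
      exact h (fun y => g y) (fun z hz => (hg z hz).1) y hy
    · obtain ⟨δ, hδ, N, hN, h⟩ := shadow_aux (fun y => f.symm y) f.symm.continuous A U hA hU n x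
        (by rw [← shadow_zn]; exact hk)
        (fun l hln => by
          rw [← shadow_zn]
          exact hl (-(l : ℤ)) (Or.inr ⟨by omega, by omega⟩))
      refine ⟨N, mem_nhdsWithin_of_mem_nhds hN, δ, hδ, fun g hg y hy => ⟨-(n : ℤ), ?_⟩⟩
      rw [shadow_zn]
      exact h (fun y => g.symm y) (fun z hz => (hg z hz).2) y hy

end H56Mini
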