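import Pool.Agent.Helper56.Mini.Defs
import Pool.Agent.Helper56.Mini.P_R_homeo
import Pool.Agent.Helper56.Mini.P_shadow
import Pool.Agent.Helper56.Mini.P_V_open
import Pool.Agent.Helper56.Mini.P_path

set_option linter.all false

open Set Metric Topology Filter

namespace H56Mini



theorem qlem_pow {M : Type} [MetricSpace M] [CompactSpace M]
    {E : Type} [NormedAddCommGroup E] [NormedSpace ℝ E] [ProperSpace E]
    {F : Type} [NormedAddCommGroup F] [NormedSpace ℝ F] [ProperSpace F]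
    {ι : Type} (S : Model M E F ι) (H : M ≃ₜ M) (h : M ≃ₜ M) (a : ℝ)
    (hh : ∀ y, h y = H (S.R a (H.symm y))) (n : ℕ) (y : M) :
    (h ^ n) y = H (S.R (n * a) (H.symm y)) := by
  induction n with
  | zero => simp [S.R_zero]
  | succ n ih =>
    rw [pow_succ']
    show h ((h ^ n) y) = _
    rw [ih, hh, H.symm_apply_apply, ← S.R_add]
    congr 2
    push_cast; ring

theorem qlem_cbox {M : Type} [MetricSpace M] [CompactSpace M]
    {E : Type} [NormedAddCommGroup E] [NormedSpace ℝ E] [ProperSpace E]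
    {F : Type} [NormedAddCommGroup F] [NormedSpace ℝ F] [ProperSpace F]
    {ι : Type} (S : Model M E F ι) (p : ℤ) (q : ℕ) (hq : 0 < q) (c η : ℝ) :
    IsCompact (S.cbox p q c η) := by
  have e : S.cbox p q c η = (fun y : ℝ × ℝ × E => S.V p q y.1 y.2.1 y.2.2) ''
      (Icc (-c) c ×ˢ (Icc (-η) η ×ˢ closedBall (0 : E) η)) := by
    ext w
    constructor
    · rintro ⟨x, τ, r, h1, h2, h3, rfl⟩
      exact ⟨(x, τ, r), ⟨abs_le.mp h1, abs_le.mp h2, by simpa using h3⟩, rfl⟩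
    · rintro ⟨⟨x, τ, r⟩, ⟨h1, h2, h3⟩, rfl⟩
      exact ⟨x, τ, r, abs_le.mpr h1, abs_le.mpr h2, by simpa using h3, rfl⟩
  rw [e]
  exact (isCompact_Icc.prod (isCompact_Icc.prod (isCompact_closedBall _ _))).image
    (V_open S p q hq).2

theorem qlem_box {M : Type} [MetricSpace M] [CompactSpace M]
    {E : Type} [NormedAddCommGroup E] [NormedSpace ℝ E] [ProperSpace E]
    {F : Type} [NormedAddCommGroup F] [NormedSpace ℝ F] [ProperSpace F]
    {ι : Type} (S : Model M E F ι) (p : ℤ) (q : ℕ) (hq : 0 < q) (c η : ℝ) :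
    IsOpen (S.box p q c η) := by
  have e : S.box p q c η = (fun y : ℝ × ℝ × E => S.V p q y.1 y.2.1 y.2.2) ''
      (Ioo (-c) c ×ˢ (Ioo (-η) η ×ˢ ball (0 : E) η)) := by
    ext w
    constructor
    · rintro ⟨x, τ, r, h1, h2, h3, rfl⟩
      exact ⟨(x, τ, r), ⟨abs_lt.mp h1, abs_lt.mp h2, by simpa using h3⟩, rfl⟩
    · rintro ⟨⟨x, τ, r⟩, ⟨h1, h2, h3⟩, rfl⟩
      exact ⟨x, τ, r, abs_lt.mpr h1, abs_lt.mpr h2, by simpa using h3, rfl⟩
  rw [e]
  exact (V_open S p q hq).1 _ (isOpen_Ioo.prod (isOpen_Ioo.prod isOpen_ball))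

theorem qlem {M : Type} [MetricSpace M] [CompactSpace M]
    {E : Type} [NormedAddCommGroup E] [NormedSpace ℝ E] [ProperSpace E]
    {F : Type} [NormedAddCommGroup F] [NormedSpace ℝ F] [ProperSpace F]
    {ι : Type} (S : Model M E F ι) (H : M ≃ₜ M) (p : ℤ) (q : ℕ) (hq : 8 ≤ q)
    (hpq : IsCoprime p (q : ℤ)) (U : Set M) (hU : IsOpen U) (hrv : S.RV H p q U) (η : ℝ)
    (hη : 0 < η) (hη2 : η < 1 / 8) :
    ∃ δ : ℝ, 0 < δ ∧ ∀ g : M ≃ₜ M,
      (∀ y, H.symm y ∉ S.cbox p q 2 η → dist (g y) (S.conj H (p / q : ℝ) y) < δ ∧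
        dist (g.symm y) (S.conj H (-(p / q : ℝ)) y) < δ) →
      ∀ x, H.symm x ∉ S.box p q (5 / 2) (2 * η) → ∃ k : ℤ, (g ^ k) x ∈ U := by
  have hq0 : 0 < q := by omega
  obtain ⟨g0, hg1, hg2⟩ := R_homeo S (p / q : ℝ)
  let f : M ≃ₜ M := (H.symm.trans g0).trans H
  have hf : ∀ y, f y = S.conj H (p / q : ℝ) y := by
    intro y
    show H (g0 (H.symm y)) = _
    rw [hg1]; rfl
  have hfs : ∀ y, f.symm y = S.conj H (-(p / q : ℝ)) y := by
    intro y
    show H (g0.symm (H.symm y)) = _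
    rw [hg2]; rfl
  have hpow : ∀ (k : ℤ) y, (f ^ k) y = H (S.R (k * (p / q : ℝ)) (H.symm y)) := by
    intro k y
    obtain ⟨n, rfl | rfl⟩ := k.eq_nat_or_neg
    · rw [zpow_natCast, qlem_pow S H f _ hf n y]
      simp
    · rw [zpow_neg, zpow_natCast, ← inv_pow, qlem_pow S H f⁻¹ _ hfs n y]
      congr 2
      push_cast; ring
  obtain ⟨δ, hδ, h⟩ := shadow f (H '' S.cbox p q 2 η) U {x | H.symm x ∉ S.box p q (5 / 2) (2 * η)}
    ((qlem_cbox S p q hq0 2 η).image H.continuous).isClosed hU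
    (by
      have h1 : IsClosed {x | H.symm x ∉ S.box p q (5 / 2) (2 * η)} :=
        ((qlem_box S p q hq0 (5 / 2) (2 * η)).preimage H.symm.continuous).isClosed_compl
      exact h1.isCompact)
    (by
      intro x hx
      obtain ⟨k, hk1, hk2⟩ := path S H p q hq hpq U hrv η hη hη2 (H.symm x) hx
      refine ⟨k, by rw [hpow]; exact hk1, fun l hl hc => ?_⟩
      rw [hpow] at hc
      obtain ⟨z, hz, hze⟩ := hc
      have := H.injective hze
      rw [this] at hz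
      exact hk2 l hl hz)
  refine ⟨δ, hδ, fun g hg x hx => h g (fun y hy => ?_) x hx⟩
  rw [hf, hfs]
  apply hg
  intro hc
  exact hy ⟨H.symm y, hc, H.apply_symm_apply y⟩

end H56Mini
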