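import Pool.Agent.Helper56.Mini.Defs
import Pool.Agent.Helper56.Mini.P_refine_step
import Pool.Agent.Helper56.Mini.P_cov_fin

set_option linter.all false

open Set Metric Topology Filter

namespace H56Mini



theorem rv_nat {M : Type} [MetricSpace M] [CompactSpace M]
    {E : Type} [NormedAddCommGroup E] [NormedSpace ℝ E] [ProperSpace E]
    {F : Type} [NormedAddCommGroup F] [NormedSpace ℝ F] [ProperSpace F]
    {ι : Type} (S : Model M E F ι) (n : ℕ) (w : M) : S.R (n : ℝ) w = w := by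
  induction n with
  | zero => rw [Nat.cast_zero, S.R_zero]
  | succ n ih => rw [Nat.cast_succ, S.R_add, S.R_one, ih]

theorem rv_int {M : Type} [MetricSpace M] [CompactSpace M]
    {E : Type} [NormedAddCommGroup E] [NormedSpace ℝ E] [ProperSpace E]
    {F : Type} [NormedAddCommGroup F] [NormedSpace ℝ F] [ProperSpace F]
    {ι : Type} (S : Model M E F ι) (m : ℤ) (w : M) : S.R (m : ℝ) w = w := by
  obtain ⟨n, rfl | rfl⟩ := m.eq_nat_or_neg
  · rw [Int.cast_natCast, rv_nat]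
  · have h1 : S.R ((-(n : ℝ)) + (n : ℝ)) w = w := by rw [neg_add_cancel, S.R_zero]
    rw [S.R_add, rv_nat] at h1
    rw [Int.cast_neg, Int.cast_natCast]
    exact h1

theorem rv {M : Type} [MetricSpace M] [CompactSpace M]
    {E : Type} [NormedAddCommGroup E] [NormedSpace ℝ E] [ProperSpace E]
    {F : Type} [NormedAddCommGroup F] [NormedSpace ℝ F] [ProperSpace F]
    {ι : Type} (S : Model M E F ι) (H : M ≃ₜ M) (p : ℤ) (q : ℕ) (ρ : ℝ)
    (hS : S.State H p q ρ) (U : Set M) (hU : IsOpen U) (hcov : ∀ w, ∃ t, H (S.R t w) ∈ U)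
    (ε : ℝ) (hε : 0 < ε) :
    ∃ (p' : ℤ) (q' : ℕ), q ≤ q' ∧ S.State H p' q' ρ ∧
      S.Close H (p / q : ℝ) H (p' / q' : ℝ) ε ∧ S.RV H p' q' U := by
  obtain ⟨δ, hδ, hcf⟩ := cov_fin S H U Set.univ hU isCompact_univ (fun w _ => hcov w)
  obtain ⟨N, hN⟩ := exists_nat_gt (7 / δ)
  obtain ⟨p', q', hQ, hqq, hSt, hCl⟩ := refine_step S H p q ρ hS ε hε (max 8 N)
  refine ⟨p', q', hqq, hSt, hCl, ?_⟩
  have hq8 : 8 ≤ q' := le_trans (le_max_left _ _) hQ
  have hqN : N ≤ q' := le_trans (le_max_right _ _) hQ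
  have hqpos : (0 : ℝ) < (q' : ℝ) := by
    have : 0 < q' := by omega
    exact_mod_cast this
  have hqδ : 7 < (q' : ℝ) * δ := by
    rw [div_lt_iff₀ hδ] at hN
    have : (N : ℝ) ≤ (q' : ℝ) := by exact_mod_cast hqN
    nlinarith
  obtain ⟨a, b, hab⟩ := hSt.1
  intro w
  obtain ⟨t0, ht0⟩ := hcf w (Set.mem_univ w)
  set i0 : ℤ := ⌈t0 * q'⌉ with hi0
  have hi1 : t0 * q' ≤ (i0 : ℝ) := Int.le_ceil _
  have hi2 : (i0 : ℝ) < t0 * q' + 1 := Int.ceil_lt_add_one _
  have hqz : (q' : ℤ) ≠ 0 := by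
    have : 0 < q' := by omega
    exact_mod_cast this.ne'
  let k : ℕ → ℤ := fun j => ((i0 + j) * a) % (q' : ℤ)
  have hk : ∀ j, ∃ m : ℤ, k j * p' = (i0 + j) + m * q' := by
    intro j
    refine ⟨-((i0 + j) * b) - p' * (((i0 + j) * a) / (q' : ℤ)), ?_⟩
    have h1 := Int.emod_add_mul_ediv ((i0 + j) * a) (q' : ℤ)
    have h2 : k j = (i0 + j) * a - (q' : ℤ) * (((i0 + j) * a) / (q' : ℤ)) := by
      simp only [k]
      linarith
    rw [h2]
    linear_combination (i0 + j) * hab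
  refine ⟨(Finset.range 6).image k, ?_, ?_⟩
  · rw [Finset.card_image_of_injOn, Finset.card_range]
    intro j hj j' hj' hjj
    simp only [Finset.coe_range, Set.mem_Iio] at hj hj'
    obtain ⟨m, hm⟩ := hk j
    obtain ⟨m', hm'⟩ := hk j'
    have h1 : (i0 + j) + m * q' = (i0 + j') + m' * q' := by
      rw [← hm, ← hm', hjj]
    have h2 : ((j : ℤ) - j') = (m' - m) * q' := by linarith
    have h3 : m' - m = 0 := by
      by_contra hne
      have h4 : (1 : ℤ) ≤ |m' - m| := Int.one_le_abs hne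
      have h5 : |(j : ℤ) - j'| = |m' - m| * q' := by
        rw [h2, abs_mul, abs_of_nonneg (Int.natCast_nonneg q')]
      have h6 : |(j : ℤ) - j'| ≤ 5 := by
        rw [abs_le]
        constructor <;> omega
      have h7 : (8 : ℤ) ≤ q' := by exact_mod_cast hq8
      nlinarith
    rw [h3, zero_mul] at h2
    omega
  · intro kk hkk
    rw [Finset.mem_image] at hkk
    obtain ⟨j, hj, rfl⟩ := hkk
    rw [Finset.mem_range] at hj
    refine ⟨Int.emod_nonneg _ hqz, ?_, ?_⟩
    · have : (0 : ℤ) < q' := by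
        have : 0 < q' := by omega
        exact_mod_cast this
      exact Int.emod_lt_of_pos _ this
    · obtain ⟨m, hm⟩ := hk j
      have h1 : ((k j : ℤ) : ℝ) * ((p' : ℝ) / (q' : ℝ)) = ((i0 : ℝ) + j) / q' + (m : ℝ) := by
        have h2 : ((k j : ℤ) : ℝ) * (p' : ℝ) = ((i0 : ℝ) + j) + m * q' := by exact_mod_cast hm
        rw [← mul_div_assoc, h2, add_div, mul_div_assoc, div_self hqpos.ne', mul_one]
      rw [h1, S.R_add, rv_int]
      have hj5 : (j : ℝ) ≤ 5 := by
        have : j ≤ 5 := by omega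
        exact_mod_cast this
      have hj0 : (0 : ℝ) ≤ (j : ℝ) := Nat.cast_nonneg j
      apply ht0
      · rw [le_div_iff₀ hqpos]
        linarith
      · rw [div_le_iff₀ hqpos]
        nlinarith

end H56Mini
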