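import Pool.Agent.Helper56.Mini.Defs
import Pool.Agent.Helper56.Mini.P_ext_homeo
import Pool.Agent.Helper56.Mini.P_psi_compact

set_option linter.all false

open Set Metric Topology Filter

namespace H56Mini



theorem per_int' {E : Type} (a : ℝ → E → ℝ) (hper : ∀ τ r, a (τ + 1) r = a τ r) (τ : ℝ) (r : E)
    (k : ℤ) : a (τ + k) r = a τ r := by
  have hP : Function.Periodic (fun τ => a τ r) 1 := fun τ => hper τ r
  have h1 := hP.int_mul k τ
  simp only [mul_one] at h1
  exact h1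

theorem shear {M : Type} [MetricSpace M] [CompactSpace M]
    {E : Type} [NormedAddCommGroup E] [NormedSpace ℝ E] [ProperSpace E]
    {F : Type} [NormedAddCommGroup F] [NormedSpace ℝ F] [ProperSpace F]
    {ι : Type} (S : Model M E F ι) (p : ℤ) (q : ℕ) (hq : 0 < q) (a : ℝ → E → ℝ)
    (ha : Continuous (fun y : ℝ × E => a y.1 y.2)) (hper : ∀ τ r, a (τ + 1) r = a τ r)
    (L : ℝ) (hL : ∀ τ r, L ≤ ‖r‖ → a τ r = 0) :
    ∃ g : M ≃ₜ M, S.IsShear p q a g := by
  have hq0 : (q : ℝ) ≠ 0 := by exact_mod_cast hq.ne'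
  obtain ⟨h, hh⟩ : ∃ h : ℝ × ℝ × E → ℝ × ℝ × E, h = fun x =>
      (x.1 + a (q * x.2.1 - p * x.1) x.2.2,
        x.2.1 + (p / q : ℝ) * a (q * x.2.1 - p * x.1) x.2.2, x.2.2) := ⟨_, rfl⟩
  have happ : ∀ s t r, h (s, t, r) = (s + a (q * t - p * s) r,
      t + (p / q : ℝ) * a (q * t - p * s) r, r) := by
    intro s t r
    rw [hh]
  have hinv : ∀ s t A : ℝ, (q : ℝ) * (t + (p / q : ℝ) * A) - p * (s + A) = q * t - p * s := by
    intro s t A
    field_simp
    ring
  have hA : Continuous (fun x : ℝ × ℝ × E => a (q * x.2.1 - p * x.1) x.2.2) := by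
    have h1 : Continuous (fun x : ℝ × ℝ × E => (((q : ℝ) * x.2.1 - p * x.1, x.2.2) : ℝ × E)) := by
      fun_prop
    exact ha.comp h1
  have hc : Continuous h := by
    rw [hh]
    refine Continuous.prodMk ?_ (Continuous.prodMk ?_ ?_)
    · exact continuous_fst.add hA
    · exact (continuous_fst.comp continuous_snd).add (continuous_const.mul hA)
    · exact continuous_snd.comp continuous_snd
  have hs : Function.Surjective h := by
    rintro ⟨s, t, r⟩
    obtain ⟨A, hAd⟩ : ∃ A, A = a (q * t - p * s) r := ⟨_, rfl⟩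
    refine ⟨(s - A, t - (p / q : ℝ) * A, r), ?_⟩
    rw [happ]
    have h1 : (q : ℝ) * (t - (p / q : ℝ) * A) - p * (s - A) = q * t - p * s := by
      have := hinv s t (-A)
      rw [← this]
      ring
    rw [h1, ← hAd, sub_add_cancel, sub_add_cancel]
  have hrel : ∀ x y, S.Psi x = S.Psi y ↔ S.Psi (h x) = S.Psi (h y) := by
    rintro ⟨s, t, r⟩ ⟨s', t', r'⟩
    rw [happ, happ, S.Psi_eq, S.Psi_eq]
    constructor
    · rintro ⟨⟨m, rfl⟩, ⟨n, rfl⟩, rfl⟩
      have h1 : (q : ℝ) * (t + n) - p * (s + m) = (q * t - p * s) + ((q * n - p * m : ℤ) : ℝ) := by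
        push_cast; ring
      rw [h1, per_int' a hper]
      exact ⟨⟨m, by ring⟩, ⟨n, by ring⟩, rfl⟩
    · rintro ⟨⟨m, hm⟩, ⟨n, hn⟩, rfl⟩
      have h1 := hinv s t (a (q * t - p * s) r')
      have h2 := hinv s' t' (a (q * t' - p * s') r')
      have h3 : (q : ℝ) * t' - p * s' = (q * t - p * s) + ((q * n - p * m : ℤ) : ℝ) := by
        obtain ⟨A, hAd⟩ : ∃ A, A = a (q * t - p * s) r' := ⟨_, rfl⟩
        obtain ⟨B, hBd⟩ : ∃ B, B = a (q * t' - p * s') r' := ⟨_, rfl⟩
        rw [← hAd, ← hBd] at hm hn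
        rw [← hAd] at h1
        rw [← hBd] at h2
        rw [← h2, hm, hn]
        push_cast
        linarith
      have h4 : a (q * t' - p * s') r' = a (q * t - p * s) r' := by
        rw [h3, per_int' a hper]
      rw [h4] at hm hn
      exact ⟨⟨m, by linarith⟩, ⟨n, by linarith⟩, rfl⟩
  obtain ⟨g, hg1, hg2⟩ := ext_homeo S.Psi S.Psi_cont S.Psi_open h hc hs hrel
    {w : M | ∃ s t r, ‖r - 0‖ ≤ L ∧ w = S.Psi (s, t, r)} (psi_compact S 0 L).isClosed (by
      rintro w ⟨s, t, r, _, rfl⟩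
      exact ⟨(s, t, r), rfl⟩) (by
      rintro ⟨s, t, r⟩ hx
      have h1 : L ≤ ‖r‖ := by
        by_contra hcon
        push Not at hcon
        exact hx ⟨s, t, r, by rw [sub_zero]; exact hcon.le, rfl⟩
      rw [happ, hL _ _ h1, mul_zero, add_zero, add_zero])
  refine ⟨g, ?_, ?_⟩
  · intro s t r
    rw [hg1, happ]
  · intro w hw
    apply hg2
    rintro ⟨s, t, r, _, hwe⟩
    exact hw s t r hwe

end H56Mini
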