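import Pool.Agent.Helper56.Mini.Defs
import Pool.Agent.Helper56.Mini.P_R_homeo
import Pool.Agent.Helper56.Mini.P_shear

set_option linter.all false

open Set Metric Topology Filter

namespace H56Mini



theorem exists_twist {M : Type} [MetricSpace M] [CompactSpace M]
    {E : Type} [NormedAddCommGroup E] [NormedSpace ℝ E] [ProperSpace E]
    {F : Type} [NormedAddCommGroup F] [NormedSpace ℝ F] [ProperSpace F]
    {ι : Type} (S : Model M E F ι) (p : ℤ) (q : ℕ) (hq : 0 < q) (η ω0 : ℝ)
    (ω ψ : ℝ → E → ℝ) (hd : IsData η ω0 ω ψ) :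
    ∃ T : M ≃ₜ M, S.IsTwist p q ω T := by
  obtain ⟨g, hg1, hg2⟩ := shear S p q hq (fun τ r => ω τ r - 1) (hd.1.sub continuous_const)
    (fun τ r => by simp only [hd.2.2.1 τ r]) η
    (fun τ r hr => by
      have := (hd.2.2.2.2.2.2.2.1 τ r hr).1
      simp only [this, sub_self])
  obtain ⟨h, hh1, hh2⟩ := R_homeo S (p / q : ℝ)
  have hq0 : (q : ℝ) ≠ 0 := by exact_mod_cast hq.ne'
  refine ⟨h.trans g, ?_, ?_⟩
  · intro s t r
    have hper : Function.Periodic (fun τ => ω τ r) 1 := fun τ => hd.2.2.1 τ r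
    have h1 := hper.int_mul p (q * t - p * s)
    simp only [mul_one] at h1
    have h2 : (q : ℝ) * (t + (p / q : ℝ)) - p * s = q * t - p * s + p := by
      field_simp
      ring
    rw [Homeomorph.trans_apply, hh1, S.Psi_R, hg1]
    simp only [h2, h1]
  · intro w hw
    rw [Homeomorph.trans_apply, hh1]
    apply hg2
    intro s t r hcon
    apply hw s (t + -(p / q : ℝ)) r
    rw [← S.Psi_R, ← hcon, ← S.R_add, neg_add_cancel, S.R_zero]

end H56Mini
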