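import Pool.Agent.Helper56.Mini.Defs

set_option linter.all false

open Set Metric Topology Filter

namespace H56Mini



theorem inv_close {M : Type} [MetricSpace M] [CompactSpace M] (T : M ≃ₜ M) (ε : ℝ) (hε : 0 < ε) :
    ∃ δ : ℝ, 0 < δ ∧ ∀ g : M ≃ₜ M, (∀ w, dist (g w) (T w) < δ) →
      ∀ w, dist (g.symm w) (T.symm w) < ε := by
  have hu : UniformContinuous T.symm :=
    CompactSpace.uniformContinuous_of_continuous T.symm.continuous
  obtain ⟨δ, hδ, h⟩ := Metric.uniformContinuous_iff.1 hu ε hε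
  refine ⟨δ, hδ, fun g hg w => ?_⟩
  obtain ⟨v, rfl⟩ := g.surjective w
  rw [g.symm_apply_apply]
  have h1 := h (hg v)
  rw [T.symm_apply_apply, dist_comm] at h1
  exact h1

end H56Mini
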