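import Pool.Agent.Helper56.Mini.Defs

set_option linter.all false

open Set Metric Topology Filter

namespace H56Mini



theorem psi_uc {M : Type} [MetricSpace M] [CompactSpace M]
    {E : Type} [NormedAddCommGroup E] [NormedSpace ℝ E] [ProperSpace E]
    {F : Type} [NormedAddCommGroup F] [NormedSpace ℝ F] [ProperSpace F]
    {ι : Type} (S : Model M E F ι) (L ε : ℝ) (hε : 0 < ε) :
    ∃ δ : ℝ, 0 < δ ∧ ∀ s t s' t' r, ‖r‖ ≤ L → |s' - s| < δ → |t' - t| < δ →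
      dist (S.Psi (s', t', r)) (S.Psi (s, t, r)) < ε := by
  have hK : IsCompact ((Icc (-1 : ℝ) 2) ×ˢ ((Icc (-1 : ℝ) 2) ×ˢ (closedBall (0 : E) L))) :=
    isCompact_Icc.prod (isCompact_Icc.prod (isCompact_closedBall _ _))
  have hu := hK.uniformContinuousOn_of_continuous S.Psi_cont.continuousOn
  obtain ⟨δ₀, hδ₀, hd⟩ := Metric.uniformContinuousOn_iff.1 hu ε hε
  refine ⟨min δ₀ 1, lt_min hδ₀ one_pos, ?_⟩
  intro s t s' t' r hr hs ht
  have hs0 := hs.trans_le (min_le_left _ _)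
  have hs1 := abs_lt.1 (hs.trans_le (min_le_right _ _))
  have ht0 := ht.trans_le (min_le_left _ _)
  have ht1 := abs_lt.1 (ht.trans_le (min_le_right _ _))
  have e1 : S.Psi (s, t, r) = S.Psi (s - ⌊s⌋, t - ⌊t⌋, r) :=
    (S.Psi_eq _ _ _ _ _ _).2 ⟨⟨-⌊s⌋, by push_cast; ring⟩, ⟨-⌊t⌋, by push_cast; ring⟩, rfl⟩
  have e2 : S.Psi (s', t', r) = S.Psi (s' - ⌊s⌋, t' - ⌊t⌋, r) :=
    (S.Psi_eq _ _ _ _ _ _).2 ⟨⟨-⌊s⌋, by push_cast; ring⟩, ⟨-⌊t⌋, by push_cast; ring⟩, rfl⟩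
  have f1 := Int.floor_le s
  have f2 := Int.lt_floor_add_one s
  have f3 := Int.floor_le t
  have f4 := Int.lt_floor_add_one t
  have hrb : r ∈ closedBall (0 : E) L := by rw [mem_closedBall_zero_iff]; exact hr
  rw [e1, e2]
  refine hd _ ⟨⟨by simp only; linarith, by simp only; linarith⟩,
    ⟨by simp only; linarith, by simp only; linarith⟩, hrb⟩ _
    ⟨⟨by simp only; linarith, by simp only; linarith⟩,
    ⟨by simp only; linarith, by simp only; linarith⟩, hrb⟩ ?_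
  rw [Prod.dist_eq, Prod.dist_eq, Real.dist_eq, Real.dist_eq, dist_self]
  refine max_lt ?_ (max_lt ?_ hδ₀)
  · rw [show s' - (⌊s⌋ : ℝ) - (s - ⌊s⌋) = s' - s by ring]; exact hs0
  · rw [show t' - (⌊t⌋ : ℝ) - (t - ⌊t⌋) = t' - t by ring]; exact ht0

end H56Mini
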