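import Pool.Agent.Helper56.Mini.Defs
import Pool.Agent.Helper56.Mini.P_V_eq
import Pool.Agent.Helper56.Mini.P_V_add
import Pool.Agent.Helper56.Mini.P_V_open

set_option linter.all false

open Set Metric Topology Filter

namespace H56Mini



theorem sd_arc {M : Type} [MetricSpace M] [CompactSpace M]
    {E : Type} [NormedAddCommGroup E] [NormedSpace ℝ E] [ProperSpace E]
    {F : Type} [NormedAddCommGroup F] [NormedSpace ℝ F] [ProperSpace F]
    {ι : Type} (S : Model M E F ι) (p : ℤ) (q : ℕ) (hq : 8 ≤ q) (hpq : IsCoprime p (q : ℤ))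
    (η : ℝ) (hη : 0 < η) (hη2 : η < 1 / 8) (Z : ℝ → ℝ) (hZ : IsZ q Z) (ε : ℝ) (hε : 0 < ε) :
    ∃ κ : ℝ, 0 < κ ∧ κ < 1 ∧ ∀ ω0 : ℝ, 0 < ω0 → ω0 ≤ κ → ∀ ω ψ : ℝ → E → ℝ,
      IsData η ω0 ω ψ → ∃ N0 : ℕ, ∀ N : ℕ, N0 ≤ N → 0 < N → ∀ Θ Kc : M ≃ₜ M,
        S.IsShear p q (fun τ r => N * ψ τ r) Θ →
        S.IsCollapse p q (fun τ r => max 0 (1 - ω τ r)) Z Kc →
        ∀ x : ℝ, |x| ≤ 4 →
          dist (Kc.symm (Θ (S.Psi (x, ((p / q : ℝ) + 1 / (q * N)) * x, 0)))) S.pt < ε := by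
  have hq0 : (0 : ℝ) < q := by
    have : 0 < q := by omega
    exact_mod_cast this
  have hqr : (8 : ℝ) ≤ q := by exact_mod_cast hq
  have hcont := (V_open S p q (by omega)).2
  have hV0 : S.V p q 0 0 (0 : E) = S.pt := by
    unfold Model.V Model.pt
    simp
  have hc0 := Metric.continuousAt_iff.1 (hcont.continuousAt (x := ((0 : ℝ), (0 : ℝ), (0 : E)))) ε hε
  obtain ⟨δ0, hδ0, hc⟩ := hc0
  have hc' : ∀ y τ : ℝ, |y| < δ0 → |τ| < δ0 → dist (S.V p q y τ (0 : E)) S.pt < ε := by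
    intro y τ hy hτ
    have h1 := @hc (y, τ, (0 : E)) (by
      rw [Prod.dist_eq, Prod.dist_eq]
      simp only [Real.dist_eq, sub_zero, dist_self]
      exact max_lt hy (max_lt hτ hδ0))
    simp only [hV0] at h1
    exact h1
  refine ⟨min (1 / 8) (δ0 / 16), by positivity, lt_of_le_of_lt (min_le_left _ _) (by norm_num), ?_⟩
  intro ω0 hω0 hω0κ ω ψ hD
  obtain ⟨_, _, _, _, hωlo, hωhi, _, _, _, _, _, hlast⟩ := hD
  have hκ1 : min (1 / 8) (δ0 / 16) ≤ 1 / 8 := min_le_left _ _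
  have hκ2 : min (1 / 8) (δ0 / 16) ≤ δ0 / 16 := min_le_right _ _
  have hκ0 : 0 < min (1 / 8) (δ0 / 16) := by positivity
  set κ := min (1 / 8) (δ0 / 16) with hκ
  obtain ⟨δ1, hδ1, hψ⟩ := hlast κ hκ0
  obtain ⟨N0, hN0⟩ := exists_nat_gt (4 / min (min δ0 δ1) (1 / 2))
  refine ⟨N0, ?_⟩
  intro N hN hNpos Θ Kc hΘ hK x hx
  have hNr : (0 : ℝ) < N := by exact_mod_cast hNpos
  have hmin : 0 < min (min δ0 δ1) (1 / 2) := by positivity
  have h4N : 4 / (N : ℝ) < min (min δ0 δ1) (1 / 2) := by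
    have h1 : (4 / min (min δ0 δ1) (1 / 2)) < N := lt_of_lt_of_le hN0 (by exact_mod_cast hN)
    rw [div_lt_iff₀ hmin] at h1
    rw [div_lt_iff₀ hNr]
    linarith
  have hτ : |x / N| ≤ 4 / N := by
    rw [abs_div, abs_of_pos hNr]
    exact div_le_div_of_nonneg_right hx hNr.le
  have hτ0 : |x / N| < δ0 := lt_of_le_of_lt hτ (lt_of_lt_of_le h4N
    ((min_le_left _ _).trans (min_le_left _ _)))
  have hτ1 : |x / N| < δ1 := lt_of_le_of_lt hτ (lt_of_lt_of_le h4N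
    ((min_le_left _ _).trans (min_le_right _ _)))
  have hτ2 : |x / N| < 1 / 2 := lt_of_le_of_lt hτ (lt_of_lt_of_le h4N (min_le_right _ _))
  have hpt : S.Psi (x, ((p / q : ℝ) + 1 / (q * N)) * x, (0 : E)) = S.V p q x (x / N) 0 := by
    unfold Model.V
    congr 2
    congr 1
    field_simp
  have hΘV : Θ (S.V p q x (x / N) (0 : E)) =
      S.V p q (x + N * ψ (x / N) 0) (x / N) 0 := by
    unfold Model.V
    rw [hΘ.1]
    have e1 : (q : ℝ) * ((p * x + x / N) / q) - p * x = x / N := by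
      field_simp
      ring
    rw [e1]
    congr 2
    congr 1
    field_simp
    ring
  have hy : |x + N * ψ (x / N) 0| ≤ 8 * κ := by
    have h1 := hψ (x / N) hτ1
    have h2 : |N * ψ (x / N) 0 - (ω0 - 1) * x| ≤ κ * |x| := by
      have e1 : N * ψ (x / N) 0 - (ω0 - 1) * x = N * (ψ (x / N) 0 - (ω0 - 1) * (x / N)) := by
        field_simp
      rw [e1, abs_mul, abs_of_pos hNr]
      have e2 : κ * |x| = N * (κ * |x / N|) := by
        rw [abs_div, abs_of_pos hNr]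
        field_simp
      rw [e2]
      exact mul_le_mul_of_nonneg_left h1 hNr.le
    have e3 : x + N * ψ (x / N) 0 = (N * ψ (x / N) 0 - (ω0 - 1) * x) + ω0 * x := by ring
    rw [e3]
    refine (abs_add_le _ _).trans ?_
    rw [abs_mul, abs_of_pos hω0]
    have h3 : κ * |x| ≤ κ * 4 := mul_le_mul_of_nonneg_left hx hκ0.le
    have h4 : ω0 * |x| ≤ κ * 4 := mul_le_mul hω0κ hx (abs_nonneg _) hκ0.le
    linarith
  obtain ⟨y, hydef⟩ : ∃ y, y = x + N * ψ (x / N) 0 := ⟨_, rfl⟩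
  obtain ⟨θ, hθdef⟩ : ∃ θ, θ = max 0 (1 - ω (x / N) 0) := ⟨_, rfl⟩
  have hθ0 : 0 ≤ θ := by rw [hθdef]; exact le_max_left _ _
  have hD1 : 1 ≤ 1 - θ + θ * (q / 2) := by nlinarith
  have hy1 : |y / (1 - θ + θ * (q / 2))| ≤ |y| := by
    rw [abs_div, abs_of_pos (by linarith : (0 : ℝ) < 1 - θ + θ * (q / 2))]
    exact div_le_self (abs_nonneg _) hD1
  have hy2 : |y| ≤ 1 := by
    rw [hydef]
    linarith
  have hy3 : |y| < δ0 := by
    rw [hydef]
    linarith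
  have hKV : Kc (S.V p q (y / (1 - θ + θ * (q / 2))) (x / N) (0 : E)) =
      S.V p q y (x / N) 0 := by
    rw [hK.1 _ _ _ hτ2, hZ.2.2.2.2 _ (hy1.trans hy2)]
    simp only [← hθdef]
    congr 1
    obtain ⟨D, hDd⟩ : ∃ D, D = 1 - θ + θ * ((q : ℝ) / 2) := ⟨_, rfl⟩
    rw [← hDd] at hD1 ⊢
    have hDne : D ≠ 0 := by linarith
    calc y / D + θ * ((q : ℝ) / 2 * (y / D) - y / D) = y / D * (1 - θ + θ * ((q : ℝ) / 2)) := by ring
      _ = y / D * D := by rw [← hDd]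
      _ = y := div_mul_cancel₀ y hDne
  have hfin : Kc.symm (Θ (S.Psi (x, ((p / q : ℝ) + 1 / (q * N)) * x, 0))) =
      S.V p q (y / (1 - θ + θ * (q / 2))) (x / N) 0 := by
    rw [hpt, hΘV, ← hydef, ← hKV, Homeomorph.symm_apply_apply]
  rw [hfin]
  exact hc' _ _ (lt_of_le_of_lt hy1 hy3) hτ0

end H56Mini
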