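import Pool.Agent.Helper56.Mini.Defs

set_option linter.all false

open Set Metric Topology Filter

namespace H56Mini



theorem psi_strip {M : Type} [MetricSpace M] [CompactSpace M]
    {E : Type} [NormedAddCommGroup E] [NormedSpace ℝ E] [ProperSpace E]
    {F : Type} [NormedAddCommGroup F] [NormedSpace ℝ F] [ProperSpace F]
    {ι : Type} (S : Model M E F ι) (p : ℤ) (q : ℕ) (hq : 0 < q) (hpq : IsCoprime p (q : ℤ))
    (s t : ℝ) (r : E) :
    (∃ x, S.Psi (s, t, r) = S.V p q x (q * t - p * s - round (q * t - p * s)) r) ∧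
    ∀ x τ r', S.Psi (s, t, r) = S.V p q x τ r' →
      r' = r ∧ (∃ n : ℤ, q * t - p * s = τ + n) ∧ ∃ n : ℤ, s = x + n := by
  have hq0 : (q : ℝ) ≠ 0 := by exact_mod_cast hq.ne'
  refine ⟨?_, ?_⟩
  · obtain ⟨u, v, huv⟩ := hpq
    set m : ℤ := round (q * t - p * s) with hm
    refine ⟨s + ((u * m : ℤ) : ℝ), ?_⟩
    unfold Model.V
    rw [S.Psi_eq]
    refine ⟨⟨u * m, rfl⟩, ⟨-v * m, ?_⟩, rfl⟩
    have huv' : (u : ℝ) * p + v * q = 1 := by exact_mod_cast huv
    rw [div_eq_iff hq0]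
    push_cast
    linear_combination (m : ℝ) * huv'
  · intro x τ r' h
    unfold Model.V at h
    rw [S.Psi_eq] at h
    obtain ⟨⟨a, ha⟩, ⟨b, hb⟩, hr⟩ := h
    refine ⟨hr, ⟨p * a - q * b, ?_⟩, ⟨-a, ?_⟩⟩
    · rw [div_eq_iff hq0] at hb
      push_cast
      rw [ha] at hb
      linear_combination -hb
    · push_cast
      linarith

end H56Mini
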