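import Pool.Agent.Helper56.Mini.Defs
import Pool.Agent.Helper56.Mini.P_V_eq
import Pool.Agent.Helper56.Mini.P_V_add
import Pool.Agent.Helper56.Mini.P_psi_strip

/- WARNING (helper450): IsData clause 3 was CHANGED here to (∀ (τ : ℝ) (r : E), η ≤ |τ - round τ| → 1 ≤ ω τ r); in the posted job it elaborated with τ : ℤ and was vacuous, and sd_est1 was false. IsZ is unchanged (lemma isZ_flat). -/


set_option linter.all false

open Set Metric Topology Filter

namespace H56Mini



theorem sd_T_V {M : Type} [MetricSpace M] [CompactSpace M]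
    {E : Type} [NormedAddCommGroup E] [NormedSpace ℝ E] [ProperSpace E]
    {F : Type} [NormedAddCommGroup F] [NormedSpace ℝ F] [ProperSpace F]
    {ι : Type} (S : Model M E F ι) (p : ℤ) (q : ℕ) (hq : 0 < q) (ω : ℝ → E → ℝ) (T : M ≃ₜ M)
    (hT : S.IsTwist p q ω T) (x τ : ℝ) (r : E) :
    T (S.V p q x τ r) = S.V p q (x + ω τ r) τ r := by
  have hq' : (q : ℝ) ≠ 0 := by positivity
  unfold Model.V
  rw [hT.1]
  have e : (q:ℝ) * ((p * x + τ) / q) - p * x = τ := by field_simp; ring
  rw [e, S.Psi_eq]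
  refine ⟨⟨1, by push_cast; ring⟩, ⟨0, by push_cast; field_simp; ring⟩, rfl⟩

theorem sd_per {E : Type} (ω : ℝ → E → ℝ) (h : ∀ τ r, ω (τ + 1) r = ω τ r) (τ : ℝ) (r : E)
    (n : ℤ) : ω (τ + n) r = ω τ r := by
  have h' : Function.Periodic (fun τ => ω τ r) 1 := fun τ => h τ r
  have := (h'.int_mul n) τ
  simpa using this

theorem sd_fix {M : Type} [MetricSpace M] [CompactSpace M]
    {E : Type} [NormedAddCommGroup E] [NormedSpace ℝ E] [ProperSpace E]
    {F : Type} [NormedAddCommGroup F] [NormedSpace ℝ F] [ProperSpace F]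
    {ι : Type} (S : Model M E F ι) (p : ℤ) (q : ℕ) (hq : 0 < q) (hpq : IsCoprime p (q : ℤ))
    (ω : ℝ → E → ℝ) (hper : ∀ τ r, ω (τ + 1) r = ω τ r) (Z : ℝ → ℝ) (Kc : M ≃ₜ M)
    (hK : S.IsCollapse p q (fun τ r => max 0 (1 - ω τ r)) Z Kc) (s t : ℝ) (r : E)
    (h : 1 ≤ ω (q * t - p * s) r) : Kc (S.Psi (s, t, r)) = S.Psi (s, t, r) := by
  apply hK.2
  intro x τ r' hτ hθ he
  obtain ⟨e1, ⟨n, hn⟩, _⟩ := (psi_strip S p q hq hpq s t r).2 x τ r' he
  subst e1
  rw [hn, sd_per ω hper] at h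
  apply hθ
  exact max_eq_left (by linarith)

theorem sd_shear {M : Type} [MetricSpace M] [CompactSpace M]
    {E : Type} [NormedAddCommGroup E] [NormedSpace ℝ E] [ProperSpace E]
    {F : Type} [NormedAddCommGroup F] [NormedSpace ℝ F] [ProperSpace F]
    {ι : Type} (S : Model M E F ι) (p : ℤ) (q : ℕ) (hq : 0 < q) (hpq : IsCoprime p (q : ℤ))
    (ω : ℝ → E → ℝ) (hper : ∀ τ r, ω (τ + 1) r = ω τ r) (Z : ℝ → ℝ) (Kc T : M ≃ₜ M)
    (hK : S.IsCollapse p q (fun τ r => max 0 (1 - ω τ r)) Z Kc) (hT : S.IsTwist p q ω T)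
    (s t : ℝ) (r : E) (h : 1 ≤ ω (q * t - p * s) r) :
    Kc.symm (T (Kc (S.Psi (s, t, r)))) = S.Psi (s + (ω (q * t - p * s) r - 1),
      t + (p / q : ℝ) + (p / q : ℝ) * (ω (q * t - p * s) r - 1), r) := by
  have hq' : (q : ℝ) ≠ 0 := by positivity
  rw [sd_fix S p q hq hpq ω hper Z Kc hK s t r h, hT.1, Homeomorph.symm_apply_eq]
  symm
  apply sd_fix S p q hq hpq ω hper Z Kc hK
  have e : (q : ℝ) * (t + (p / q : ℝ) + (p / q : ℝ) * (ω (q * t - p * s) r - 1))
      - p * (s + (ω (q * t - p * s) r - 1)) = (q * t - p * s) + (p : ℤ) := by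
    field_simp; ring
  rw [e, sd_per ω hper]; exact h

theorem sd_k {M : Type} [MetricSpace M] [CompactSpace M]
    {E : Type} [NormedAddCommGroup E] [NormedSpace ℝ E] [ProperSpace E]
    {F : Type} [NormedAddCommGroup F] [NormedSpace ℝ F] [ProperSpace F]
    {ι : Type} (S : Model M E F ι) (p : ℤ) (q : ℕ) (hq : 0 < q)
    (ω : ℝ → E → ℝ) (Z : ℝ → ℝ) (Kc T : M ≃ₜ M)
    (hK : S.IsCollapse p q (fun τ r => max 0 (1 - ω τ r)) Z Kc) (hT : S.IsTwist p q ω T)
    (x y τ : ℝ) (r : E) (hω : ω τ r < 1) (hτ : |τ| < 1 / 2)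
    (hy : y + (1 - ω τ r) * (Z y - y) = x + (1 - ω τ r) * (Z x - x) + ω τ r) :
    Kc.symm (T (Kc (S.V p q x τ r))) = S.V p q y τ r := by
  have hm : max 0 (1 - ω τ r) = 1 - ω τ r := max_eq_right (by linarith)
  rw [hK.1 x τ r hτ, sd_T_V S p q hq ω T hT, Homeomorph.symm_apply_eq, hK.1 y τ r hτ]
  simp only [hm]
  rw [hy]

theorem isZ_flat {q : ℕ} (hq : 8 ≤ q) {Z : ℝ → ℝ} (hZ : IsZ q Z) :
    ∀ x : ℝ, 1 ≤ x → x ≤ (q : ℝ) - 1 → Z x = q / 2 := by
  obtain ⟨hZc, hZm, hZp, hZ1, hZ2⟩ := hZ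
  intro x h1 h2
  have a1 := hZ1 1 (le_refl _) (by omega)
  have a2 := hZ1 (q - 1) (by omega) (le_refl _)
  have e : ((q - 1 : ℕ) : ℝ) = (q : ℝ) - 1 := by
    rw [Nat.cast_sub (by omega)]; simp
  rw [e] at a2
  push_cast at a1
  apply le_antisymm
  · rw [← a2]; exact hZm h2
  · rw [← a1]; exact hZm h1

theorem sd_est1 {M : Type} [MetricSpace M] [CompactSpace M]
    {E : Type} [NormedAddCommGroup E] [NormedSpace ℝ E] [ProperSpace E]
    {F : Type} [NormedAddCommGroup F] [NormedSpace ℝ F] [ProperSpace F]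
    {ι : Type} (S : Model M E F ι) (p : ℤ) (q : ℕ) (hq : 8 ≤ q) (hpq : IsCoprime p (q : ℤ))
    (η ω0 : ℝ) (hη : 0 < η) (hη2 : η < 1 / 8) (h0 : 0 < ω0) (h1 : ω0 < 1)
    (ω ψ : ℝ → E → ℝ) (hd : IsData η ω0 ω ψ) (Z : ℝ → ℝ) (hZ : IsZ q Z) (Kc T : M ≃ₜ M)
    (hK : S.IsCollapse p q (fun τ r => max 0 (1 - ω τ r)) Z Kc) (hT : S.IsTwist p q ω T) (w : M) :
    (w ∉ S.box p q 2 η → Kc.symm (T (Kc w)) = S.R (p / q : ℝ) w ∨
      ∃ s t r a, ‖r‖ ≤ η ∧ |a| ≤ 4 * η ∧ w = S.Psi (s, t, r) ∧
        Kc.symm (T (Kc w)) = S.Psi (s + a, t + (p / q : ℝ) + (p / q : ℝ) * a, r)) ∧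
    (w ∈ S.box p q 2 η → Kc.symm (T (Kc w)) ∈ S.cbox p q 4 η) := by
  have hq0 : 0 < q := by omega
  have hq' : (q : ℝ) ≠ 0 := by positivity
  have hq8 : (8 : ℝ) ≤ q := by exact_mod_cast hq
  obtain ⟨hc1, hc2, hper, hper2, hω0, hω4, hωτ, hωr, _, _, _, _⟩ := hd
  have hZ1 := isZ_flat hq hZ
  obtain ⟨hZc, hZm, hZp, _, hZ2⟩ := hZ
  have hZm2 : Z (-2) = - (q / 2 : ℝ) := by
    have := hZp (-2)
    rw [hZ1 (-2 + q) (by linarith) (by linarith)] at this
    linarith
  have hZm1 : Z (-1) = - (q / 2 : ℝ) := by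
    rw [hZ2 (-1) (by simp)]; ring
  have hZ2' : Z 2 = q / 2 := hZ1 2 (by norm_num) (by linarith)
  have hZ3' : Z 3 = q / 2 := hZ1 3 (by norm_num) (by linarith)
  constructor
  · intro hbox
    by_cases hr : ∃ s t r, w = S.Psi (s, t, r)
    · obtain ⟨s, t, r, rfl⟩ := hr
      by_cases hω : 1 ≤ ω (q * t - p * s) r
      · have hs := sd_shear S p q hq0 hpq ω hper Z Kc T hK hT s t r hω
        by_cases hr : ‖r‖ ≤ η
        · right
          refine ⟨s, t, r, ω (q * t - p * s) r - 1, hr, ?_, rfl, hs⟩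
          rw [abs_of_nonneg (by linarith)]
          linarith [hω4 (q * t - p * s) r]
        · left
          push Not at hr
          rw [hs, S.Psi_R, (hωr (q * t - p * s) r hr.le).1]
          simp
      · push Not at hω
        left
        obtain ⟨x0, hx0⟩ := (psi_strip S p q hq0 hpq s t r).1
        set σ := (q : ℝ) * t - p * s with hσ
        set τ := σ - round σ with hτdef
        have hωτ' : ω τ r < 1 := by
          have := sd_per ω hper τ r (round σ)
          rw [← this]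
          simpa [hτdef] using hω
        have hτ12 : |τ| ≤ 1 / 2 := abs_sub_round σ
        have hrη : ‖r‖ < η := by
          by_contra hcon
          push Not at hcon
          rw [(hωr τ r hcon).1] at hωτ'
          exact lt_irrefl _ hωτ'
        have hround : |τ - round τ| < η := by
          by_contra hcon
          push Not at hcon
          linarith [hωτ τ r hcon]
        have hτη : |τ| < η := by
          have hm : round τ = 0 := by
            have h1 : |(round τ : ℝ)| < 1 := by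
              have : (round τ : ℝ) = τ - (τ - round τ) := by ring
              rw [this]
              calc |τ - (τ - round τ)| ≤ |τ| + |τ - round τ| := abs_sub _ _
                _ < 1 := by linarith
            have h2 : |round τ| < 1 := by exact_mod_cast h1
            exact Int.abs_lt_one_iff.mp h2
          rw [hm] at hround
          simpa using hround
        -- reduce x modulo q
        obtain ⟨x, hx1, hx2, hx3⟩ : ∃ x : ℝ, -2 < x ∧ x ≤ q - 2 ∧
            S.Psi (s, t, r) = S.V p q x τ r := by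
          have hqpos : (0 : ℝ) < q := by positivity
          refine ⟨toIocMod hqpos (-2) x0, ?_, ?_, ?_⟩
          · exact (toIocMod_mem_Ioc hqpos (-2) x0).1
          · have := (toIocMod_mem_Ioc hqpos (-2) x0).2
            linarith
          · rw [hx0]
            have e : toIocMod hqpos (-2) x0 = x0 + q * ((- toIocDiv hqpos (-2) x0 : ℤ) : ℝ) := by
              rw [toIocMod]
              push_cast
              rw [zsmul_eq_mul]
              ring
            rw [e, (V_add S p q hq0 x0 τ r _).1]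
        rw [hx3]
        have hx4 : 2 ≤ x := by
          by_contra hcon
          push Not at hcon
          apply hbox
          exact ⟨x, τ, r, abs_lt.mpr ⟨hx1, hcon⟩, hτη, hrη, hx3⟩
        rw [sd_k S p q hq0 ω Z Kc T hK hT x (x + 1) τ r hωτ' (by linarith)]
        · have := (V_add S p q hq0 x τ r 1).2
          push_cast at this
          rw [one_mul] at this
          rw [this]
        · rw [hZ1 x (by linarith) (by linarith), hZ1 (x + 1) (by linarith) (by linarith)]
          ring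
    · push Not at hr
      left
      have hK1 : Kc w = w := hK.2 w (fun x τ r _ _ => by unfold Model.V; exact hr _ _ _)
      rw [hK1, hT.2 w hr, Homeomorph.symm_apply_eq]
      symm
      apply hK.2
      intro x τ r _ _ he
      unfold Model.V at he
      have h2 : w = S.R (-(p / q : ℝ)) (S.Psi (x, (p * x + τ) / q, r)) := by
        rw [← he, ← S.R_add]; simp [S.R_zero]
      rw [S.Psi_R] at h2
      exact hr _ _ _ h2
  · rintro ⟨x, τ, r, hx, hτ, hr, rfl⟩
    rw [abs_lt] at hx
    by_cases hω : 1 ≤ ω τ r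
    · have e : (q:ℝ) * ((p * x + τ) / q) - p * x = τ := by field_simp; ring
      have hs := sd_shear S p q hq0 hpq ω hper Z Kc T hK hT x ((p * x + τ) / q) r (by rw [e]; exact hω)
      refine ⟨x + ω τ r, τ, r, ?_, hτ.le, hr.le, ?_⟩
      · rw [abs_le]
        constructor <;> linarith [hω4 τ r]
      · show Kc.symm (T (Kc (S.Psi (x, (p * x + τ) / q, r)))) = _
        rw [hs, e]
        unfold Model.V
        rw [S.Psi_eq]
        refine ⟨⟨1, by push_cast; ring⟩, ⟨0, by push_cast; field_simp; ring⟩, rfl⟩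
    · push Not at hω
      have hω' := hω0 τ r
      have hkc : Continuous (fun y => y + (1 - ω τ r) * (Z y - y)) := by fun_prop
      have hkm : ∀ a b : ℝ, a ≤ b → a + (1 - ω τ r) * (Z a - a) ≤ b + (1 - ω τ r) * (Z b - b) := by
        intro a b hab
        have := hZm hab
        nlinarith [mul_nonneg (sub_nonneg.mpr hω.le) (sub_nonneg.mpr this),
          mul_nonneg (h0.le.trans hω') (sub_nonneg.mpr hab)]
      have h3 : x + (1 - ω τ r) * (Z x - x) + ω τ r ∈
          (fun y => y + (1 - ω τ r) * (Z y - y)) '' Set.Icc (-1) 3 := by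
        apply intermediate_value_Icc (by norm_num) hkc.continuousOn
        constructor
        · have := hkm (-2) x (by linarith)
          rw [hZm2] at this
          rw [hZm1]
          linarith
        · have := hkm x 2 (by linarith)
          rw [hZ2'] at this
          rw [hZ3']
          linarith
      obtain ⟨y, hy1, hy2⟩ := h3
      rw [sd_k S p q hq0 ω Z Kc T hK hT x y τ r hω (by linarith) hy2]
      refine ⟨y, τ, r, ?_, hτ.le, hr.le, rfl⟩
      rw [abs_le]
      constructor <;> linarith [hy1.1, hy1.2]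

end H56Mini
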