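import Pool.Agent.Helper56.Mini.Defs
import Pool.Agent.Helper56.Mini.P_V_eq
import Pool.Agent.Helper56.Mini.P_V_add
import Pool.Agent.Helper56.Mini.P_psi_strip

set_option linter.all false

open Set Metric Topology Filter

namespace H56Mini



section aux2
variable {M : Type} [MetricSpace M] [CompactSpace M]
    {E : Type} [NormedAddCommGroup E] [NormedSpace ℝ E] [ProperSpace E]
    {F : Type} [NormedAddCommGroup F] [NormedSpace ℝ F] [ProperSpace F]
    {ι : Type} (S : Model M E F ι) (p : ℤ) (q : ℕ)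

theorem sd2_per (f : ℝ → E → ℝ) (hf : ∀ τ r, f (τ + 1) r = f τ r) (n : ℤ) (τ : ℝ) (r : E) :
    f (τ + n) r = f τ r := by
  have h0 : Function.Periodic (fun τ => f τ r) 1 := fun τ => hf τ r
  have h := (h0.int_mul n) τ
  simpa using h

theorem sd2_Tsymm (hq : 0 < q) (ω : ℝ → E → ℝ) (hω : ∀ τ r, ω (τ + 1) r = ω τ r)
    (T : M ≃ₜ M) (hT : S.IsTwist p q ω T) (s t : ℝ) (r : E) :
    T.symm (S.Psi (s, t, r)) = S.Psi (s - (ω (q * t - p * s) r - 1),
      t - (p / q : ℝ) - (p / q : ℝ) * (ω (q * t - p * s) r - 1), r) := by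
  have hq' : (q : ℝ) ≠ 0 := by positivity
  have h : T (S.Psi (s - (ω (q * t - p * s) r - 1),
      t - (p / q : ℝ) - (p / q : ℝ) * (ω (q * t - p * s) r - 1), r)) = S.Psi (s, t, r) := by
    rw [hT.1]
    generalize ha : ω (q * t - p * s) r - 1 = a
    have h1 : (q : ℝ) * (t - (p / q : ℝ) - (p / q : ℝ) * a) - p * (s - a) =
        (q * t - p * s) + ((-p : ℤ) : ℝ) := by
      push_cast
      field_simp
      ring
    rw [h1, sd2_per ω hω, ha]
    have e1 : s - a + a = s := by ring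
    have e2 : t - (p / q : ℝ) - (p / q : ℝ) * a + (p / q : ℝ) + (p / q : ℝ) * a = t := by ring
    rw [e1, e2]
  calc T.symm (S.Psi (s, t, r)) = T.symm (T (S.Psi (s - (ω (q * t - p * s) r - 1),
      t - (p / q : ℝ) - (p / q : ℝ) * (ω (q * t - p * s) r - 1), r))) := by rw [h]
    _ = _ := T.symm_apply_apply _

theorem sd2_K0 (hq : 0 < q) (hpq : IsCoprime p (q : ℤ)) (ω : ℝ → E → ℝ)
    (hω : ∀ τ r, ω (τ + 1) r = ω τ r) (Z : ℝ → ℝ) (Kc : M ≃ₜ M)
    (hK : S.IsCollapse p q (fun τ r => max 0 (1 - ω τ r)) Z Kc) (s t : ℝ) (r : E)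
    (h : 1 ≤ ω (q * t - p * s) r) :
    Kc (S.Psi (s, t, r)) = S.Psi (s, t, r) := by
  apply hK.2
  intro x' τ' r' hτ' hθ heq
  obtain ⟨hr, ⟨n, hn⟩, _⟩ := (psi_strip S p q hq hpq s t r).2 x' τ' r' heq
  apply hθ
  rw [hn, sd2_per ω hω, ← hr] at h
  show max 0 (1 - ω τ' r') = 0
  exact max_eq_left (by linarith)

theorem sd2_out (ω : ℝ → E → ℝ) (Z : ℝ → ℝ) (Kc T : M ≃ₜ M)
    (hK : S.IsCollapse p q (fun τ r => max 0 (1 - ω τ r)) Z Kc) (hT : S.IsTwist p q ω T)
    (w : M) (hw : ∀ s t r, w ≠ S.Psi (s, t, r)) :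
    Kc.symm (T.symm (Kc w)) = S.R (-(p / q : ℝ)) w := by
  have hK1 : ∀ w', (∀ s t r, w' ≠ S.Psi (s, t, r)) → Kc w' = w' :=
    fun w' h => hK.2 w' (fun x τ r _ _ => h _ _ _)
  have hR : ∀ s t r, S.R (-(p / q : ℝ)) w ≠ S.Psi (s, t, r) := by
    intro s t r h
    apply hw s (t + p / q) r
    rw [← S.Psi_R, ← h, ← S.R_add]
    simp [S.R_zero]
  have hT1 : T (S.R (-(p / q : ℝ)) w) = w := by
    rw [hT.2 _ hR, ← S.R_add]
    simp [S.R_zero]
  have hT2 : T.symm w = S.R (-(p / q : ℝ)) w := by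
    conv_lhs => rw [← hT1]
    exact T.symm_apply_apply _
  rw [hK1 w hw, hT2]
  conv_lhs => rw [← hK1 _ hR]
  exact Kc.symm_apply_apply _

theorem sd2_flat (hq : 8 ≤ q) (Z : ℝ → ℝ) (hZ : IsZ q Z) (x : ℝ) (h1 : 1 ≤ x)
    (h2 : x ≤ q - 1) : Z x = q / 2 := by
  obtain ⟨hc, hm, hp, hflat, hlin⟩ := hZ
  first
  | exact hflat x h1 h2
  | (have e1 := hflat 1 le_rfl (by omega)
     have e2 := hflat (q - 1) (by omega) le_rfl
     have hq1 : 1 ≤ q := by omega
     push_cast [hq1] at e1 e2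
     have e3 := hm h1
     have e4 := hm h2
     linarith)

theorem sd2_k (hq : 8 ≤ q) (Z : ℝ → ℝ) (hZ : IsZ q Z) (θ : ℝ) (h0 : 0 ≤ θ) (h1 : θ < 1) :
    StrictMono (fun x => x + θ * (Z x - x)) ∧ ∀ v, ∃ y, y + θ * (Z y - y) = v := by
  obtain ⟨hc, hm, hp, hflat, hlin⟩ := hZ
  constructor
  · intro x y hxy
    have h2 := hm hxy.le
    have h3 : 0 < (1 - θ) * (y - x) := mul_pos (by linarith) (by linarith)
    have h4 : 0 ≤ θ * (Z y - Z x) := mul_nonneg h0 (by linarith)
    show x + θ * (Z x - x) < y + θ * (Z y - y)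
    nlinarith
  · intro v
    have hper : Function.Periodic (fun x => Z x - x) (q : ℝ) := by
      intro x
      show Z (x + q) - (x + q) = Z x - x
      rw [hp]; ring
    have hZ0 : Z 0 = 0 := by
      have := hlin 0 (by norm_num)
      rw [this]; ring
    have hk : ∀ m : ℤ, ((m : ℝ) * q) + θ * (Z ((m : ℝ) * q) - (m : ℝ) * q) = (m : ℝ) * q := by
      intro m
      have h2 := (hper.int_mul m) 0
      simp only [zero_add, hZ0, sub_zero] at h2
      rw [h2]; ring
    have hq1 : (1 : ℝ) ≤ q := by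
      have : 1 ≤ q := by omega
      exact_mod_cast this
    have hcont : Continuous (fun x => x + θ * (Z x - x)) := by fun_prop
    have hle : |v| ≤ (⌈|v|⌉ : ℝ) * q := by
      have h5 := Int.le_ceil |v|
      have h6 : 0 ≤ |v| := abs_nonneg v
      nlinarith
    have hab := abs_le.mp hle
    have h7 : (-⌈|v|⌉ : ℤ) * (q : ℝ) ≤ (⌈|v|⌉ : ℤ) * (q : ℝ) := by
      push_cast
      have h6 : 0 ≤ |v| := abs_nonneg v
      linarith
    have h8 := intermediate_value_Icc h7 hcont.continuousOn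
    have h9 : v ∈ Icc ((((-⌈|v|⌉ : ℤ) : ℝ) * (q : ℝ)) + θ * (Z (((-⌈|v|⌉ : ℤ) : ℝ) * (q : ℝ))
          - ((-⌈|v|⌉ : ℤ) : ℝ) * (q : ℝ)))
        (((⌈|v|⌉ : ℤ) * (q : ℝ)) + θ * (Z ((⌈|v|⌉ : ℤ) * (q : ℝ)) - (⌈|v|⌉ : ℤ) * (q : ℝ))) := by
      rw [hk, hk]
      push_cast
      constructor
      · linarith [hab.1]
      · exact hab.2
    obtain ⟨y, _, hy⟩ := h8 h9
    exact ⟨y, hy⟩

theorem sd2_TV (hq : 0 < q) (ω : ℝ → E → ℝ) (hω : ∀ τ r, ω (τ + 1) r = ω τ r)
    (T : M ≃ₜ M) (hT : S.IsTwist p q ω T) (z τ : ℝ) (r : E) :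
    T.symm (S.V p q z τ r) = S.V p q (z - ω τ r) τ r := by
  have hq' : (q : ℝ) ≠ 0 := by positivity
  unfold Model.V
  rw [sd2_Tsymm S p q hq ω hω T hT]
  have h1 : (q : ℝ) * ((p * z + τ) / q) - p * z = τ := by
    field_simp; ring
  rw [h1, S.Psi_eq]
  refine ⟨⟨-1, ?_⟩, ⟨0, ?_⟩, rfl⟩
  · push_cast; ring
  · push_cast
    field_simp
    ring

theorem sd2_in (hq : 0 < q) (ω : ℝ → E → ℝ) (hω : ∀ τ r, ω (τ + 1) r = ω τ r)
    (Z : ℝ → ℝ) (Kc T : M ≃ₜ M)
    (hK : S.IsCollapse p q (fun τ r => max 0 (1 - ω τ r)) Z Kc) (hT : S.IsTwist p q ω T)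
    (x τ : ℝ) (r : E) (hτ : |τ| < 1 / 2) (h1 : ω τ r < 1) (y : ℝ)
    (hy : y + (1 - ω τ r) * (Z y - y) = x + (1 - ω τ r) * (Z x - x) - ω τ r) :
    Kc.symm (T.symm (Kc (S.V p q x τ r))) = S.V p q y τ r := by
  have e : max 0 (1 - ω τ r) = 1 - ω τ r := max_eq_right (by linarith)
  have h2 : ∀ z, Kc (S.V p q z τ r) = S.V p q (z + (1 - ω τ r) * (Z z - z)) τ r := by
    intro z
    have := hK.1 z τ r hτ
    simpa only [e] using this
  rw [h2 x, sd2_TV S p q hq ω hω T hT, ← hy, ← h2 y, Kc.symm_apply_apply]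

end aux2

theorem sd_est2 {M : Type} [MetricSpace M] [CompactSpace M]
    {E : Type} [NormedAddCommGroup E] [NormedSpace ℝ E] [ProperSpace E]
    {F : Type} [NormedAddCommGroup F] [NormedSpace ℝ F] [ProperSpace F]
    {ι : Type} (S : Model M E F ι) (p : ℤ) (q : ℕ) (hq : 8 ≤ q) (hpq : IsCoprime p (q : ℤ))
    (η ω0 : ℝ) (hη : 0 < η) (hη2 : η < 1 / 8) (h0 : 0 < ω0) (h1 : ω0 < 1)
    (ω ψ : ℝ → E → ℝ) (hd : IsData η ω0 ω ψ) (Z : ℝ → ℝ) (hZ : IsZ q Z) (Kc T : M ≃ₜ M)
    (hK : S.IsCollapse p q (fun τ r => max 0 (1 - ω τ r)) Z Kc) (hT : S.IsTwist p q ω T) (w : M) :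
    (w ∉ S.box p q 2 η → Kc.symm (T.symm (Kc w)) = S.R (-(p / q : ℝ)) w ∨
      ∃ s t r a, ‖r‖ ≤ η ∧ |a| ≤ 4 * η ∧ w = S.Psi (s, t, r) ∧
        Kc.symm (T.symm (Kc w)) = S.Psi (s - a, t - (p / q : ℝ) - (p / q : ℝ) * a, r)) ∧
    (w ∈ S.box p q 2 η → Kc.symm (T.symm (Kc w)) ∈ S.cbox p q 4 η) := by
  have hq0 : 0 < q := by omega
  have hqR : (8 : ℝ) ≤ q := by exact_mod_cast hq
  have hq' : (q : ℝ) ≠ 0 := by positivity
  obtain ⟨_, _, hω, _, hlow, hup, hfar, hrad, _⟩ := hd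
  have hKZ := hZ
  have hflat := sd2_flat q hq Z hZ
  obtain ⟨hc, hm, hp, _, hlin⟩ := hZ
  constructor
  · intro hw
    by_cases hr : ∃ s t r, w = S.Psi (s, t, r)
    · obtain ⟨s, t, r, rfl⟩ := hr
      by_cases h : 1 ≤ ω (q * t - p * s) r
      · have e1 := sd2_K0 S p q hq0 hpq ω hω Z Kc hK s t r h
        have e2 := sd2_Tsymm S p q hq0 ω hω T hT s t r
        have e3 : Kc (S.Psi (s - (ω (q * t - p * s) r - 1),
            t - (p / q : ℝ) - (p / q : ℝ) * (ω (q * t - p * s) r - 1), r)) =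
            S.Psi (s - (ω (q * t - p * s) r - 1),
            t - (p / q : ℝ) - (p / q : ℝ) * (ω (q * t - p * s) r - 1), r) := by
          apply sd2_K0 S p q hq0 hpq ω hω Z Kc hK
          generalize ha : ω (q * t - p * s) r - 1 = a
          have h1 : (q : ℝ) * (t - (p / q : ℝ) - (p / q : ℝ) * a) - p * (s - a) =
              (q * t - p * s) + ((-p : ℤ) : ℝ) := by
            push_cast
            field_simp
            ring
          rw [h1, sd2_per ω hω]
          exact h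
        have e4 : Kc.symm (T.symm (Kc (S.Psi (s, t, r)))) =
            S.Psi (s - (ω (q * t - p * s) r - 1),
            t - (p / q : ℝ) - (p / q : ℝ) * (ω (q * t - p * s) r - 1), r) := by
          rw [e1, e2]
          conv_lhs => rw [← e3]
          exact Kc.symm_apply_apply _
        by_cases hrη : ‖r‖ ≤ η
        · right
          refine ⟨s, t, r, ω (q * t - p * s) r - 1, hrη, ?_, rfl, e4⟩
          rw [abs_of_nonneg (by linarith)]
          linarith [hup (q * t - p * s) r]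
        · left
          rw [e4, (hrad (q * t - p * s) r (not_le.mp hrη).le).1, S.Psi_R]
          simp [sub_eq_add_neg]
      · left
        push Not at h
        obtain ⟨x, hx⟩ := (psi_strip S p q hq0 hpq s t r).1
        have hy0 : |((q : ℝ) * t - p * s) - round ((q : ℝ) * t - p * s)| < η := by
          by_contra hcon
          have := hfar _ r (not_lt.mp hcon)
          linarith
        have hrη : ‖r‖ < η := by
          by_contra hcon
          have := (hrad ((q : ℝ) * t - p * s) r (not_lt.mp hcon)).1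
          linarith
        have hωτ : ω (((q : ℝ) * t - p * s) - round ((q : ℝ) * t - p * s)) r =
            ω ((q : ℝ) * t - p * s) r := by
          have := sd2_per ω hω (-round ((q : ℝ) * t - p * s)) ((q : ℝ) * t - p * s) r
          push_cast at this
          rw [← sub_eq_add_neg] at this
          exact this
        rw [← hωτ] at h
        rw [hx] at hw ⊢
        generalize ((q : ℝ) * t - p * s) - round ((q : ℝ) * t - p * s) = τ at *
        obtain ⟨n, hn1, hn2⟩ : ∃ n : ℤ, x - q * n ≤ q - 2 ∧ -2 < x - q * n := by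
          refine ⟨⌈(x - (q - 2)) / q⌉, ?_, ?_⟩
          · have h2 := Int.le_ceil ((x - ((q : ℝ) - 2)) / q)
            rw [div_le_iff₀ (by positivity)] at h2
            linarith
          · have h2 := Int.ceil_lt_add_one ((x - ((q : ℝ) - 2)) / q)
            have h3 : ((⌈(x - ((q : ℝ) - 2)) / q⌉ : ℤ) : ℝ) - 1 < (x - ((q : ℝ) - 2)) / q := by
              linarith
            rw [lt_div_iff₀ (by positivity)] at h3
            linarith
        have hVx : S.V p q x τ r = S.V p q (x - q * n) τ r := by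
          have := (V_add S p q hq0 x τ r (-n)).1
          rw [← this]
          congr 1
          push_cast; ring
        rw [hVx] at hw ⊢
        generalize x - q * n = x1 at *
        have hx1 : 2 ≤ x1 := by
          by_contra hcon
          apply hw
          exact ⟨x1, τ, r, abs_lt.mpr ⟨by linarith, by linarith⟩, hy0, hrη, rfl⟩
        have hZ1 : Z x1 = q / 2 := hflat x1 (by linarith) (by linarith)
        have hZ2 : Z (x1 - 1) = q / 2 := hflat (x1 - 1) (by linarith) (by linarith)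
        rw [sd2_in S p q hq0 ω hω Z Kc T hK hT x1 τ r (by linarith) h (x1 - 1)
          (by rw [hZ1, hZ2]; ring)]
        have h5 := (V_add S p q hq0 x1 τ r (-1)).2
        have h6 : (((-1 : ℤ) : ℝ) * (p / q : ℝ)) = -(p / q : ℝ) := by push_cast; ring
        have h7 : x1 + ((-1 : ℤ) : ℝ) = x1 - 1 := by push_cast; ring
        rw [h6, h7] at h5
        exact h5.symm
    · left
      push Not at hr
      exact sd2_out S p q ω Z Kc T hK hT w hr
  · rintro ⟨x, τ, r, hx, hτ, hrη, rfl⟩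
    have hVP : ∀ z, S.V p q z τ r = S.Psi (z, (p * z + τ) / q, r) := fun z => rfl
    have hqz : ∀ z : ℝ, (q : ℝ) * ((p * z + τ) / q) - p * z = τ := by
      intro z
      field_simp; ring
    by_cases h : 1 ≤ ω τ r
    · have hKV : ∀ z, Kc (S.V p q z τ r) = S.V p q z τ r := by
        intro z
        rw [hVP]
        apply sd2_K0 S p q hq0 hpq ω hω Z Kc hK
        rw [hqz]
        exact h
      have e4 : Kc.symm (T.symm (Kc (S.V p q x τ r))) = S.V p q (x - ω τ r) τ r := by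
        rw [hKV, sd2_TV S p q hq0 ω hω T hT]
        conv_lhs => rw [← hKV]
        exact Kc.symm_apply_apply _
      rw [e4]
      have h2 := hup τ r
      obtain ⟨hx1, hx2⟩ := abs_lt.mp hx
      exact ⟨x - ω τ r, τ, r, abs_le.mpr ⟨by linarith, by linarith⟩, hτ.le, hrη.le, rfl⟩
    · push Not at h
      have h3 := hlow τ r
      obtain ⟨hk1, hk2⟩ := sd2_k q hq Z hKZ (1 - ω τ r) (by linarith) (by linarith)
      obtain ⟨y, hy⟩ := hk2 (x + (1 - ω τ r) * (Z x - x) - ω τ r)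
      rw [sd2_in S p q hq0 ω hω Z Kc T hK hT x τ r (by linarith) h y hy]
      obtain ⟨hx1, hx2⟩ := abs_lt.mp hx
      have hZm3 : Z (-3) = -q / 2 := by
        have h4 := hp (-3)
        have h5 := hflat (-3 + q) (by linarith) (by linarith)
        linarith
      have hZm2 : Z (-2) = -q / 2 := by
        have h4 := hp (-2)
        have h5 := hflat (-2 + q) (by linarith) (by linarith)
        linarith
      have hZ1 : Z 1 = q / 2 := hflat 1 (by linarith) (by linarith)
      have hZ2 : Z 2 = q / 2 := hflat 2 (by linarith) (by linarith)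
      have hA : (-3 : ℝ) < y := by
        have h6 : (-2 : ℝ) + (1 - ω τ r) * (Z (-2) - (-2)) < x + (1 - ω τ r) * (Z x - x) :=
          hk1 hx1
        rw [hZm2] at h6
        have h7 : (-3 : ℝ) + (1 - ω τ r) * (Z (-3) - (-3)) < y + (1 - ω τ r) * (Z y - y) := by
          rw [hy, hZm3]
          linarith
        exact hk1.lt_iff_lt.mp h7
      have hB : y < 1 := by
        have h6 : x + (1 - ω τ r) * (Z x - x) < (2 : ℝ) + (1 - ω τ r) * (Z 2 - 2) :=
          hk1 hx2
        rw [hZ2] at h6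
        have h7 : y + (1 - ω τ r) * (Z y - y) < (1 : ℝ) + (1 - ω τ r) * (Z 1 - 1) := by
          rw [hy, hZ1]
          linarith
        exact hk1.lt_iff_lt.mp h7
      exact ⟨y, τ, r, abs_le.mpr ⟨by linarith, by linarith⟩, hτ.le, hrη.le, rfl⟩

end H56Mini
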