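import Pool.Agent.Helper56.Mini.Defs
import Pool.Agent.Helper56.Mini.P_R_homeo
import Pool.Agent.Helper56.Mini.P_psi_uc
import Pool.Agent.Helper56.Mini.P_inv_close
import Pool.Agent.Helper56.Mini.P_shear
import Pool.Agent.Helper56.Mini.P_V_add
import Pool.Agent.Helper56.Mini.P_exists_Z
import Pool.Agent.Helper56.Mini.P_collapse
import Pool.Agent.Helper56.Mini.P_exists_data
import Pool.Agent.Helper56.Mini.P_exists_twist
import Pool.Agent.Helper56.Mini.P_sd_conv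
import Pool.Agent.Helper56.Mini.P_sd_est1
import Pool.Agent.Helper56.Mini.P_sd_est2
import Pool.Agent.Helper56.Mini.P_sd_arc

set_option linter.all false

open Set Metric Topology Filter

namespace H56Mini



theorem sl_dir {M : Type} [MetricSpace M] [CompactSpace M]
    {E : Type} [NormedAddCommGroup E] [NormedSpace ℝ E] [ProperSpace E]
    {F : Type} [NormedAddCommGroup F] [NormedSpace ℝ F] [ProperSpace F]
    {ι : Type} (S : Model M E F ι) (p : ℤ) (q : ℕ) (hq : 0 < q) (η η' : ℝ) (hη' : η' ≤ η)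
    (hη'2 : η' < 1 / 8)
    (n : ℤ) (hn : |(n : ℝ)| ≤ 1) (b : ℝ) (hb : b = n * (p / q : ℝ)) (ε δ : ℝ) (hε : 0 < ε)
    (hδ : ∀ s t s' t' r, ‖r‖ ≤ 1 → |s' - s| < δ → |t' - t| < δ →
      dist (S.Psi (s', t', r)) (S.Psi (s, t, r)) < ε / 2)
    (hδη : 4 * η' < δ) (hδη2 : |(p / q : ℝ)| * (4 * η') < δ)
    (w y z : M) (hz : dist z y < ε / 2)
    (h1 : w ∉ S.box p q 2 η' → y = S.R b w ∨
      ∃ s t r a, ‖r‖ ≤ η' ∧ |a| ≤ 4 * η' ∧ w = S.Psi (s, t, r) ∧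
        y = S.Psi (s + a, t + b + (p / q : ℝ) * a, r))
    (h2 : w ∈ S.box p q 2 η' → y ∈ S.cbox p q 4 η') :
    (w ∉ S.box p q 2 η → dist z (S.R b w) < ε) ∧
      (w ∈ S.box p q 2 η → ∃ v ∈ S.cbox p q 4 η, dist z v < ε) := by
  have hA : w ∉ S.box p q 2 η' → dist z (S.R b w) < ε := by
    intro hw
    rcases h1 hw with h | ⟨s, t, r, a, hr, ha, hw', hy⟩
    · rw [← h]
      linarith
    · have h3 : dist y (S.R b w) < ε / 2 := by
        rw [hw', hy, S.Psi_R]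
        refine hδ _ _ _ _ _ (hr.trans (by linarith)) ?_ ?_
        · rw [add_sub_cancel_left]
          exact lt_of_le_of_lt ha hδη
        · rw [show t + b + (p / q : ℝ) * a - (t + b) = (p / q : ℝ) * a by ring, abs_mul]
          exact lt_of_le_of_lt (mul_le_mul_of_nonneg_left ha (abs_nonneg _)) hδη2
      calc dist z (S.R b w) ≤ dist z y + dist y (S.R b w) := dist_triangle _ _ _
        _ < ε := by linarith
  refine ⟨fun hw => hA fun hw' => hw ?_, fun hw => ?_⟩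
  · obtain ⟨x, τ, r, e1, e2, e3, e4⟩ := hw'
    exact ⟨x, τ, r, e1, e2.trans_le hη', e3.trans_le hη', e4⟩
  · by_cases hw' : w ∈ S.box p q 2 η'
    · obtain ⟨x, τ, r, e1, e2, e3, e4⟩ := h2 hw'
      exact ⟨y, ⟨x, τ, r, e1, e2.trans hη', e3.trans hη', e4⟩, by linarith⟩
    · refine ⟨S.R b w, ?_, hA hw'⟩
      obtain ⟨x, τ, r, e1, e2, e3, e4⟩ := hw
      refine ⟨x + n, τ, r, ?_, e2.le, e3.le, ?_⟩
      · calc |x + n| ≤ |x| + |(n : ℝ)| := abs_add_le _ _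
          _ ≤ 4 := by linarith
      · rw [e4, hb]
        exact (V_add S p q hq x τ r n).2

theorem slowdown {M : Type} [MetricSpace M] [CompactSpace M]
    {E : Type} [NormedAddCommGroup E] [NormedSpace ℝ E] [ProperSpace E]
    {F : Type} [NormedAddCommGroup F] [NormedSpace ℝ F] [ProperSpace F]
    {ι : Type} (S : Model M E F ι) (p : ℤ) (q : ℕ) (hq : 8 ≤ q) (hpq : IsCoprime p (q : ℤ))
    (η : ℝ) (hη : 0 < η) (ε : ℝ) (hε : 0 < ε) :
    ∃ (h : M ≃ₜ M) (p' : ℤ) (q' : ℕ), q ≤ q' ∧ IsCoprime p' (q' : ℤ) ∧ h S.pt = S.pt ∧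
      (∀ x : ℝ, |x| ≤ 4 → dist (h (S.Psi (x, (p' / q' : ℝ) * x, 0))) S.pt < ε) ∧
      (∀ w, w ∉ S.box p q 2 η →
        dist (S.conj h (p' / q' : ℝ) w) (S.R (p / q : ℝ) w) < ε ∧
        dist (S.conj h (-(p' / q' : ℝ)) w) (S.R (-(p / q : ℝ)) w) < ε) ∧
      (∀ w, w ∈ S.box p q 2 η →
        (∃ v ∈ S.cbox p q 4 η, dist (S.conj h (p' / q' : ℝ) w) v < ε) ∧
        (∃ v ∈ S.cbox p q 4 η, dist (S.conj h (-(p' / q' : ℝ)) w) v < ε)) := by
  have hq0 : 0 < q := by omega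
  have hqR : (0 : ℝ) < q := by exact_mod_cast hq0
  obtain ⟨δ, hδ0, hδ⟩ := psi_uc S 1 (ε / 2) (by linarith)
  set P : ℝ := |(p / q : ℝ)| with hP
  have hP0 : 0 ≤ P := abs_nonneg _
  obtain ⟨η', hη'0, hη'η, hη'2, hη'3, hη'4⟩ : ∃ η' : ℝ, 0 < η' ∧ η' ≤ η ∧ η' < 1 / 8 ∧
      4 * η' < δ ∧ P * (4 * η') < δ := by
    refine ⟨min η (min (1 / 16) (δ / (8 * (1 + P)))), ?_, min_le_left _ _, ?_, ?_, ?_⟩
    · exact lt_min hη (lt_min (by norm_num) (by positivity))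
    · calc min η (min (1 / 16) (δ / (8 * (1 + P)))) ≤ 1 / 16 :=
          (min_le_right _ _).trans (min_le_left _ _)
        _ < 1 / 8 := by norm_num
    · have h1 : min η (min (1 / 16) (δ / (8 * (1 + P)))) ≤ δ / (8 * (1 + P)) :=
        (min_le_right _ _).trans (min_le_right _ _)
      have h2 : δ / (8 * (1 + P)) ≤ δ / 8 := by
        apply div_le_div_of_nonneg_left hδ0.le (by norm_num)
        linarith
      linarith
    · have h1 : min η (min (1 / 16) (δ / (8 * (1 + P)))) ≤ δ / (8 * (1 + P)) :=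
        (min_le_right _ _).trans (min_le_right _ _)
      have h2 : P * (4 * (δ / (8 * (1 + P)))) < δ := by
        rw [show P * (4 * (δ / (8 * (1 + P)))) = (P * δ) / (2 * (1 + P)) by field_simp; ring,
          div_lt_iff₀ (by positivity)]
        nlinarith
      have h3 := mul_le_mul_of_nonneg_left (mul_le_mul_of_nonneg_left h1 (by norm_num : (0:ℝ) ≤ 4))
        hP0
      linarith
  obtain ⟨Z, hZ⟩ := exists_Z q hq
  obtain ⟨κ, hκ0, hκ1, hκ⟩ := sd_arc S p q hq hpq η' hη'0 hη'2 Z hZ ε hε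
  obtain ⟨ω, ψ, hd⟩ := exists_data (E := E) η' κ hη'0 hη'2 hκ0 hκ1
  obtain ⟨hωc, hψc, hωp, hψp, hω0, hω1, hωout, hωr, hω00, hψ00, hdconv, hdlin⟩ := hd
  have hd : IsData η' κ ω ψ :=
    ⟨hωc, hψc, hωp, hψp, hω0, hω1, hωout, hωr, hω00, hψ00, hdconv, hdlin⟩
  obtain ⟨N1, hN1⟩ := hκ κ hκ0 le_rfl ω ψ hd
  obtain ⟨Kc, hKc⟩ := collapse S p q hq hpq (fun τ r => max 0 (1 - ω τ r))
    (continuous_const.max (continuous_const.sub hωc)) (fun τ r => le_max_left _ _)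
    (fun τ r => max_lt one_pos (by linarith [hω0 τ r])) η' hη'0 (by linarith)
    (by
      intro τ r hτ h
      apply max_eq_left
      rcases h with h | h
      · have hr : round τ = 0 := by
          rw [round_eq_zero_iff]
          rw [abs_lt] at hτ
          constructor <;> linarith [hτ.1, hτ.2]
        have h1 := hωout τ r (by rw [hr]; simpa using h)
        linarith
      · linarith [(hωr τ r h).1]) Z hZ
  obtain ⟨T, hT⟩ := exists_twist S p q hq0 η' κ ω ψ hd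
  -- uniform continuity
  obtain ⟨δ1, hδ1, hKuc⟩ := Metric.uniformContinuous_iff.1
    (CompactSpace.uniformContinuous_of_continuous Kc.symm.continuous) (ε / 2) (by linarith)
  obtain ⟨δ2, hδ2, hinv⟩ := inv_close T δ1 hδ1
  obtain ⟨N2, hN2⟩ := sd_conv S p q hq0 η' κ ω ψ hd (min δ1 δ2) (lt_min hδ1 hδ2)
  set N : ℕ := q * (N1 + N2 + 1) with hN
  have hNpos : 0 < N := by positivity
  have hNge : N1 + N2 + 1 ≤ N := Nat.le_mul_of_pos_left _ hq0
  have hNR : (0 : ℝ) < N := by exact_mod_cast hNpos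
  obtain ⟨Θ, hΘ⟩ := shear S p q hq0 (fun τ r => N * ψ τ r) (continuous_const.mul hψc)
    (fun τ r => by
      change (N : ℝ) * ψ (τ + 1) r = N * ψ τ r
      rw [hψp]) η' (fun τ r h => by
      change (N : ℝ) * ψ τ r = 0
      rw [(hωr τ r h).2, mul_zero])
  have hslope : (((p * N + 1 : ℤ) : ℝ) / ((q * N : ℕ) : ℝ)) = (p / q : ℝ) + 1 / (q * N) := by
    push_cast
    field_simp
  have hcl := hN2 N (by omega) hNpos Θ T hΘ hT
  obtain ⟨Rh, hRh, hRhs⟩ := R_homeo S ((p / q : ℝ) + 1 / (q * N))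
  have hg : ∀ w, ((Θ.symm.trans Rh).trans Θ) w =
      Θ (S.R ((p / q : ℝ) + 1 / (q * N)) (Θ.symm w)) := fun w => by
    change Θ (Rh (Θ.symm w)) = _
    rw [hRh]
  have hgs : ∀ w, ((Θ.symm.trans Rh).trans Θ).symm w =
      Θ (S.R (-((p / q : ℝ) + 1 / (q * N))) (Θ.symm w)) := fun w => by
    change Θ (Rh.symm (Θ.symm w)) = _
    rw [hRhs]
  have hcl2 := hinv ((Θ.symm.trans Rh).trans Θ) (fun w => by
    rw [hg]
    exact (hcl w).trans_le (min_le_right _ _))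
  have hc1 : ∀ w, S.conj (Θ.trans Kc.symm) (((p * N + 1 : ℤ) : ℝ) / ((q * N : ℕ) : ℝ)) w =
      Kc.symm (Θ (S.R ((p / q : ℝ) + 1 / (q * N)) (Θ.symm (Kc w)))) := by
    intro w
    rw [hslope]
    rfl
  have hc2 : ∀ w, S.conj (Θ.trans Kc.symm) (-(((p * N + 1 : ℤ) : ℝ) / ((q * N : ℕ) : ℝ))) w =
      Kc.symm (Θ (S.R (-((p / q : ℝ) + 1 / (q * N))) (Θ.symm (Kc w)))) := by
    intro w
    rw [hslope]
    rfl
  have hd1 : ∀ w, dist (S.conj (Θ.trans Kc.symm) (((p * N + 1 : ℤ) : ℝ) / ((q * N : ℕ) : ℝ)) w)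
      (Kc.symm (T (Kc w))) < ε / 2 := by
    intro w
    rw [hc1]
    exact hKuc ((hcl (Kc w)).trans_le (min_le_left _ _))
  have hd2 : ∀ w, dist (S.conj (Θ.trans Kc.symm)
      (-(((p * N + 1 : ℤ) : ℝ) / ((q * N : ℕ) : ℝ))) w)
      (Kc.symm (T.symm (Kc w))) < ε / 2 := by
    intro w
    rw [hc2, ← hgs]
    exact hKuc (hcl2 (Kc w))
  have hdir1 : ∀ w, (w ∉ S.box p q 2 η → dist (S.conj (Θ.trans Kc.symm)
      (((p * N + 1 : ℤ) : ℝ) / ((q * N : ℕ) : ℝ)) w) (S.R (p / q : ℝ) w) < ε) ∧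
      (w ∈ S.box p q 2 η → ∃ v ∈ S.cbox p q 4 η, dist (S.conj (Θ.trans Kc.symm)
      (((p * N + 1 : ℤ) : ℝ) / ((q * N : ℕ) : ℝ)) w) v < ε) := by
    intro w
    obtain ⟨e1, e2⟩ := sd_est1 S p q hq hpq η' κ hη'0 hη'2 hκ0 hκ1 ω ψ hd Z hZ Kc T hKc hT w
    refine sl_dir S p q hq0 η η' hη'η hη'2 1 (by simp) (p / q : ℝ) (by simp) ε δ hε hδ hη'3 hη'4
      w _ _ (hd1 w) ?_ e2
    intro hw
    exact e1 hw
  have hdir2 : ∀ w, (w ∉ S.box p q 2 η → dist (S.conj (Θ.trans Kc.symm)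
      (-(((p * N + 1 : ℤ) : ℝ) / ((q * N : ℕ) : ℝ))) w) (S.R (-(p / q : ℝ)) w) < ε) ∧
      (w ∈ S.box p q 2 η → ∃ v ∈ S.cbox p q 4 η, dist (S.conj (Θ.trans Kc.symm)
      (-(((p * N + 1 : ℤ) : ℝ) / ((q * N : ℕ) : ℝ))) w) v < ε) := by
    intro w
    obtain ⟨e1, e2⟩ := sd_est2 S p q hq hpq η' κ hη'0 hη'2 hκ0 hκ1 ω ψ hd Z hZ Kc T hKc hT w
    refine sl_dir S p q hq0 η η' hη'η hη'2 (-1) (by simp) (-(p / q : ℝ)) (by push_cast; ring) ε δ hε
      hδ hη'3 hη'4 w _ _ (hd2 w) ?_ e2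
    intro hw
    rcases e1 hw with h | ⟨s, t, r, a, hr, ha, hw', hy⟩
    · exact Or.inl h
    · refine Or.inr ⟨s, t, r, -a, hr, by rwa [abs_neg], hw', ?_⟩
      rw [hy]
      have e3 : t + -(p / q : ℝ) + (p / q : ℝ) * -a = t - (p / q : ℝ) - (p / q : ℝ) * a := by ring
      rw [e3, ← sub_eq_add_neg s a]
  refine ⟨Θ.trans Kc.symm, p * N + 1, q * N, Nat.le_mul_of_pos_right _ hNpos, ?_, ?_, ?_, ?_, ?_⟩
  · have hc3 : IsCoprime (p * N + 1 : ℤ) (N : ℤ) := ⟨1, -p, by ring⟩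
    have hc4 : IsCoprime (p * N + 1 : ℤ) (q : ℤ) :=
      ⟨1, -(p * (N1 + N2 + 1 : ℕ)), by rw [hN]; push_cast; ring⟩
    push_cast
    exact hc4.mul_right hc3
  · have h1 : Θ S.pt = S.pt := by
      unfold Model.pt
      rw [hΘ.1]
      simp only [mul_zero, sub_zero, hψ00, add_zero]
    have h2 : Kc S.pt = S.pt := by
      have e0 : S.pt = S.V p q 0 0 0 := by
        unfold Model.pt Model.V
        simp
      have hZ0 : Z 0 = 0 := by
        rw [hZ.2.2.2.2 0 (by simp)]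
        simp
      rw [e0, hKc.1 0 0 0 (by norm_num), hZ0]
      simp
    change Kc.symm (Θ S.pt) = S.pt
    rw [h1]
    conv_lhs => rw [← h2]
    exact Kc.symm_apply_apply _
  · intro x hx
    rw [hslope]
    exact hN1 N (by omega) hNpos Θ Kc hΘ hKc x hx
  · intro w hw
    exact ⟨(hdir1 w).1 hw, (hdir2 w).1 hw⟩
  · intro w hw
    exact ⟨(hdir1 w).2 hw, (hdir2 w).2 hw⟩

end H56Mini
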