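import Pool.Agent.Helper56.Mini.Defs
import Pool.Agent.Helper56.Mini.P_slowdown
import Pool.Agent.Helper56.Mini.P_close_trans
import Pool.Agent.Helper56.Mini.P_cov_all
import Pool.Agent.Helper56.Mini.P_rv

set_option linter.all false

open Set Metric Topology Filter

namespace H56Mini



theorem stage_box {M : Type} [MetricSpace M] [CompactSpace M]
    {E : Type} [NormedAddCommGroup E] [NormedSpace ℝ E] [ProperSpace E]
    {F : Type} [NormedAddCommGroup F] [NormedSpace ℝ F] [ProperSpace F]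
    {ι : Type} (S : Model M E F ι) (p : ℤ) (q : ℕ) (hq : 0 < q) (η : ℝ) (hη : 0 < η) (v : M)
    (hv : v ∈ S.box p q 2 η) :
    S.R (p / q : ℝ) v ∈ S.cbox p q 4 (2 * η) ∧ S.R (-(p / q : ℝ)) v ∈ S.cbox p q 4 (2 * η) := by
  obtain ⟨x, τ, r, hx, hτ, hr, rfl⟩ := hv
  have hq' : (q : ℝ) ≠ 0 := by exact_mod_cast hq.ne'
  rw [abs_lt] at hx
  constructor
  · refine ⟨x + 1, τ, r, ?_, by linarith, by linarith, ?_⟩
    · rw [abs_le]; constructor <;> linarith [hx.1, hx.2]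
    · unfold Model.V
      rw [S.Psi_R]
      rw [S.Psi_eq]
      refine ⟨⟨1, by push_cast; ring⟩, ⟨0, ?_⟩, rfl⟩
      push_cast
      field_simp
      ring
  · refine ⟨x - 1, τ, r, ?_, by linarith, by linarith, ?_⟩
    · rw [abs_le]; constructor <;> linarith [hx.1, hx.2]
    · unfold Model.V
      rw [S.Psi_R]
      rw [S.Psi_eq]
      refine ⟨⟨-1, by push_cast; ring⟩, ⟨0, ?_⟩, rfl⟩
      push_cast
      field_simp
      ring

theorem stage_cbox {M : Type} [MetricSpace M] [CompactSpace M]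
    {E : Type} [NormedAddCommGroup E] [NormedSpace ℝ E] [ProperSpace E]
    {F : Type} [NormedAddCommGroup F] [NormedSpace ℝ F] [ProperSpace F]
    {ι : Type} (S : Model M E F ι) (p : ℤ) (q : ℕ) (η : ℝ) (hη : 0 < η) (v : M)
    (hv : v ∈ S.cbox p q 4 η) : v ∈ S.cbox p q 4 (2 * η) := by
  obtain ⟨x, τ, r, hx, hτ, hr, rfl⟩ := hv
  exact ⟨x, τ, r, hx, by linarith, by linarith, rfl⟩

theorem stage {M : Type} [MetricSpace M] [CompactSpace M]
    {E : Type} [NormedAddCommGroup E] [NormedSpace ℝ E] [ProperSpace E]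
    {F : Type} [NormedAddCommGroup F] [NormedSpace ℝ F] [ProperSpace F]
    {ι : Type} [Finite ι] [Nonempty ι] (S : Model M E F ι) (H : M ≃ₜ M) (p : ℤ) (q : ℕ)
    (ρ : ℝ) (hS : S.State H p q ρ) (η : ℝ) (hη : 0 < η) (hη2 : η < 1 / 8)
    (hth : ∀ w ∈ S.cbox p q 4 (2 * η), dist (H w) S.pt < ρ) (U : Set M) (hU : IsOpen U)
    (hne : U.Nonempty) (ε : ℝ) (hε : 0 < ε) :
    ∃ (H' : M ≃ₜ M) (p' : ℤ) (q' : ℕ), S.State H' p' q' ε ∧ S.RV H' p' q' U ∧
      (∀ w, dist (S.conj H' (p' / q' : ℝ) w) (S.conj H (p / q : ℝ) w) < 3 * ρ ∧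
        dist (S.conj H' (-(p' / q' : ℝ)) w) (S.conj H (-(p / q : ℝ)) w) < 3 * ρ) ∧
      (∀ w, H.symm w ∉ S.box p q 2 η →
        dist (S.conj H' (p' / q' : ℝ) w) (S.conj H (p / q : ℝ) w) < ε ∧
        dist (S.conj H' (-(p' / q' : ℝ)) w) (S.conj H (-(p / q : ℝ)) w) < ε) := by
  obtain ⟨hcop, hq8, hHpt, hρ, harcs⟩ := hS
  have hδ : 0 < min (ε / 4) (ρ / 4) := lt_min (by linarith) (by linarith)
  have hδ1 : min (ε / 4) (ρ / 4) ≤ ε / 4 := min_le_left _ _
  have hδ2 : min (ε / 4) (ρ / 4) ≤ ρ / 4 := min_le_right _ _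
  set δ := min (ε / 4) (ρ / 4) with hδdef
  have hHuc : UniformContinuous H := CompactSpace.uniformContinuous_of_continuous H.continuous
  obtain ⟨ε1, hε1, huc⟩ := Metric.uniformContinuous_iff.mp hHuc δ hδ
  obtain ⟨h, p1, q1, hq1, hcop1, hhpt, harc1, hoff, hin⟩ := slowdown S p q hq8 hcop η hη ε1 hε1
  set H1 : M ≃ₜ M := h.trans H with hH1
  have hconj : ∀ a w, S.conj H1 a w = H (S.conj h a (H.symm w)) := fun a w => rfl
  have hconj0 : ∀ a w, S.conj H a w = H (S.R a (H.symm w)) := fun a w => rfl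
  have hS1 : S.State H1 p1 q1 ε := by
    refine ⟨hcop1, by omega, ?_, hε, ?_⟩
    · show H (h S.pt) = S.pt
      rw [hhpt, hHpt]
    · intro x hx
      have h1 := huc (harc1 x hx)
      rw [hHpt] at h1
      have h2 : H1 (S.Psi (x, (p1 / q1 : ℝ) * x, 0)) = H (h (S.Psi (x, (p1 / q1 : ℝ) * x, 0))) := rfl
      rw [h2]
      linarith
  obtain ⟨H2, p2, q2, hq2, hS2, hcl2, hcov2⟩ := cov_all S H1 p1 q1 ε hS1 U hU hne δ hδ
  obtain ⟨p', q', hq', hS3, hcl3, hrv⟩ := rv S H2 p2 q2 ε hS2 U hU hcov2 δ hδ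
  have hcl := close_trans S H1 H2 H2 _ _ _ _ _ hcl2 hcl3
  obtain ⟨hc1, hc2⟩ := hcl
  -- off the box
  have hoffb : ∀ w, H.symm w ∉ S.box p q 2 η →
      dist (S.conj H2 (p' / q' : ℝ) w) (S.conj H (p / q : ℝ) w) < 3 * δ ∧
      dist (S.conj H2 (-(p' / q' : ℝ)) w) (S.conj H (-(p / q : ℝ)) w) < 3 * δ := by
    intro w hw
    obtain ⟨g1, g2⟩ := hoff _ hw
    have g1' := huc g1
    have g2' := huc g2
    rw [← hconj, ← hconj0] at g1' g2'
    constructor
    · have := dist_triangle (S.conj H2 (p' / q' : ℝ) w) (S.conj H1 (p1 / q1 : ℝ) w)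
        (S.conj H (p / q : ℝ) w)
      have := hc1 w
      linarith
    · have := dist_triangle (S.conj H2 (-(p' / q' : ℝ)) w) (S.conj H1 (-(p1 / q1 : ℝ)) w)
        (S.conj H (-(p / q : ℝ)) w)
      have := hc2 w
      linarith
  refine ⟨H2, p', q', hS3, hrv, ?_, ?_⟩
  · intro w
    by_cases hw : H.symm w ∈ S.box p q 2 η
    · obtain ⟨⟨v1, hv1, g1⟩, ⟨v2, hv2, g2⟩⟩ := hin _ hw
      have g1' := huc g1
      have g2' := huc g2
      rw [← hconj] at g1' g2'
      have k1 := hth v1 (stage_cbox S p q η hη v1 hv1)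
      have k2 := hth v2 (stage_cbox S p q η hη v2 hv2)
      obtain ⟨b1, b2⟩ := stage_box S p q (by omega) η hη _ hw
      have l1 := hth _ b1
      have l2 := hth _ b2
      rw [← hconj0] at l1 l2
      constructor
      · have t1 := dist_triangle (S.conj H2 (p' / q' : ℝ) w) (S.conj H1 (p1 / q1 : ℝ) w)
          (S.conj H (p / q : ℝ) w)
        have t2 := dist_triangle (S.conj H1 (p1 / q1 : ℝ) w) (H v1) (S.conj H (p / q : ℝ) w)
        have t3 := dist_triangle_right (H v1) (S.conj H (p / q : ℝ) w) S.pt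
        have := hc1 w
        linarith
      · have t1 := dist_triangle (S.conj H2 (-(p' / q' : ℝ)) w) (S.conj H1 (-(p1 / q1 : ℝ)) w)
          (S.conj H (-(p / q : ℝ)) w)
        have t2 := dist_triangle (S.conj H1 (-(p1 / q1 : ℝ)) w) (H v2) (S.conj H (-(p / q : ℝ)) w)
        have t3 := dist_triangle_right (H v2) (S.conj H (-(p / q : ℝ)) w) S.pt
        have := hc2 w
        linarith
    · obtain ⟨g1, g2⟩ := hoffb w hw
      constructor <;> linarith
  · intro w hw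
    obtain ⟨g1, g2⟩ := hoffb w hw
    constructor <;> linarith

end H56Mini
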