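import Pool.Agent.Helper56.Mini.Defs

set_option linter.all false

open Set Metric Topology Filter

namespace H56Mini



theorem thick {M : Type} [MetricSpace M] [CompactSpace M]
    {E : Type} [NormedAddCommGroup E] [NormedSpace ℝ E] [ProperSpace E]
    {F : Type} [NormedAddCommGroup F] [NormedSpace ℝ F] [ProperSpace F]
    {ι : Type} (S : Model M E F ι) (H : M ≃ₜ M) (p : ℤ) (q : ℕ) (ρ : ℝ)
    (hS : S.State H p q ρ) :
    ∃ η : ℝ, 0 < η ∧ η < 1 / 8 ∧ ∀ w ∈ S.cbox p q 4 (2 * η), dist (H w) S.pt < ρ := by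
  obtain ⟨-, hq, hpt, hρ, harc⟩ := hS
  have hc : Continuous (fun z : (ℝ × E) × ℝ => dist (H (S.V p q z.2 z.1.1 z.1.2)) S.pt) := by
    refine Continuous.dist (H.continuous.comp ?_) continuous_const
    unfold Model.V
    refine S.Psi_cont.comp ?_
    fun_prop
  have hev : ∀ᶠ z : ℝ × E in 𝓝 ((0 : ℝ), (0 : E)), ∀ x ∈ Icc (-4 : ℝ) 4,
      dist (H (S.V p q x z.1 z.2)) S.pt < ρ := by
    apply IsCompact.eventually_forall_of_forall_eventually isCompact_Icc
    intro x hx
    have h0 : dist (H (S.V p q x 0 0)) S.pt < ρ := by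
      have := harc x (abs_le.mpr hx)
      unfold Model.V
      have he : ((p : ℝ) * x + 0) / q = (p / q : ℝ) * x := by ring
      rw [he]
      exact this
    exact hc.continuousAt.eventually (gt_mem_nhds h0)
  rw [Metric.eventually_nhds_iff] at hev
  obtain ⟨ε, hε, hev⟩ := hev
  refine ⟨min (ε / 4) (1 / 16), by positivity, lt_of_le_of_lt (min_le_right _ _) (by norm_num), ?_⟩
  rintro w ⟨x, τ, r, hx, hτ, hr, rfl⟩
  have h1 : 2 * min (ε / 4) (1 / 16) ≤ ε / 2 := by
    have := min_le_left (ε / 4) (1 / 16 : ℝ)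
    linarith
  have h2 : dist ((τ, r) : ℝ × E) (0, 0) < ε := by
    rw [Prod.dist_eq]
    simp only [dist_zero_right, Real.norm_eq_abs]
    exact max_lt (by linarith) (by linarith)
  exact hev h2 x (abs_le.mp hx)

end H56Mini
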