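import Pool.Agent.Helper56.Mini.Defs
import Pool.Agent.Helper56.Mini.P_R_homeo
import Pool.Agent.Helper56.Mini.P_cov_all
import Pool.Agent.Helper56.Mini.P_rv
import Pool.Agent.Helper56.Mini.P_thick
import Pool.Agent.Helper56.Mini.P_qlem
import Pool.Agent.Helper56.Mini.P_stage
import Pool.Agent.Helper56.Mini.P_init_state

set_option linter.all false

open Set Metric Topology Filter

namespace H56Mini



/-- the data of one stage -/
structure SeqDat {M : Type} [MetricSpace M] [CompactSpace M]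
    {E : Type} [NormedAddCommGroup E] [NormedSpace ℝ E] [ProperSpace E]
    {F : Type} [NormedAddCommGroup F] [NormedSpace ℝ F] [ProperSpace F]
    {ι : Type} (S : Model M E F ι) (U : Set M) where
  H : M ≃ₜ M
  p : ℤ
  q : ℕ
  ρ : ℝ
  hS : S.State H p q ρ
  hrv : S.RV H p q U
  η : ℝ
  hη : 0 < η
  hη2 : η < 1 / 8
  hth : ∀ w ∈ S.cbox p q 4 (2 * η), dist (H w) S.pt < ρ
  δ : ℝ
  hδ : 0 < δ
  hq : ∀ g : M ≃ₜ M,
      (∀ y, H.symm y ∉ S.cbox p q 2 η → dist (g y) (S.conj H (p / q : ℝ) y) < δ ∧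
        dist (g.symm y) (S.conj H (-(p / q : ℝ)) y) < δ) →
      ∀ x, H.symm x ∉ S.box p q (5 / 2) (2 * η) → ∃ k : ℤ, (g ^ k) x ∈ U

theorem seqDat_exists {M : Type} [MetricSpace M] [CompactSpace M]
    {E : Type} [NormedAddCommGroup E] [NormedSpace ℝ E] [ProperSpace E]
    {F : Type} [NormedAddCommGroup F] [NormedSpace ℝ F] [ProperSpace F]
    {ι : Type} (S : Model M E F ι) (U : Set M) (hU : IsOpen U) (H : M ≃ₜ M) (p : ℤ) (q : ℕ)
    (ρ : ℝ) (hS : S.State H p q ρ) (hrv : S.RV H p q U) :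
    ∃ d : SeqDat S U, d.H = H ∧ d.p = p ∧ d.q = q ∧ d.ρ = ρ := by
  obtain ⟨η, hη, hη2, hth⟩ := thick S H p q ρ hS
  obtain ⟨δ, hδ, hq⟩ := qlem S H p q hS.2.1 hS.1 U hU hrv η hη hη2
  exact ⟨⟨H, p, q, ρ, hS, hrv, η, hη, hη2, hth, δ, hδ, hq⟩, rfl, rfl, rfl, rfl⟩

theorem seqDat_step {M : Type} [MetricSpace M] [CompactSpace M]
    {E : Type} [NormedAddCommGroup E] [NormedSpace ℝ E] [ProperSpace E]
    {F : Type} [NormedAddCommGroup F] [NormedSpace ℝ F] [ProperSpace F]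
    {ι : Type} [Finite ι] [Nonempty ι] (S : Model M E F ι) (U U' : Set M)
    (hU' : IsOpen U') (hne' : U'.Nonempty) (d : SeqDat S U) :
    ∃ d' : SeqDat S U', d'.ρ = min d.ρ d.δ / 16 ∧
      (∀ w, dist (S.conj d'.H (d'.p / d'.q : ℝ) w) (S.conj d.H (d.p / d.q : ℝ) w) < 3 * d.ρ ∧
        dist (S.conj d'.H (-(d'.p / d'.q : ℝ)) w) (S.conj d.H (-(d.p / d.q : ℝ)) w) < 3 * d.ρ) ∧
      (∀ w, d.H.symm w ∉ S.box d.p d.q 2 d.η →
        dist (S.conj d'.H (d'.p / d'.q : ℝ) w) (S.conj d.H (d.p / d.q : ℝ) w) < d'.ρ ∧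
        dist (S.conj d'.H (-(d'.p / d'.q : ℝ)) w) (S.conj d.H (-(d.p / d.q : ℝ)) w) < d'.ρ) := by
  have hε : 0 < min d.ρ d.δ / 16 := by
    have h1 : 0 < d.ρ := d.hS.2.2.2.1
    have h2 := d.hδ
    have := lt_min h1 h2
    positivity
  obtain ⟨H', p', q', h1, h2, h3, h4⟩ := stage S d.H d.p d.q d.ρ d.hS d.η d.hη d.hη2 d.hth U'
    hU' hne' _ hε
  obtain ⟨d', e1, e2, e3, e4⟩ := seqDat_exists S U' hU' H' p' q' _ h1 h2
  refine ⟨d', e4, ?_, ?_⟩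
  · rw [e1, e2, e3]; exact h3
  · rw [e1, e2, e3, e4]; exact h4

theorem seqDat_init {M : Type} [MetricSpace M] [CompactSpace M]
    {E : Type} [NormedAddCommGroup E] [NormedSpace ℝ E] [ProperSpace E]
    {F : Type} [NormedAddCommGroup F] [NormedSpace ℝ F] [ProperSpace F]
    {ι : Type} [Finite ι] [Nonempty ι] (S : Model M E F ι) (U : Set M)
    (hU : IsOpen U) (hne : U.Nonempty) : Nonempty (SeqDat S U) := by
  obtain ⟨ρ, h0⟩ := init_state S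
  obtain ⟨H', p', q', -, h1, -, h2⟩ := cov_all S (Homeomorph.refl M) 1 8 ρ h0 U hU hne 1 one_pos
  obtain ⟨p'', q'', -, h3, -, h4⟩ := rv S H' p' q' ρ h1 U hU h2 1 one_pos
  obtain ⟨d, -⟩ := seqDat_exists S U hU H' p'' q'' ρ h3 h4
  exact ⟨d⟩

theorem seqDat_pt {M : Type} [MetricSpace M] [CompactSpace M]
    {E : Type} [NormedAddCommGroup E] [NormedSpace ℝ E] [ProperSpace E]
    {F : Type} [NormedAddCommGroup F] [NormedSpace ℝ F] [ProperSpace F]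
    {ι : Type} (S : Model M E F ι) (H : M ≃ₜ M) (p : ℤ) (q : ℕ) (ρ : ℝ)
    (hS : S.State H p q ρ) : dist (S.conj H (p / q : ℝ) S.pt) S.pt < ρ := by
  obtain ⟨-, -, h1, -, h2⟩ := hS
  have h3 : H.symm S.pt = S.pt := by
    rw [Homeomorph.symm_apply_eq]; exact h1.symm
  have h4 : S.R (p / q : ℝ) S.pt = S.Psi (1, (p / q : ℝ) * 1, 0) := by
    show S.R (p / q : ℝ) (S.Psi (0, 0, 0)) = _
    rw [S.Psi_R, S.Psi_eq]
    exact ⟨⟨1, by norm_num⟩, ⟨0, by simp⟩, rfl⟩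
  show dist (H (S.R (p / q : ℝ) (H.symm S.pt))) S.pt < ρ
  rw [h3, h4]
  exact h2 1 (by norm_num)

theorem box_sub_cbox {M : Type} [MetricSpace M] [CompactSpace M]
    {E : Type} [NormedAddCommGroup E] [NormedSpace ℝ E] [ProperSpace E]
    {F : Type} [NormedAddCommGroup F] [NormedSpace ℝ F] [ProperSpace F]
    {ι : Type} (S : Model M E F ι) (p : ℤ) (q : ℕ) {c c' η : ℝ} (hc : c ≤ c') {w : M}
    (hw : w ∈ S.box p q c η) : w ∈ S.cbox p q c' η := by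
  obtain ⟨x, τ, r, h1, h2, h3, h4⟩ := hw
  exact ⟨x, τ, r, h1.le.trans hc, h2.le, h3.le, h4⟩

theorem exists_seq {M : Type} [MetricSpace M] [CompactSpace M]
    {E : Type} [NormedAddCommGroup E] [NormedSpace ℝ E] [ProperSpace E]
    {F : Type} [NormedAddCommGroup F] [NormedSpace ℝ F] [ProperSpace F]
    {ι : Type} [Finite ι] [Nonempty ι] (S : Model M E F ι) (U : ℕ → Set M)
    (hU : ∀ n, IsOpen (U n)) (hne : ∀ n, (U n).Nonempty) :
    ∃ (f : ℕ → (M ≃ₜ M)) (ρ δ : ℕ → ℝ) (A X : ℕ → Set M),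
      (∀ n, 0 < ρ n ∧ 0 < δ n) ∧ (∀ n, ρ (n + 1) ≤ ρ n / 16 ∧ ρ (n + 1) ≤ δ n / 16) ∧
      (∀ n w, dist (f (n + 1) w) (f n w) < 3 * ρ n ∧
        dist ((f (n + 1)).symm w) ((f n).symm w) < 3 * ρ n) ∧
      (∀ n w, w ∉ A n → dist (f (n + 1) w) (f n w) < ρ (n + 1) ∧
        dist ((f (n + 1)).symm w) ((f n).symm w) < ρ (n + 1)) ∧
      (∀ n, ∀ g : M ≃ₜ M, (∀ y, y ∉ A n → dist (g y) (f n y) < δ n ∧
          dist (g.symm y) ((f n).symm y) < δ n) →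
        ∀ x, x ∉ X n → ∃ k : ℤ, (g ^ k) x ∈ U n) ∧
      (∀ n x, x ∈ X n → dist x S.pt < ρ n) ∧ (∀ n, dist (f n S.pt) S.pt < ρ n) := by
  obtain ⟨d0⟩ := seqDat_init S (U 0) (hU 0) (hne 0)
  choose st hst using fun (n : ℕ) (d : SeqDat S (U n)) =>
    seqDat_step S (U n) (U (n + 1)) (hU (n + 1)) (hne (n + 1)) d
  let sq : (n : ℕ) → SeqDat S (U n) := fun n => Nat.rec d0 (fun n d => st n d) n
  have hsq : ∀ n, sq (n + 1) = st n (sq n) := fun n => rfl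
  choose Rh hR1 hR2 using fun u : ℝ => R_homeo S u
  let f : ℕ → (M ≃ₜ M) := fun n =>
    (sq n).H.symm.trans ((Rh ((sq n).p / (sq n).q : ℝ)).trans (sq n).H)
  have hf1 : ∀ n w, f n w = S.conj (sq n).H ((sq n).p / (sq n).q : ℝ) w := by
    intro n w
    show (sq n).H (Rh ((sq n).p / (sq n).q : ℝ) ((sq n).H.symm w)) = _
    rw [hR1]; rfl
  have hf2 : ∀ n w, (f n).symm w = S.conj (sq n).H (-((sq n).p / (sq n).q : ℝ)) w := by
    intro n w
    show (sq n).H ((Rh ((sq n).p / (sq n).q : ℝ)).symm ((sq n).H.symm w)) = _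
    rw [hR2]; rfl
  refine ⟨f, fun n => (sq n).ρ, fun n => (sq n).δ,
    fun n => {y | (sq n).H.symm y ∈ S.cbox (sq n).p (sq n).q 2 (sq n).η},
    fun n => {y | (sq n).H.symm y ∈ S.box (sq n).p (sq n).q (5 / 2) (2 * (sq n).η)},
    ?_, ?_, ?_, ?_, ?_, ?_, ?_⟩
  · intro n
    exact ⟨(sq n).hS.2.2.2.1, (sq n).hδ⟩
  · intro n
    have h1 : (sq (n + 1)).ρ = min (sq n).ρ (sq n).δ / 16 := (hst n (sq n)).1
    have h2 := min_le_left (sq n).ρ (sq n).δ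
    have h3 := min_le_right (sq n).ρ (sq n).δ
    show (sq (n + 1)).ρ ≤ (sq n).ρ / 16 ∧ (sq (n + 1)).ρ ≤ (sq n).δ / 16
    rw [h1]
    constructor <;> linarith
  · intro n w
    rw [hf1 (n + 1) w, hf1 n w, hf2 (n + 1) w, hf2 n w]
    exact (hst n (sq n)).2.1 w
  · intro n w hw
    rw [hf1 (n + 1) w, hf1 n w, hf2 (n + 1) w, hf2 n w]
    refine (hst n (sq n)).2.2 w ?_
    intro hb
    exact hw (box_sub_cbox S _ _ le_rfl hb)
  · intro n g hg x hx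
    refine (sq n).hq g ?_ x hx
    intro y hy
    have := hg y hy
    rwa [hf1, hf2] at this
  · intro n x hx
    have h1 := (sq n).hth _ (box_sub_cbox S _ _ (by norm_num : (5 / 2 : ℝ) ≤ 4) hx)
    rwa [Homeomorph.apply_symm_apply] at h1
  · intro n
    rw [hf1]
    exact seqDat_pt S _ _ _ _ (sq n).hS

end H56Mini
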