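import Pool.Agent.Helper56.Mini.Defs

set_option linter.all false

open Set Metric Topology Filter

namespace H56Mini



theorem geo3 {M : Type} [MetricSpace M] [CompactSpace M]
    {E : Type} [NormedAddCommGroup E] [NormedSpace ℝ E] [ProperSpace E]
    {F : Type} [NormedAddCommGroup F] [NormedSpace ℝ F] [ProperSpace F]
    {ι : Type} [Finite ι] (S : Model M E F ι) (x0 : ι → F) :
    ∃ L : ℝ, ∀ w, (∃ s t r, ‖r‖ ≤ 1 ∧ w = S.Psi (s, t, r)) ∨
      ∃ j t x, ‖x - x0 j‖ ≤ L ∧ w = S.Phi j (t, x) := by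
  obtain ⟨n, hn⟩ := isCompact_univ.elim_directed_cover
    (fun n : ℕ => S.Psi '' {y : ℝ × ℝ × E | ‖y.2.2‖ < 1} ∪
      ⋃ j, S.Phi j '' {y : ℝ × F | ‖y.2 - x0 j‖ < n})
    (by
      intro n
      apply IsOpen.union
      · apply S.Psi_open
        exact isOpen_lt (by fun_prop) continuous_const
      · apply isOpen_iUnion
        intro j
        apply S.Phi_open
        exact isOpen_lt (by fun_prop) continuous_const)
    (by
      intro w _
      rw [mem_iUnion]
      rcases S.cover w with ⟨s, t, h⟩ | ⟨j, y, h⟩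
      · refine ⟨0, Or.inl ⟨(s, t, 0), ?_, h.symm⟩⟩
        simp
      · obtain ⟨n, hn⟩ := exists_nat_gt ‖y.2 - x0 j‖
        refine ⟨n, Or.inr ?_⟩
        rw [mem_iUnion]
        exact ⟨j, y, hn, h.symm⟩)
    (by
      apply Monotone.directed_le
      intro a b hab
      apply union_subset_union_right
      apply iUnion_mono
      intro j
      apply image_mono
      intro y hy
      have h1 : ‖y.2 - x0 j‖ < (a : ℝ) := hy
      have h2 : (a : ℝ) ≤ b := by exact_mod_cast hab
      show ‖y.2 - x0 j‖ < (b : ℝ)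
      exact lt_of_lt_of_le h1 h2)
  refine ⟨n, fun w => ?_⟩
  rcases hn (mem_univ w) with ⟨⟨s, t, r⟩, hy, h⟩ | h
  · exact Or.inl ⟨s, t, r, le_of_lt hy, h.symm⟩
  · rw [mem_iUnion] at h
    obtain ⟨j, ⟨t, x⟩, hy, h⟩ := h
    exact Or.inr ⟨j, t, x, le_of_lt hy, h.symm⟩

end H56Mini
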