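import Pool.Agent.Helper56.Mini.Defs

set_option linter.all false

open Set Metric Topology Filter

namespace H56Mini



theorem limit_map {M : Type} [MetricSpace M] [CompactSpace M] (g : ℕ → M → M) (c : ℕ → ℝ)
    (hg : ∀ n, Continuous (g n)) (hc : Summable c)
    (h1 : ∀ n w, dist (g (n + 1) w) (g n w) ≤ c n) :
    ∃ G : M → M, Continuous G ∧ TendstoUniformly g G atTop ∧
      ∀ n w, dist (G w) (g n w) ≤ ∑' k, c (n + k) := by
  have h1' : ∀ w n, dist (g n w) (g (n + 1) w) ≤ c n := fun w n => by
    rw [dist_comm]; exact h1 n w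
  have hlim : ∀ w, ∃ a, Tendsto (fun n => g n w) atTop (𝓝 a) := fun w =>
    cauchySeq_tendsto_of_complete (cauchySeq_of_dist_le_of_summable c (h1' w) hc)
  choose G hG using hlim
  have hd : ∀ n w, dist (G w) (g n w) ≤ ∑' k, c (n + k) := fun n w => by
    rw [dist_comm]
    exact dist_le_tsum_of_dist_le_of_tendsto c (h1' w) hc (hG w) n
  have ht : Tendsto (fun n => ∑' k, c (n + k)) atTop (𝓝 0) := by
    have := tendsto_sum_nat_add c
    simpa only [add_comm] using this
  have hu : TendstoUniformly g G atTop := by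
    rw [Metric.tendstoUniformly_iff]
    intro ε hε
    filter_upwards [ht.eventually (gt_mem_nhds hε)] with n hn w
    exact (hd n w).trans_lt hn
  exact ⟨G, hu.continuous (Frequently.of_forall hg), hu, hd⟩

theorem limit_homeo {M : Type} [MetricSpace M] [CompactSpace M] (f : ℕ → (M ≃ₜ M)) (c : ℕ → ℝ)
    (hc : Summable c) (h1 : ∀ n w, dist (f (n + 1) w) (f n w) ≤ c n)
    (h2 : ∀ n w, dist ((f (n + 1)).symm w) ((f n).symm w) ≤ c n) :
    ∃ G : M ≃ₜ M, (∀ n w, dist (G w) (f n w) ≤ ∑' k, c (n + k)) ∧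
      ∀ n w, dist (G.symm w) ((f n).symm w) ≤ ∑' k, c (n + k) := by
  obtain ⟨G, hGc, hGu, hGd⟩ := limit_map (fun n => f n) c (fun n => (f n).continuous) hc h1
  obtain ⟨G', hGc', hGu', hGd'⟩ := limit_map (fun n => (f n).symm) c
    (fun n => (f n).symm.continuous) hc h2
  have hpt : ∀ w, Tendsto (fun n => f n w) atTop (𝓝 (G w)) := fun w => hGu.tendsto_at w
  have hpt' : ∀ w, Tendsto (fun n => (f n).symm w) atTop (𝓝 (G' w)) := fun w =>
    hGu'.tendsto_at w
  have hr : ∀ w, G (G' w) = w := by
    intro w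
    have h3 : Tendsto (fun n => f n ((f n).symm w)) atTop (𝓝 (G (G' w))) :=
      hGu.tendsto_comp hGc.continuousAt (hpt' w)
    simp only [Homeomorph.apply_symm_apply] at h3
    exact tendsto_nhds_unique h3 tendsto_const_nhds
  have hl : ∀ w, G' (G w) = w := by
    intro w
    have h3 : Tendsto (fun n => (f n).symm (f n w)) atTop (𝓝 (G' (G w))) :=
      hGu'.tendsto_comp hGc'.continuousAt (hpt w)
    simp only [Homeomorph.symm_apply_apply] at h3
    exact tendsto_nhds_unique h3 tendsto_const_nhds
  exact ⟨{ toFun := G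
           invFun := G'
           left_inv := hl
           right_inv := hr
           continuous_toFun := hGc
           continuous_invFun := hGc' }, hGd, hGd'⟩

end H56Mini
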