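import Pool.Agent.Helper56.Mini.Defs
import Pool.Agent.Helper56.Mini.P_limit_homeo
import Pool.Agent.Helper56.Mini.P_exists_seq

set_option linter.all false

open Set Metric Topology Filter

namespace H56Mini



theorem main_abs {M : Type} [MetricSpace M] [CompactSpace M]
    {E : Type} [NormedAddCommGroup E] [NormedSpace ℝ E] [ProperSpace E]
    {F : Type} [NormedAddCommGroup F] [NormedSpace ℝ F] [ProperSpace F]
    {ι : Type} [Finite ι] [Nonempty ι] (S : Model M E F ι) :
    ∃ G : M ≃ₜ M, G S.pt = S.pt ∧ ∀ x, x ≠ S.pt → ∀ U : Set M, IsOpen U → U.Nonempty →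
      ∃ k : ℤ, (G ^ k) x ∈ U := by
  have hsc : SecondCountableTopology M := inferInstance
  obtain ⟨b, hbc, hb0, hbb⟩ := TopologicalSpace.exists_countable_basis M
  have hbn : b.Nonempty := by
    obtain ⟨v, hv, _, _⟩ := hbb.exists_subset_of_mem_open (Set.mem_univ S.pt) isOpen_univ
    exact ⟨v, hv⟩
  obtain ⟨B, hB⟩ := hbc.exists_eq_range hbn
  have hBb : ∀ i, B i ∈ b := fun i => by rw [hB]; exact Set.mem_range_self i
  have hBo : ∀ i, IsOpen (B i) := fun i => hbb.isOpen (hBb i)
  have hBn : ∀ i, (B i).Nonempty := fun i => by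
    rw [Set.nonempty_iff_ne_empty]
    intro h
    exact hb0 (h ▸ hBb i)
  obtain ⟨f, ρ, δ, A, X, hpos, hρ, hf, hfA, hX, hXd, hpt⟩ :=
    exists_seq S (fun n => B (Nat.unpair n).1) (fun n => hBo _) (fun n => hBn _)
  have hdec : ∀ n k, ρ (n + k) ≤ ρ n * (1 / 16) ^ k := by
    intro n k
    induction k with
    | zero => simp
    | succ k ih =>
      have h1 := (hρ (n + k)).1
      have h2 : n + (k + 1) = n + k + 1 := by ring
      rw [h2, pow_succ]
      linarith
  have hgs : Summable fun k : ℕ => ((1 : ℝ) / 16) ^ k :=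
    summable_geometric_of_lt_one (by norm_num) (by norm_num)
  have hsumn : ∀ n, Summable fun k => 3 * ρ (n + k) := by
    intro n
    refine Summable.of_nonneg_of_le (fun k => by have := (hpos (n + k)).1; linarith)
      (fun k => ?_) (hgs.mul_left (3 * ρ n))
    have := hdec n k
    linarith
  have hsum : Summable fun n => 3 * ρ n := by
    have := hsumn 0
    simpa using this
  have htail : ∀ n, ∑' k, 3 * ρ (n + k) ≤ 4 * ρ n := by
    intro n
    have h1 : ∑' k, 3 * ρ (n + k) ≤ ∑' k : ℕ, 3 * ρ n * (1 / 16) ^ k := by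
      apply Summable.tsum_le_tsum _ (hsumn n) (hgs.mul_left (3 * ρ n))
      intro k
      have := hdec n k
      linarith
    have h1' : ∑' k : ℕ, 3 * ρ n * ((1 : ℝ) / 16) ^ k = 3 * ρ n * (1 - 1 / 16)⁻¹ := by
      rw [tsum_mul_left, tsum_geometric_of_lt_one (by norm_num) (by norm_num)]
    rw [h1'] at h1
    have h2 := (hpos n).1
    have h3 : 3 * ρ n * (1 - 1 / 16)⁻¹ ≤ 4 * ρ n := by
      have : ((1 : ℝ) - 1 / 16)⁻¹ = 16 / 15 := by norm_num
      rw [this]; linarith
    linarith
  obtain ⟨G, hG1, hG2⟩ := limit_homeo f (fun n => 3 * ρ n) hsum (fun n w => (hf n w).1.le)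
    (fun n w => (hf n w).2.le)
  have hG1' : ∀ n w, dist (G w) (f n w) ≤ 4 * ρ n := fun n w => (hG1 n w).trans (htail n)
  have hG2' : ∀ n w, dist (G.symm w) ((f n).symm w) ≤ 4 * ρ n :=
    fun n w => (hG2 n w).trans (htail n)
  have hclose : ∀ n, ∀ y, y ∉ A n → dist (G y) (f n y) < δ n ∧
      dist (G.symm y) ((f n).symm y) < δ n := by
    intro n y hy
    have h1 := hfA n y hy
    have h2 := (hρ n).2
    have h3 := (hpos n).2
    have h4 := (hpos (n + 1)).1
    constructor
    · have h5 := dist_triangle (G y) (f (n + 1) y) (f n y)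
      have h6 := hG1' (n + 1) y
      linarith [h1.1]
    · have h5 := dist_triangle (G.symm y) ((f (n + 1)).symm y) ((f n).symm y)
      have h6 := hG2' (n + 1) y
      linarith [h1.2]
  refine ⟨G, ?_, ?_⟩
  · by_contra hne
    have hd : 0 < dist (G S.pt) S.pt := dist_pos.2 hne
    have h0 := (hpos 0).1
    obtain ⟨n, hn⟩ := exists_pow_lt_of_lt_one (show 0 < dist (G S.pt) S.pt / (5 * ρ 0) by positivity)
      (show (1 / 16 : ℝ) < 1 by norm_num)
    have h1 := hdec 0 n
    rw [zero_add] at h1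
    rw [lt_div_iff₀ (by positivity)] at hn
    have h2 := hG1' n S.pt
    have h3 := hpt n
    have h4 := dist_triangle (G S.pt) (f n S.pt) S.pt
    nlinarith
  · intro x hx U hU hUn
    obtain ⟨y, hy⟩ := hUn
    obtain ⟨v, hv, _, hvU⟩ := hbb.exists_subset_of_mem_open hy hU
    rw [hB] at hv
    obtain ⟨i, rfl⟩ := hv
    have hd : 0 < dist x S.pt := dist_pos.2 hx
    have h0 := (hpos 0).1
    obtain ⟨j, hj⟩ := exists_pow_lt_of_lt_one (show 0 < dist x S.pt / (ρ 0) by positivity)
      (show (1 / 16 : ℝ) < 1 by norm_num)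
    rw [lt_div_iff₀ h0] at hj
    have hle : j ≤ Nat.pair i j := Nat.right_le_pair i j
    have h1 := hdec 0 (Nat.pair i j)
    rw [zero_add] at h1
    have h2 : ((1 : ℝ) / 16) ^ (Nat.pair i j) ≤ (1 / 16) ^ j :=
      pow_le_pow_of_le_one (by norm_num) (by norm_num) hle
    have h3 : ρ (Nat.pair i j) < dist x S.pt := by
      have h4 := mul_le_mul_of_nonneg_left h2 h0.le
      linarith
    have hnX : x ∉ X (Nat.pair i j) := fun hmem => by
      have := hXd _ x hmem
      linarith
    obtain ⟨k, hk⟩ := hX (Nat.pair i j) G (hclose _) x hnX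
    refine ⟨k, hvU ?_⟩
    simpa using hk

end H56Mini
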