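import Pool.Agent.Helper56.Mini.Defs
import Pool.Agent.Helper56.Mini.P_psi_uc
import Pool.Agent.Helper56.Mini.P_R_uc

set_option linter.all false

open Set Metric Topology Filter

namespace H56Mini



theorem sc_per_19157 {E : Type} (ψ : ℝ → E → ℝ) (h : ∀ τ r, ψ (τ + 1) r = ψ τ r) (p : ℤ) (τ : ℝ)
    (r : E) : ψ (τ + p) r = ψ τ r := by
  have hp : Function.Periodic (fun τ => ψ τ r) 1 := fun τ => h τ r
  have := hp.int_mul p τ
  simpa using this

theorem sd_conv {M : Type} [MetricSpace M] [CompactSpace M]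
    {E : Type} [NormedAddCommGroup E] [NormedSpace ℝ E] [ProperSpace E]
    {F : Type} [NormedAddCommGroup F] [NormedSpace ℝ F] [ProperSpace F]
    {ι : Type} (S : Model M E F ι) (p : ℤ) (q : ℕ) (hq : 0 < q) (η ω0 : ℝ)
    (ω ψ : ℝ → E → ℝ) (hd : IsData η ω0 ω ψ) (ε : ℝ) (hε : 0 < ε) :
    ∃ N0 : ℕ, ∀ N : ℕ, N0 ≤ N → 0 < N → ∀ Θ T : M ≃ₜ M,
      S.IsShear p q (fun τ r => N * ψ τ r) Θ → S.IsTwist p q ω T →
      ∀ w, dist (Θ (S.R ((p / q : ℝ) + 1 / (q * N)) (Θ.symm w))) (T w) < ε := by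
  obtain ⟨hω, hψ, hω1, hψ1, -, -, -, hr, -, -, hA, -⟩ := hd
  obtain ⟨δ, hδ, hpsi⟩ := psi_uc S η ε hε
  obtain ⟨δ', hδ', hR⟩ := R_uc S ε hε
  have hqr : (0:ℝ) < q := by exact_mod_cast hq
  have hq1 : (1:ℝ) ≤ q := by exact_mod_cast hq
  obtain ⟨k, hkd⟩ : ∃ k : ℝ, k = |(p:ℝ) / q| + 1 := ⟨_, rfl⟩
  have hk : 1 ≤ k := by rw [hkd]; linarith [abs_nonneg ((p:ℝ) / q)]
  have hk0 : 0 < k := by linarith
  obtain ⟨N1, hN1⟩ := hA (δ / (2 * k)) (by positivity)
  obtain ⟨N2, hN2⟩ := exists_nat_gt (2 / δ)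
  obtain ⟨N3, hN3⟩ := exists_nat_gt (1 / δ')
  refine ⟨max N1 (max N2 N3), fun N hN hN0 Θ T hΘ hT w => ?_⟩
  have hNr : (0:ℝ) < N := by exact_mod_cast hN0
  have hle1 : N1 ≤ N := (le_max_left _ _).trans hN
  have hle2 : N2 ≤ N := ((le_max_left _ _).trans (le_max_right _ _)).trans hN
  have hle3 : N3 ≤ N := ((le_max_right _ _).trans (le_max_right _ _)).trans hN
  have hle2' : (N2:ℝ) ≤ N := by exact_mod_cast hle2
  have hle3' : (N3:ℝ) ≤ N := by exact_mod_cast hle3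
  have e0 : 1 / ((q:ℝ) * N) ≤ 1 / N := one_div_le_one_div_of_le hNr (by nlinarith)
  have e1 : 1 / ((q:ℝ) * N) < δ / 2 := by
    refine lt_of_le_of_lt e0 ?_
    have h1 : 2 / δ < N := lt_of_lt_of_le hN2 hle2'
    rw [div_lt_iff₀ hδ] at h1
    rw [div_lt_div_iff₀ hNr (by norm_num)]
    linarith
  have e2 : 1 / ((q:ℝ) * N) < δ' := by
    refine lt_of_le_of_lt e0 ?_
    have h1 : 1 / δ' < N := lt_of_lt_of_le hN3 hle3'
    rw [div_lt_iff₀ hδ'] at h1
    rw [div_lt_iff₀ hNr]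
    linarith
  have e3 : 0 < 1 / ((q:ℝ) * N) := by positivity
  have hrot : ∀ w, dist (S.R ((p / q : ℝ) + 1 / (q * N)) w) (S.R (p / q : ℝ) w) < ε := by
    intro w
    apply hR
    · rw [add_sub_cancel_left, abs_of_pos e3]
      exact e2
    · rw [dist_self]
      exact hδ'
  by_cases hw : ∃ s t r, w = S.Psi (s, t, r)
  · obtain ⟨s, t, r, rfl⟩ := hw
    obtain ⟨τ, hτ⟩ : ∃ τ : ℝ, τ = q * t - p * s := ⟨_, rfl⟩
    have hsymm : Θ.symm (S.Psi (s, t, r)) =
        S.Psi (s - N * ψ τ r, t - (p / q : ℝ) * (N * ψ τ r), r) := by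
      rw [Homeomorph.symm_apply_eq, hΘ.1]
      have h1 : (q:ℝ) * (t - (p / q : ℝ) * (N * ψ τ r)) - p * (s - N * ψ τ r) = τ := by
        rw [hτ]
        field_simp
        ring
      rw [h1]
      congr 1
      simp only [Prod.mk.injEq]
      refine ⟨by ring, by ring, trivial⟩
    rw [hsymm, S.Psi_R, hΘ.1, hT.1]
    have hτ' : (q:ℝ) * (t - (p / q : ℝ) * (N * ψ τ r) + ((p / q : ℝ) + 1 / (q * N))) -
        p * (s - N * ψ τ r) = (τ + 1 / N) + p := by
      rw [hτ]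
      field_simp
      ring
    rw [hτ']
    beta_reduce
    rw [sc_per_19157 ψ hψ1 p, ← hτ]
    by_cases hrn : ‖r‖ ≤ η
    · have h1 := hN1 N hle1 hN0 τ r
      apply hpsi _ _ _ _ r hrn
      · have h2 : (s - N * ψ τ r + N * ψ (τ + 1 / N) r) - (s + (ω τ r - 1)) =
            N * (ψ (τ + 1 / N) r - ψ τ r) - (ω τ r - 1) := by ring
        rw [h2]
        refine lt_of_lt_of_le h1 ?_
        rw [div_le_iff₀ (by positivity)]
        nlinarith
      · have h2 : (t - (p / q : ℝ) * (N * ψ τ r) + ((p / q : ℝ) + 1 / (q * N)) +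
            (p / q : ℝ) * (N * ψ (τ + 1 / N) r)) - (t + (p / q : ℝ) + (p / q : ℝ) * (ω τ r - 1)) =
            1 / (q * N) + (p / q : ℝ) * (N * (ψ (τ + 1 / N) r - ψ τ r) - (ω τ r - 1)) := by ring
        rw [h2]
        have h3 : |(p / q : ℝ) * (N * (ψ (τ + 1 / N) r - ψ τ r) - (ω τ r - 1))| ≤ δ / 2 := by
          rw [abs_mul]
          calc |(p / q : ℝ)| * |N * (ψ (τ + 1 / N) r - ψ τ r) - (ω τ r - 1)|
              ≤ k * (δ / (2 * k)) :=
                mul_le_mul (by rw [hkd]; linarith) h1.le (abs_nonneg _) hk0.le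
            _ = δ / 2 := by field_simp
        calc |1 / ((q:ℝ) * N) + (p / q : ℝ) * (N * (ψ (τ + 1 / N) r - ψ τ r) - (ω τ r - 1))|
            ≤ |1 / ((q:ℝ) * N)| + |(p / q : ℝ) * (N * (ψ (τ + 1 / N) r - ψ τ r) - (ω τ r - 1))| :=
              abs_add_le _ _
          _ < δ / 2 + δ / 2 := by
              rw [abs_of_pos e3]
              linarith
          _ = δ := by ring
    · push Not at hrn
      have h0 : ∀ τ, ω τ r = 1 ∧ ψ τ r = 0 := fun τ => hr τ r hrn.le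
      rw [(h0 τ).1, (h0 τ).2, (h0 (τ + 1 / N)).2]
      have h1 := hrot (S.Psi (s, t, r))
      rw [S.Psi_R, S.Psi_R] at h1
      have h2 : S.Psi (s - N * 0 + N * 0, t - (p / q : ℝ) * (N * 0) + ((p / q : ℝ) + 1 / (q * N)) +
          (p / q : ℝ) * (N * 0), r) = S.Psi (s, t + ((p / q : ℝ) + 1 / (q * N)), r) := by
        congr 1
        simp only [Prod.mk.injEq]
        refine ⟨by ring, by ring, trivial⟩
      have h3 : S.Psi (s + (1 - 1), t + (p / q : ℝ) + (p / q : ℝ) * (1 - 1), r) =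
          S.Psi (s, t + (p / q : ℝ), r) := by
        congr 1
        simp only [Prod.mk.injEq]
        refine ⟨by ring, by ring, trivial⟩
      rw [h2, h3]
      exact h1
  · push Not at hw
    have h1 : Θ.symm w = w := by
      rw [Homeomorph.symm_apply_eq, hΘ.2 w hw]
    have h2 : ∀ s t r, S.R ((p / q : ℝ) + 1 / (q * N)) w ≠ S.Psi (s, t, r) := by
      intro s t r h3
      apply hw s (t + -((p / q : ℝ) + 1 / (q * N))) r
      rw [← S.Psi_R, ← h3, ← S.R_add, neg_add_cancel, S.R_zero]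
    rw [h1, hΘ.2 _ h2, hT.2 w hw]
    exact hrot w

end H56Mini
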